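import Pool.Agent.Lib.MP_45cb44_an.TC.LocV

/-! Operators without hyperinvariant subspaces. -/

namespace Pool.Agent.Lib.MP_45cb44_an.TC

open MeasureTheory Metric Set Filter Topology ContinuousLinearMap
open scoped ENNReal NNReal Real ComplexConjugate InnerProductSpace

variable {H : Type*} [NormedAddCommGroup H] [InnerProductSpace ℂ H] [CompleteSpace H]
  {T : H →L[ℂ] H} {c c' : ℂ} {r : ℝ} {x y : H}

/-- Only trivial closed subspaces are invariant under the commutant. -/
def HT (T : H →L[ℂ] H) : Prop :=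
  ∀ M : Submodule ℂ H, IsClosed (M : Set H) → (∀ S, Commute S T → ∀ x ∈ M, S x ∈ M) →
    M = ⊥ ∨ M = ⊤

lemma HT.inj (h : HT T) (hs : ∀ a : ℂ, T ≠ a • 1) (l : ℂ) (x : H) (hx : T x = l • x) : x = 0 := by
  let K : H →L[ℂ] H := T - l • 1
  have e : ∀ z, z ∈ K.ker ↔ T z = l • z := fun z => by
    simp [K, sub_eq_zero]
  rcases h K.ker K.isClosed_ker (fun S hS z hz => (e _).2 (by
    rw [← mul_apply_eq_comp, ← hS.eq, mul_apply_eq_comp, (e z).1 hz, map_smul])) with k | k
  · exact (Submodule.eq_bot_iff _).1 k x ((e x).2 hx)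
  · exact absurd (ContinuousLinearMap.ext fun z => (e z).1 (k ▸ Submodule.mem_top)) (hs l)

lemma HT.star (h : HT T) : HT (star T) := by
  intro M hM hS
  have := hM.completeSpace_coe
  rcases h Mᗮ M.isClosed_orthogonal (fun S k z hz => (M.mem_orthogonal _).2 fun u hu => by
    rw [← adjoint_inner_left, ← star_eq_adjoint]
    exact (M.mem_orthogonal _).1 hz _ (hS _ k.star_star u hu)) with k | k
  · exact .inr (M.orthogonal_eq_bot_iff.1 k)
  · exact .inl (M.orthogonal_eq_top_iff.1 k)

lemma HT.loc (h : HT T) (hx : LocVec T x c r) (hy : LocVec (Star.star T) y (conj c') r)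
    (hc : 2 * r < ‖c - c'‖) : x = 0 ∨ y = 0 := by
  let P : Submodule ℂ H :=
    { carrier := {z | LocVec T z c r}
      add_mem' := by
        rintro _ _ ⟨f, f1, f2⟩ ⟨g, g1, g2⟩
        refine ⟨fun l => f l + g l, f1.add g1, fun l hl => ?_⟩
        rw [← f2 l hl, ← g2 l hl, map_add, smul_add, add_sub_add_comm]
      zero_mem' := ⟨fun _ => 0, differentiableOn_const _, fun l _ => by simp⟩
      smul_mem' := by
        rintro a _ ⟨f, f1, f2⟩
        refine ⟨fun l => a • f l, f1.const_smul a, fun l hl => ?_⟩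
        rw [← f2 l hl, map_smul, smul_sub, smul_comm] }
  rcases h P.topologicalClosure P.isClosed_topologicalClosure (fun S hS z hz =>
    (MapsTo.closure (s := P) (t := P) (by
      rintro _ ⟨f, f1, f2⟩
      refine ⟨fun l => S (f l), S.differentiable.comp_differentiableOn f1, fun l hl => ?_⟩
      rw [← f2 l hl, map_sub, map_smul, ← mul_apply_eq_comp, ← hS.eq, mul_apply_eq_comp])
      S.continuous) hz) with k | k
  · exact .inl ((Submodule.eq_bot_iff _).1 k x (P.le_topologicalClosure hx))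
  · refine .inr (inner_self_eq_zero (𝕜 := ℂ) |>.1 ?_)
    exact closure_minimal (s := P) (t := {z | ⟪z, y⟫_ℂ = 0}) (fun z hz => LocVec.orth hz hy hc)
      (isClosed_eq (by fun_prop) continuous_const)
      (show y ∈ P.topologicalClosure from k ▸ Submodule.mem_top)

lemma HT.hilden (h : HT T) (hs : ∀ a : ℂ, T ≠ a • 1)
    (hc : IsCompactOperator (T - c • 1 : H →L[ℂ] H)) : False := by
  have h0 := h
  clear h
  generalize c = a at hc
  set K : H →L[ℂ] H := T - a • 1 with hK
  have ne : ∀ x b, K x = b • x → x = 0 := fun x b h => h0.inj hs (b + a) x (by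
    rw [add_smul, ← h]
    simp [hK])
  have sr : spectralRadius ℂ K = 0 := by
    simp only [spectralRadius, ENNReal.iSup_eq_zero, ENNReal.coe_eq_zero, nnnorm_eq_zero]
    intro k hk
    by_contra k0
    rcases hc.hasEigenvalue_or_mem_resolventSet k0 with h | h
    · obtain ⟨x, hx⟩ := h.exists_hasEigenvector
      exact hx.2 (ne x k hx.apply_eq_smul)
    · exact hk h
  have : Nontrivial H := by
    by_contra h
    rw [not_nontrivial_iff_subsingleton] at h
    exact hs 0 (Subsingleton.elim _ _)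
  obtain ⟨x, hx⟩ : ∃ x, ‖K‖ < ‖K x‖ := by
    obtain ⟨x, hx⟩ := exists_ne (0 : H)
    have p : 0 < ‖K x‖ := norm_pos_iff.2 fun h => hx (ne x 0 (by simpa using h))
    refine ⟨(((‖K‖ + 1) / ‖K x‖ : ℝ) : ℂ) • x, ?_⟩
    rw [map_smul, norm_smul, Complex.norm_real, Real.norm_of_nonneg (by positivity),
      div_mul_cancel₀ _ p.ne']
    linarith
  have x1 : 1 < ‖x‖ := by
    by_contra! h
    linarith [K.le_opNorm x, mul_le_of_le_one_right (norm_nonneg K) h]
  have hS := IsCompactOperator.isCompact_closure_image_of_bounded (f := K.toLinearMap) hc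
    (isBounded_ball (x := x) (r := 1))
  have key : ∀ y ∈ closure (K.toLinearMap '' ball x 1), ∃ A : H →L[ℂ] H, Commute A T ∧
      A y ∈ ball x 1 := fun y hy => by
    have h1 : y ∈ closedBall (K x) ‖K‖ := closure_minimal (by
      rintro _ ⟨z, hz, rfl⟩
      exact (K.dist_le_opNorm z x).trans (mul_le_of_le_one_right (norm_nonneg _) (le_of_lt hz)))
      isClosed_closedBall hy
    let P : Submodule ℂ H :=
      { carrier := {z | ∃ A : H →L[ℂ] H, Commute A T ∧ A y = z}
        add_mem' := by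
          rintro _ _ ⟨A, h, rfl⟩ ⟨B, h', rfl⟩
          exact ⟨A + B, h.add_left h', rfl⟩
        zero_mem' := ⟨0, Commute.zero_left _, rfl⟩
        smul_mem' := by
          rintro c _ ⟨A, h, rfl⟩
          exact ⟨c • A, h.smul_left c, rfl⟩ }
    have e := (h0 P.topologicalClosure P.isClosed_topologicalClosure
      fun S hS z hz => (MapsTo.closure (s := P) (t := P) (by
        rintro _ ⟨A, h, rfl⟩
        exact ⟨S * A, hS.mul_left h, rfl⟩) S.continuous) hz).resolve_left fun k => by
        obtain rfl : y = 0 := (Submodule.eq_bot_iff _).1 k y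
          (P.le_topologicalClosure ⟨1, Commute.one_left _, rfl⟩)
        simp at h1
        linarith
    obtain ⟨_, ⟨A, h, rfl⟩, h'⟩ := Metric.mem_closure_iff.1
      (show x ∈ closure (P : Set H) from (e ▸ Submodule.mem_top : x ∈ P.topologicalClosure)) 1 one_pos
    exact ⟨A, h, mem_ball'.2 h'⟩
  choose! A h1 h2 using key
  obtain ⟨t, h3, h4⟩ := hS.elim_nhds_subcover (fun y => A y ⁻¹' ball x 1) fun y hy =>
    (isOpen_ball.preimage (A y).continuous).mem_nhds (h2 y hy)
  set c := ∑ y ∈ t, ‖A y‖ + 1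
  have c0 : 0 < c := by positivity
  have it : ∀ n : ℕ, ∃ B : H →L[ℂ] H, Commute B T ∧ ‖B‖ ≤ c ^ n ∧ B ((K ^ n) x) ∈ ball x 1 := by
    intro n
    induction n with
    | zero => exact ⟨1, Commute.one_left _, by simp, by simp⟩
    | succ n ih =>
      obtain ⟨B, b1, b2, b3⟩ := ih
      obtain ⟨y, hy, h5⟩ := mem_iUnion₂.1 (h4 (subset_closure ⟨_, b3, rfl⟩))
      refine ⟨A y * B, (h1 y (h3 y hy)).mul_left b1, (norm_mul_le _ _).trans ?_, ?_⟩
      · rw [pow_succ']
        refine mul_le_mul ?_ b2 (norm_nonneg _) c0.le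
        linarith [Finset.single_le_sum (f := fun y => ‖A y‖) (fun _ _ => norm_nonneg _) hy]
      · have b4 : Commute B K := b1.sub_right ((Commute.one_right B).smul_right a)
        rw [pow_succ', mul_apply_eq_comp, mul_apply_eq_comp, ← mul_apply_eq_comp B, b4.eq]
        exact h5
  have g := spectrum.pow_norm_pow_one_div_tendsto_nhds_spectralRadius K
  rw [sr] at g
  have t2 := (tendsto_pow_atTop_nhds_zero_of_lt_one (r := (1 / 2 : ℝ)) (by norm_num)
    (by norm_num)).mul_const ‖x‖
  rw [zero_mul] at t2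
  obtain ⟨n, a1, a2, a3⟩ := ((g.eventually (gt_mem_nhds (ENNReal.ofReal_pos.2
    (by positivity : 0 < 1 / 2 / c)))).and ((eventually_ne_atTop 0).and
    (t2.eventually (gt_mem_nhds (sub_pos.2 x1))))).exists
  obtain ⟨B, -, b2, b3⟩ := it n
  rw [ENNReal.ofReal_lt_ofReal_iff (by positivity), one_div] at a1
  have a4 := pow_le_pow_left₀ (by positivity) a1.le n
  rw [Real.rpow_inv_natCast_pow (norm_nonneg _) a2] at a4
  have a5 := le_of_opNorm_le _ ((norm_mul_le B (K ^ n)).trans
    (mul_le_mul b2 a4 (norm_nonneg _) (by positivity))) x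
  rw [← mul_pow, mul_div_cancel₀ _ c0.ne', mul_apply_eq_comp] at a5
  linarith [mem_ball_iff_norm'.1 b3, norm_sub_norm_le x (B ((K ^ n) x))]

end Pool.Agent.Lib.MP_45cb44_an.TC
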