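import Pool.Agent.Lib.MP_45cb44_an.TC.Step

/-! A good disc on a route. -/

namespace Pool.Agent.Lib.MP_45cb44_an.TC

open MeasureTheory Metric Set Filter Topology
open scoped ENNReal NNReal Real ComplexConjugate InnerProductSpace

/-- Every point of `K` lies on subcontinua of every size up to `D`. -/
def Sub (K : Set ℂ) (D : ℝ) : Prop :=
  ∀ k ∈ K, ∀ r, 0 < r → r ≤ D → ∃ K' ⊆ K, IsCompact K' ∧ IsPreconnected K' ∧
    K' ⊆ closedBall k r ∧ k ∈ K' ∧ ∃ k' ∈ K', ‖k' - k‖ = r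

lemma sub_path {a b : ℂ} (γ : Path a b) {D : ℝ} (h : 2 * D ≤ ‖a - b‖) : Sub (range γ) D := by
  have key : ∀ {a b : ℂ} (γ : Path a b), ∀ k ∈ range γ, ∀ r, 0 < r → r ≤ ‖b - k‖ →
      ∃ K' ⊆ range γ, IsCompact K' ∧ IsPreconnected K' ∧ K' ⊆ closedBall k r ∧ k ∈ K' ∧
        ∃ k' ∈ K', ‖k' - k‖ = r := by
    rintro a b γ _ ⟨p, rfl⟩ r r0 h
    have c := γ.continuous_extend
    have c' : Continuous fun s => ‖γ.extend s - γ p‖ := by fun_prop
    obtain ⟨s, ⟨s1, s2⟩, s3⟩ := ((isCompact_Icc (a := (p : ℝ)) (b := 1)).inter_right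
      (isClosed_le (continuous_const (y := r)) c')).exists_isLeast ⟨1, ⟨p.2.2, le_rfl⟩, by simpa⟩
    obtain ⟨y, y1, y2⟩ := intermediate_value_Icc s1.1 c'.continuousOn
      (show r ∈ _ from ⟨by simpa using r0.le, s2⟩)
    refine ⟨γ.extend '' Icc p y, (image_subset_range _ _).trans_eq γ.extend_range,
      isCompact_Icc.image c, isPreconnected_Icc.image _ c.continuousOn, ?_,
      ⟨p, ⟨le_rfl, y1.1⟩, by simp⟩, _, ⟨y, ⟨y1.1, le_rfl⟩, rfl⟩, y2⟩
    rintro _ ⟨x, hx, rfl⟩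
    refine mem_closedBall_iff_norm.2 (hx.2.eq_or_lt.elim (fun e => e ▸ y2.le) fun e => ?_)
    exact le_of_not_ge fun h => (s3 ⟨⟨hx.1, (e.le.trans y1.2).trans s1.2⟩, h⟩).not_gt (e.trans_le y1.2)
  intro k hk r r0 r1
  rcases le_total r ‖b - k‖ with h1 | h1
  · exact key γ k hk r r0 h1
  · rw [← γ.symm_range] at hk ⊢
    exact key _ k hk r r0 (by linarith [norm_sub_le_norm_sub_add_norm_sub a k b, norm_sub_rev k b])

variable {G : Type*} [NormedAddCommGroup G] [InnerProductSpace ℂ G]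

lemma Gd.add {σ : Measure ℂ} [IsFiniteMeasure σ] {b : ℂ → G} (hb : Bm b 1) {k ζ : ℂ} {r Λ Λ' : ℝ}
    (h0 : ‖ζ - k‖ < r) (h : Gd (σ.restrict (closedBall k r)) b Λ ζ)
    (h' : ‖Cb (σ.restrict (closedBall k r)ᶜ) b ζ‖ ≤ Λ') : Gd σ b (Λ + Λ') ζ := by
  have i : Integrable (fun w => ‖w - ζ‖⁻¹) σ := by
    rw [← σ.restrict_add_restrict_compl (measurableSet_closedBall (x := k) (ε := r))]
    exact h.1.add_measure (far_int (sub_pos.2 h0) (far_ae σ (by linarith))).1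
  exact ⟨i, (Cb_split hb i measurableSet_closedBall).symm ▸ norm_add_le_of_le h.2 h'⟩

lemma gd_disc {σ : Measure ℂ} [IsFiniteMeasure σ] {b : ℂ → G} (hb : Bm b 1) (x : ℂ) {δ Λ : ℝ}
    (hδ : 0 < δ) (hΛ : 0 < Λ) (h : σ univ ≤ ENNReal.ofReal (Λ / 6 * δ)) :
    mm {ζ | ζ ∈ ball x δ ∧ ¬Gd σ b Λ ζ} ≤ ENNReal.ofReal (δ ^ 2 / 2) := by
  have n := newton_le (ν := mm.restrict (ball x δ)) Measure.restrict_le_self hδ
    (by simp [mm_ball x hδ.le])
  have m : Measurable fun p : ℂ × ℂ => ENNReal.ofReal ‖p.2 - p.1‖⁻¹ := by fun_prop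
  have sub : {ζ | ζ ∈ ball x δ ∧ ¬Gd σ b Λ ζ} ⊆
      {ζ | ENNReal.ofReal Λ ≤ ∫⁻ w, ENNReal.ofReal ‖w - ζ‖⁻¹ ∂σ} ∩ ball x δ := fun ζ hζ => by
    refine ⟨mem_ofPred.2 (le_of_not_gt fun h1 => hζ.2 ?_), hζ.1⟩
    have p : 0 ≤ᵐ[σ] fun w => ‖w - ζ‖⁻¹ := .of_forall fun w => by positivity
    have i : Integrable (fun w => ‖w - ζ‖⁻¹) σ := ⟨Measurable.aestronglyMeasurable (by fun_prop),
      (hasFiniteIntegral_iff_ofReal p).2 (h1.trans ENNReal.ofReal_lt_top)⟩
    rw [← ofReal_integral_eq_lintegral_ofReal i p, ENNReal.ofReal_lt_ofReal_iff hΛ] at h1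
    exact ⟨i, (hb.tr_le ker_conj i).trans (by linarith)⟩
  refine (measure_mono sub).trans ((Measure.restrict_apply' measurableSet_ball).ge.trans
    ((meas_ge_le_lintegral_div m.lintegral_prod_right'.aemeasurable (by simpa)
      ENNReal.ofReal_ne_top).trans (ENNReal.div_le_of_le_mul ?_)))
  have : SFinite (mm.restrict (ball x δ)) := inferInstance
  rw [lintegral_lintegral_swap m.aemeasurable]
  refine (lintegral_mono (g := fun _ => ENNReal.ofReal (3 * δ)) fun w => ?_).trans ?_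
  · simp only [norm_sub_rev w]
    rw [← ofReal_integral_eq_lintegral_ofReal (n w).1 (.of_forall fun w => by positivity)]
    exact ENNReal.ofReal_le_ofReal (n w).2
  · rw [lintegral_const]
    refine (mul_le_mul_right h _).trans_eq ?_
    rw [← ENNReal.ofReal_mul (by positivity), ← ENNReal.ofReal_mul (by positivity)]
    congr 1
    ring

variable (G) [CompleteSpace G]

theorem propP : ∃ C1 C3 : ℝ, 0 < C1 ∧ 0 < C3 ∧ ∀ (K : Set ℂ) (J : Set (ℂ × ℝ)) (D m : ℝ) (b : ℂ → G),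
    Sub K D → 0 < m → (∀ j ∈ J, m ≤ j.2) → (∀ k ∈ K, ∃ j ∈ J, k ∈ ball j.1 j.2) → Bm b 1 →
    ∀ z ∈ K, ∀ (d η : ℝ) (σ s : Measure ℂ), 0 < d → d ≤ D → 0 < η → σ ≤ s →
      s univ ≤ ENNReal.ofReal (η * d) → (∀ j ∈ J, d ≤ j.2 → j.2 + 2 * d < ‖z - j.1‖) →
      ∃ j ∈ J, closedBall j.1 j.2 ⊆ ball z (5 * d) ∧ s {j.1} ≤ ENNReal.ofReal (C1 * η * j.2) ∧
        mm {ζ | ζ ∈ ball j.1 j.2 ∧ ¬Gd σ b (C3 * η) ζ} ≤ ENNReal.ofReal (j.2 ^ 2 / 2) := by
  obtain ⟨C0, C2, c0, c2, st⟩ := step G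
  refine ⟨3 * C0, 60 * C0 + 2 * C2, by positivity, by positivity,
    fun K J D m b hS m0 hm hc hb z hz d η σ s d0 => ?_⟩
  obtain ⟨n, hn⟩ := pow_unbounded_of_one_lt (d / m) one_lt_two
  rw [div_lt_iff₀ m0] at hn
  have base : ∀ z ∈ K, ∀ d, 0 ≤ d → (∀ j ∈ J, d ≤ j.2 → j.2 + 2 * d < ‖z - j.1‖) → m < d :=
    fun z hz d d0 h => by
    obtain ⟨j, hj, h1⟩ := hc z hz
    exact lt_of_not_ge fun h2 => by
      linarith [h j hj (h2.trans (hm j hj)), mem_ball_iff_norm.1 h1]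
  induction n generalizing z d η σ s with
  | zero => exact fun _ _ _ _ h => absurd (base z hz d d0.le h) (by linarith)
  | succ n ih =>
  intro dD η0 hσ hs hI
  have : IsFiniteMeasure s := ⟨hs.trans_lt ENNReal.ofReal_lt_top⟩
  have := isFiniteMeasure_of_le s hσ
  obtain ⟨K', k1, k2, k3, k4, k5, z', k6, k7⟩ := hS z hz d d0 dD
  obtain ⟨k, hk, r, r0, r1, a, a', a''⟩ := st K' z z' d m η σ s b k2 k3 k4 k5 k6 k7 m0
    (base z hz d d0.le hI).le η0 hσ hs hb
  have kz := mem_closedBall_iff_norm.1 (k4 hk)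
  have t := @norm_sub_le_norm_sub_add_norm_sub ℂ _
  by_cases h : ∀ j ∈ J, r ≤ j.2 → j.2 + 2 * r < ‖k - j.1‖
  · have h1 := base k (k1 hk) r r0 h
    have r2 := m0.trans h1
    obtain ⟨j, hj, b1, b2, b3⟩ := ih k (k1 hk) r (η / 2) (σ.restrict (closedBall k (10 * r)))
      (s.restrict (closedBall k (10 * r))) r2 (by rw [pow_succ] at hn; linarith) (by linarith)
      (by positivity) (Measure.restrict_mono subset_rfl hσ)
      (by rw [Measure.restrict_apply_univ]; exact a' r2) h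
    have j0 := m0.trans_le (hm j hj)
    refine ⟨j, hj, b1.trans (ball_subset_ball' (by rw [dist_eq_norm]; linarith)), ?_,
      le_trans (measure_mono fun ζ hζ => And.intro hζ.1 fun g => hζ.2 ?_) b3⟩
    · rw [Measure.restrict_eq_self _ (singleton_subset_iff.2 (ball_subset_closedBall
        (ball_subset_ball (by linarith) (b1 (mem_closedBall_self j0.le)))))] at b2
      exact b2.trans (ENNReal.ofReal_le_ofReal (by gcongr; linarith))
    · have h2 := b1 (ball_subset_closedBall hζ.1)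
      have h3 := g.add hb (by linarith [mem_ball_iff_norm.1 h2]) (a'' r le_rfl h1.le (by linarith) ζ h2)
      exact ⟨h3.1, h3.2.trans (by nlinarith [mul_pos c0 η0])⟩
  · push Not at h
    obtain ⟨j, hj, h1, h2⟩ := h
    have j0 := m0.trans_le (hm j hj)
    have h3 : j.2 < d := lt_of_not_ge fun h => by
      linarith [hI j hj h, t z k j.1, norm_sub_rev z k]
    refine ⟨j, hj, closedBall_subset_ball' (by
      rw [dist_eq_norm]; linarith [t j.1 k z, norm_sub_rev j.1 k]), (measure_mono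
        (singleton_subset_iff.2 (mem_closedBall_iff_norm'.2 (by linarith)))).trans
        ((a (3 * j.2) (by positivity)).trans_eq (by congr 1; ring)), le_trans (measure_mono
        fun ζ hζ => And.intro hζ.1 fun g => hζ.2 ?_) (gd_disc (σ := σ.restrict (closedBall k (10 * j.2)))
        hb j.1 j0 (Λ := 60 * C0 * η) (by positivity) ?_)⟩
    · have h4 : ‖ζ - k‖ < 5 * j.2 := by
        linarith [t ζ j.1 k, mem_ball_iff_norm.1 hζ.1, norm_sub_rev j.1 k]
      have h5 := g.add hb (by linarith) (a'' j.2 h1 (hm j hj) h3.le ζ (mem_ball_iff_norm.2 h4))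
      exact ⟨h5.1, h5.2.trans (by nlinarith [mul_pos c2 η0])⟩
    · rw [Measure.restrict_apply_univ]
      exact (hσ _).trans ((a _ (by positivity)).trans_eq (by congr 1; ring))

end Pool.Agent.Lib.MP_45cb44_an.TC
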