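import Pool.Agent.Lib.MP_45cb44_an.Dual
import Pool.Agent.Lib.MP_45cb44_an.TC.PropP

/-! The dichotomy. -/

namespace Pool.Agent.Lib.MP_45cb44_an.TC

open MeasureTheory Metric Set Filter Topology
open scoped ENNReal NNReal Real ComplexConjugate InnerProductSpace

lemma route_path {f : ℂ → ℝ} {c : ℂ} {R ε w : ℝ} {A κ : ℕ → ℝ} (l : Lev R A κ) (h0 : 0 < R)
    (h1 : R ≤ 1 / 2) (hw : 0 ≤ w) (n : ℕ) : ∀ z ∈ UU f c R ε A n,
    ∃ (J : Set (ℂ × ℝ)) (s : Measure ℂ), s univ ≤ ENNReal.ofReal (w * (2 * A 0 - 2 * A n)) ∧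
      (∀ j ∈ J, A n ^ 2 ≤ j.2 ∧ j.2 ≤ A 0 ∧ (ENNReal.ofReal (w * j.2) ≤ s {j.1} ∨
        ‖j.1 - c‖ < 3 * R / 4 ∧ ∫ ζ in ball j.1 (2 * j.2), f ζ ∂mD ≤ ε * j.2 ^ 4)) ∧
      ∃ a ∈ ball c (R / 4), a = z ∨ JoinedIn (⋃ j ∈ J, ball j.1 j.2) a z := by
  have an : ∀ n, A n ≤ A 0 := fun n => antitone_nat_of_succ_le
    (fun n => by linarith [l.succ n, l.pos n]) n.zero_le
  induction n with
  | zero => exact fun z hz => ⟨∅, 0, by simp, by simp, z, hz, Or.inl rfl⟩
  | succ n ih =>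
  rintro z ⟨q, hq, k, h⟩
  obtain ⟨p, hp, h2⟩ := mem_thickening_iff.1 hq
  obtain ⟨J, s, a1, a2, a, a3, a4⟩ := ih p hp
  have A0 := l.pos n
  have A1 := l.pos (n + 1)
  have A2 := l.succ n
  have A3 := l.sq_le h0 h1 (n + 1)
  have A4 := an n
  set J' := insert (p, A n) (J ∪ {j | Light f c R ε A n j.1 ∧ j.2 = A (n + 1) ^ 2})
  have jb : ∀ j ∈ J', ∀ x ∈ ball j.1 j.2, ∀ y ∈ ball j.1 j.2, JoinedIn (⋃ j ∈ J', ball j.1 j.2) x y :=
    fun j hj x hx y hy => (((convex_ball _ _).isPathConnected ⟨x, hx⟩).joinedIn x hx y hy).mono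
      (subset_biUnion_of_mem (u := fun j : ℂ × ℝ => ball j.1 j.2) hj)
  have b1 := jb _ (mem_insert _ _) p (mem_ball_self A0) q h2
  refine ⟨J', s + ENNReal.ofReal (w * A n) • Measure.dirac p, ?_, ?_, a, a3, Or.inr ?_⟩
  · rw [Measure.add_apply, Measure.smul_apply, Measure.dirac_apply_of_mem (mem_univ _), smul_eq_mul,
      mul_one]
    refine (add_le_add a1 le_rfl).trans ?_
    rw [← ENNReal.ofReal_add (mul_nonneg hw (by linarith)) (by positivity), ← mul_add]
    exact ENNReal.ofReal_le_ofReal (mul_le_mul_of_nonneg_left (by linarith) hw)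
  · rintro j (rfl | hj | ⟨h3, h4⟩)
    · exact ⟨by linarith, A4, Or.inl (by simp)⟩
    · exact ⟨(pow_le_pow_left₀ A1.le (by linarith) 2).trans (a2 j hj).1, (a2 j hj).2.1,
        (a2 j hj).2.2.imp_left fun h => le_add_right h⟩
    · exact ⟨h4.ge, by linarith, Or.inr ⟨h3.1, by rw [h4, ← pow_mul]; exact h3.2⟩⟩
  · refine JoinedIn.trans (a4.elim (fun e => e ▸ b1) fun e => (e.mono (biUnion_subset_biUnion_left
      fun j hj => Or.inr (Or.inl hj))).trans b1) ?_
    have b2 := b1.target_mem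
    clear b1 h2 hq
    induction h with
    | refl => exact .refl b2
    | @step k q q' h1 h2 _ ih =>
      have := jb (q, A (n + 1) ^ 2) (Or.inr (Or.inr ⟨h1, rfl⟩)) q (mem_ball_self (by positivity)) q'
        (mem_ball_iff_norm.2 h2)
      exact this.trans (ih this.target_mem)

/-- A bounded representing density for the centre. -/
def Bar (F : ℂ → ℝ) (c : ℂ) (R : ℝ) : Prop :=
  ∃ θ, Bd θ ∧ (∀ ζ, θ ζ ≠ 0 → ζ ∈ ball c R \ ball c (R / 4)) ∧
    ∀ φ, Bd φ → DifferentiableOn ℂ φ (ball c (2 * R)) → ∫ ζ, θ ζ * φ ζ * F ζ ∂mD = φ c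

variable (G : Type*) [NormedAddCommGroup G] [InnerProductSpace ℂ G] [CompleteSpace G]

/-- Small measures have a small transform somewhere on the set where `F` is small. -/
def Rou (F : ℂ → ℝ) (c : ℂ) (R η : ℝ) : Prop :=
  ∀ ε > 0, ∀ (σ : Measure ℂ) (b : ℂ → G), σ univ ≤ ENNReal.ofReal η → Bm b 1 →
    mD {ζ | ζ ∈ ball c R ∧ F ζ < ε ∧ ‖Cb σ b ζ‖ ≤ 1} ≠ 0

theorem dich {c : ℂ} {R : ℝ} (h0 : 0 < R) (h1 : R ≤ 1 / 2) (hD : ball c (2 * R) ⊆ ball 0 1) :
    ∃ η > 0, ∀ F : ℂ → ℝ, Measurable F → (∀ z, 0 ≤ F z) → (∀ z, F z ≤ 1) →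
      Bar F c R ∨ Rou G F c R η := by
  obtain ⟨C1, C3, c1, c3, pp⟩ := propP G
  obtain ⟨A, κ, l'⟩ := exists_lev (R := min R (R / C1)) (by positivity)
  have A0 := l'.pos 0
  have m0 : 0 ≤ min R (R / C1) := by positivity
  have l : Lev R A κ := { l' with zero := l'.zero.trans (by gcongr; exact min_le_left _ _) }
  have A1 : C1 * A 0 ≤ R / 1000 := by
    have := (le_div_iff₀' c1).1 (min_le_right R (R / C1))
    nlinarith [l'.zero, min_le_left R (R / C1), mul_le_mul_of_nonneg_left l'.zero c1.le]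
  refine ⟨C3⁻¹ * (R / 8), by positivity, fun F mF F0 F1 => ?_⟩
  have iF : Integrable F mD := .of_bound mF.aestronglyMeasurable 1
    (.of_forall fun z => by rw [Real.norm_of_nonneg (F0 z)]; exact F1 z)
  by_cases h : ∃ ε > 0, ∀ n, UU F c R ε A n ⊆ ball c (3 * R / 4)
  · obtain ⟨ε, hε, h⟩ := h
    have := l.pos 1
    exact Or.inl (exists_repr (F := fun z => F z) (by fun_prop) iF.ofReal
      (measurableSet_ball.diff measurableSet_ball) (C := 2 / (ε * A 1 ^ 8)) (by positivity)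
      fun φ h1' h2 => by
        simpa only [Complex.norm_real, Real.norm_of_nonneg (F0 _)] using
          l.barrier h0 h1 hD iF F0 hε h h1' h2)
  refine Or.inr fun ε hε σ b hσ hb hz => h ⟨ε / 4, by positivity, fun n z hz' => ?_⟩
  by_contra h2
  rw [mem_ball_iff_norm, not_lt] at h2
  obtain ⟨J, s, a1, a2, a, a3, a4⟩ := route_path l h0 h1 (w := 2 * (C1 * C3⁻¹)) (by positivity) n z hz'
  rw [mem_ball_iff_norm] at a3
  have h3 : 2 * (R / 4) ≤ ‖a - z‖ := by
    linarith [norm_sub_le_norm_sub_add_norm_sub z a c, norm_sub_rev z a]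
  have a5 := a4.resolve_left fun e => by rw [e, sub_self, norm_zero] at h3; linarith
  have An := l.pos n
  have A2 := l.small h0 h1 0
  obtain ⟨j, hj, -, b1, b2⟩ := pp _ J (R / 4) (A n ^ 2) b (sub_path a5.somePath h3) (by positivity)
    (fun j hj => (a2 j hj).1) (by
      rintro _ ⟨t, rfl⟩
      simpa only [mem_iUnion, exists_prop] using a5.somePath_mem t) hb a ⟨0, by simp⟩ (R / 4) C3⁻¹ σ (σ + s) (by positivity) le_rfl
    (by positivity) (Measure.le_add_right le_rfl) (by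
      refine (add_le_add hσ a1).trans ?_
      rw [← ENNReal.ofReal_add (by positivity) (mul_nonneg (by positivity) (by
        nlinarith [l.sq_le h0 h1 n, antitone_nat_of_succ_le (f := A)
          (fun n => by linarith [l.succ n, l.pos n]) n.zero_le]))]
      refine ENNReal.ofReal_le_ofReal ?_
      have := inv_pos.2 c3
      nlinarith [mul_pos c1 An])
    fun j hj h => by linarith [(a2 j hj).2.1]
  obtain ⟨j1, j2, j3⟩ := a2 j hj
  have j0 : 0 < j.2 := lt_of_lt_of_le (by positivity) j1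
  obtain ⟨j4, j5⟩ := j3.resolve_left fun h => by
    have := (ENNReal.ofReal_le_ofReal_iff (by positivity)).1 ((le_add_left h).trans b1)
    nlinarith [mul_pos (mul_pos c1 (inv_pos.2 c3)) j0]
  have s1 : ball j.1 j.2 ⊆ ball c R := ball_subset_ball' (by rw [dist_eq_norm]; linarith)
  have b3 : mD.restrict (ball j.1 (2 * j.2)) {ζ | ε ≤ F ζ} ≤ ENNReal.ofReal (j.2 ^ 2 / 4) := by
    rw [← ofReal_measureReal]
    refine ENNReal.ofReal_le_ofReal (le_of_mul_le_mul_left (((mul_meas_ge_le_integral_of_nonneg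
      (.of_forall F0) iF.integrableOn ε).trans j5).trans ?_) hε)
    have : j.2 ^ 4 ≤ j.2 ^ 2 := pow_le_pow_of_le_one j0.le (by linarith) (by norm_num)
    nlinarith
  rw [mul_inv_cancel₀ c3.ne'] at b2
  rw [Measure.restrict_apply' measurableSet_ball] at b3
  have b4 : mD (ball j.1 j.2) ≤ _ + _ + _ := (measure_mono fun ζ hζ => ?_).trans
    ((measure_union_le _ _).trans (add_le_add ((measure_union_le _ _).trans
      (add_le_add ((mD_le _).trans b2) b3)) hz.le))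
  · rw [mD, Measure.restrict_eq_self _ (s1.trans ((ball_subset_ball (by linarith)).trans hD)),
      mm_ball _ j0.le, add_zero, ← ENNReal.ofReal_add (by positivity) (by positivity),
      ENNReal.ofReal_le_ofReal_iff (by positivity)] at b4
    nlinarith
  · by_cases g : Gd σ b 1 ζ
    · exact (le_or_gt ε (F ζ)).imp (fun h => Or.inr ⟨h, ball_subset_ball (by linarith) hζ⟩)
        fun h => ⟨s1 hζ, h, g.2⟩
    · exact Or.inl (Or.inl ⟨hζ, g⟩)

end Pool.Agent.Lib.MP_45cb44_an.TC
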