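import Pool.Agent.Lib.MP_45cb44_an.TC.Vs

/-! The lower bound of a Hilbert-Schmidt perturbation of the identity. -/

namespace Pool.Agent.Lib.MP_45cb44_an.TC

open MeasureTheory Metric Set Filter Topology ContinuousLinearMap
open scoped ENNReal NNReal Real ComplexConjugate InnerProductSpace

/-- Lower bound of `1 + Vs a`, capped by one. -/
noncomputable def low (a : SQ (SQ ℂ)) : ℝ := min 1 (⨅ t : sphere (0 : SQ ℂ) 1, ‖t.1 + Vs a t‖)

lemma low_ne : Nonempty (sphere (0 : SQ ℂ) 1) :=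
  ⟨⟨lp.single 2 0 1, by simp⟩⟩

lemma low_bdd (a : SQ (SQ ℂ)) :
    BddBelow (range fun t : sphere (0 : SQ ℂ) 1 => ‖t.1 + Vs a t‖) :=
  ⟨0, forall_mem_range.2 fun _ => norm_nonneg _⟩

lemma low_nonneg (a : SQ (SQ ℂ)) : 0 ≤ low a :=
  le_min zero_le_one (Real.iInf_nonneg fun _ => norm_nonneg _)

lemma low_le_one (a : SQ (SQ ℂ)) : low a ≤ 1 := min_le_left _ _

lemma low_le (a : SQ (SQ ℂ)) {t : SQ ℂ} (h : ‖t‖ = 1) : low a ≤ ‖t + Vs a t‖ :=
  (min_le_right _ _).trans (ciInf_le (low_bdd a) ⟨t, mem_sphere_zero_iff_norm.2 h⟩)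

lemma continuous_low : Continuous low := by
  have := low_ne
  refine (LipschitzWith.of_le_add fun a b => ?_).continuous
  rw [← sub_le_iff_le_add]
  refine le_min ((sub_le_self _ dist_nonneg).trans (low_le_one a)) (le_ciInf fun t => ?_)
  have h := mem_sphere_zero_iff_norm.1 t.2
  have h1 := norm_Vs_apply (a - b) t
  rw [h, mul_one, Vs_sub, ← dist_eq_norm] at h1
  have h2 : t.1 + Vs a t = t.1 + Vs b t + (Vs a - Vs b) t := by simp
  have h3 := low_le a h
  rw [h2] at h3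
  linarith [norm_add_le (t.1 + Vs b t) ((Vs a - Vs b) t)]

lemma exists_of_low_lt {a : SQ (SQ ℂ)} {ε : ℝ} (h : low a < ε) (h1 : ε ≤ 1) :
    ∃ t : SQ ℂ, ‖t‖ = 1 ∧ ‖t + Vs a t‖ < ε := by
  have := low_ne
  obtain ⟨t, ht⟩ := exists_lt_of_ciInf_lt ((min_lt_iff.1 h).resolve_left h1.not_gt)
  exact ⟨t, mem_sphere_zero_iff_norm.1 t.2, ht⟩

lemma low_mul (a : SQ (SQ ℂ)) (t : SQ ℂ) : low a * ‖t‖ ≤ ‖t + Vs a t‖ := by
  rcases eq_or_ne t 0 with rfl | h
  · simp
  have h0 : 0 < ‖t‖ := norm_pos_iff.2 h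
  have h1 := low_le a (t := ((‖t‖⁻¹ : ℝ) : ℂ) • t) (by
    rw [norm_smul, Complex.norm_real, norm_inv, norm_norm, inv_mul_cancel₀ h0.ne'])
  rwa [map_smul, ← smul_add, norm_smul, Complex.norm_real, norm_inv, norm_norm,
    ← div_eq_inv_mul, le_div_iff₀ h0] at h1

lemma low_unit {a : SQ (SQ ℂ)} (h : 0 < low a) : IsUnit (1 + Vs a) := by
  rcases (compact_Vs a).hasEigenvalue_or_mem_resolventSet (μ := -1) (by norm_num) with k | k
  · obtain ⟨t, ht⟩ := k.exists_hasEigenvector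
    have h1 : Vs a t = (-1 : ℂ) • t := ht.apply_eq_smul
    have h2 := low_mul a t
    rw [h1, neg_one_smul, add_neg_cancel, norm_zero] at h2
    exact absurd h2 (mul_pos h (norm_pos_iff.2 ht.2)).not_ge
  · have h1 := (show IsUnit _ from k).neg
    rwa [map_neg, map_one, neg_sub, sub_neg_eq_add, add_comm] at h1

lemma low_inv {a : SQ (SQ ℂ)} (h : 0 < low a) (t : SQ ℂ) :
    Ring.inverse (1 + Vs a) t + Vs a (Ring.inverse (1 + Vs a) t) = t :=
  congrArg (fun S : SQ ℂ →L[ℂ] SQ ℂ => S t) (Ring.mul_inverse_cancel _ (low_unit h))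

lemma low_norm (a : SQ (SQ ℂ)) :
    ‖((low a ^ 2 : ℝ) : ℂ) • Ring.inverse (1 + Vs a)‖ ≤ low a := by
  rcases (low_nonneg a).eq_or_lt with h | h
  · simp [← h]
  refine opNorm_le_bound _ h.le fun t => ?_
  have h1 := low_mul a (Ring.inverse (1 + Vs a) t)
  rw [low_inv h] at h1
  rw [_root_.smul_apply, norm_smul, Complex.norm_real,
    Real.norm_of_nonneg (sq_nonneg _), sq, mul_assoc]
  exact mul_le_mul_of_nonneg_left h1 h.le

lemma exists_inv : ∃ I : SQ (SQ ℂ) → SQ ℂ →L[ℂ] SQ ℂ, Continuous I ∧ (∀ a, ‖I a‖ ≤ 1) ∧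
    ∀ a t, I a t + Vs a (I a t) = ((low a ^ 2 : ℝ) : ℂ) • t := by
  refine ⟨fun a => ((low a ^ 2 : ℝ) : ℂ) • Ring.inverse (1 + Vs a),
    continuous_iff_continuousAt.2 fun a => ?_, fun a => (low_norm a).trans (low_le_one a),
    fun a t => ?_⟩
  · rcases (low_nonneg a).eq_or_lt with h | h
    · have h1 : Tendsto low (𝓝 a) (𝓝 0) := h ▸ continuous_low.tendsto a
      have h2 := squeeze_zero_norm low_norm h1
      rwa [ContinuousAt, ← h, zero_pow two_ne_zero, Complex.ofReal_zero, zero_smul]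
    · obtain ⟨v, hv⟩ := low_unit h
      refine (Complex.continuous_ofReal.comp (continuous_low.pow 2)).continuousAt.smul ?_
      exact ContinuousAt.comp (g := Ring.inverse) (f := fun a : SQ (SQ ℂ) => 1 + Vs a)
        (by rw [← hv]; exact NormedRing.inverse_continuousAt v)
        (continuous_const.add continuous_Vs).continuousAt
  · rcases (low_nonneg a).eq_or_lt with h | h
    · simp [← h]
    · rw [_root_.smul_apply, map_smul, ← smul_add, low_inv h]

end Pool.Agent.Lib.MP_45cb44_an.TC
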