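import Pool.Agent.Lib.MP_45cb44_an.TC.Loc
import Pool.Agent.Lib.MP_45cb44_an.TC.Low
import Pool.Agent.Lib.MP_45cb44_an.TC.Dich

/-! Local vectors along a route. -/

namespace Pool.Agent.Lib.MP_45cb44_an.TC

open MeasureTheory Metric Set Filter Topology ContinuousLinearMap
open scoped ENNReal NNReal Real ComplexConjugate InnerProductSpace

section
variable {G : Type*} [NormedAddCommGroup G]

/-- The sequence with the first `n` terms of `f`. -/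
noncomputable def roulHd (n : ℕ) (f : ℕ → G) : SQ G := ∑ j ∈ Finset.range n, lp.single 2 j (f j)

lemma roul_hd (n : ℕ) (f : ℕ → G) (j : ℕ) : roulHd n f j = if j < n then f j else 0 := by
  simp only [roulHd, lp.coeFn_sum, lp.coeFn_single, Finset.sum_apply, Finset.sum_pi_single,
    Finset.mem_range]

lemma roul_hd_le (n : ℕ) (f : ℕ → G) {δ : ℝ} (h : ∀ j < n, ‖f j‖ ≤ δ) : ‖roulHd n f‖ ≤ n * δ := by
  refine (norm_sum_le _ _).trans ((Finset.sum_le_card_nsmul _ _ δ fun j hj => ?_).trans_eq ?_)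
  · rw [lp.norm_single two_pos]
    exact h j (Finset.mem_range.1 hj)
  · rw [Finset.card_range, nsmul_eq_mul]

lemma roul_tail {n : ℕ} {t g : SQ G} {δ : ℝ} (h : ∀ j < n, ‖t j‖ ≤ δ)
    (e : ∀ j, n ≤ j → t j = g j) : ‖t‖ ≤ n * δ + ‖g‖ := by
  have : ‖t - roulHd n t‖ ≤ ‖g‖ := lp.norm_mono two_ne_zero fun j => by
    rw [lp.coeFn_sub, Pi.sub_apply, roul_hd]
    split_ifs with k
    · simp
    · rw [sub_zero, e j (not_lt.1 k)]
  linarith [roul_hd_le n t h, norm_sub_norm_le t (roulHd n t)]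

lemma roul_small (v : SQ G) {β : ℝ} (hβ : 0 < β) : ∃ n, 0 < n ∧ ‖v - roulHd n v‖ ≤ β := by
  have t := (lp.hasSum_single (by simp) v).tendsto_sum_nat
  obtain ⟨n, h1, h2⟩ := ((eventually_gt_atTop 0).and (t.eventually (closedBall_mem_nhds v hβ))).exists
  exact ⟨n, h1, mem_closedBall_iff_norm'.1 h2⟩

end

variable {H : Type*} [NormedAddCommGroup H] [InnerProductSpace ℂ H] [CompleteSpace H]
  {N : H →L[ℂ] H} {u v : SQ H} {a : ℂ → SQ (SQ ℂ)} {c : ℂ} {R η : ℝ}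

lemma roul_sep {S : Set H} (hS : Convex ℝ S) {C : ℝ} (hC : 0 ≤ C) (h : ∀ x ∈ S, C + 1 < ‖x‖) :
    ∃ y : H, ‖y‖ ≤ 1 ∧ ∀ x ∈ S, C ≤ ‖⟪y, x⟫_ℂ‖ := by
  obtain ⟨f, s, h1, h2⟩ := RCLike.geometric_hahn_banach_open (𝕜 := ℂ) (convex_ball (0 : H) (C + 1))
    isOpen_ball hS (disjoint_right.2 fun x hx k => (h x hx).not_gt (mem_ball_zero_iff.1 k))
  obtain ⟨y, rfl⟩ := (InnerProductSpace.toDual ℂ H).surjective f
  simp only [InnerProductSpace.toDual_apply_apply] at h1 h2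
  have n1 : ‖((‖y‖⁻¹ : ℝ) : ℂ) • y‖ ≤ 1 := by
    simp only [norm_smul, Complex.norm_real, norm_inv, norm_norm]
    exact inv_mul_le_one
  refine ⟨_, n1, fun x hx => ?_⟩
  have k1 := (h2 x hx).trans (RCLike.re_le_norm _)
  have y0 : 0 < ‖y‖ := norm_pos_iff.2 fun e => by
    have := h1 0 (mem_ball_self (by linarith))
    simp [e] at this k1
    linarith
  have k2 := h1 (((C * ‖y‖⁻¹ : ℝ) : ℂ) • y) (mem_ball_zero_iff.2 (by
    rw [norm_smul, Complex.norm_real, Real.norm_of_nonneg (by positivity), inv_mul_cancel_right₀ y0.ne']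
    linarith))
  rw [inner_smul_right, RCLike.re_to_complex, Complex.re_ofReal_mul, ← RCLike.re_to_complex,
    inner_self_eq_norm_mul_norm, ← mul_assoc, inv_mul_cancel_right₀ y0.ne'] at k2
  rw [inner_smul_left, norm_mul, RCLike.norm_conj, Complex.norm_real, norm_inv, norm_norm,
    le_inv_mul_iff₀' y0]
  linarith

/-- Averages with a small defect and a large coordinate. -/
def RoulS (N : H →L[ℂ] H) (u : SQ H) (a : ℂ → SQ (SQ ℂ)) (c : ℂ) (R : ℝ) (i : ℕ) (δ ε : ℝ) :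
    Set H := {x | ∃ θ, Th c R θ ∧ ∫ ζ, ‖θ ζ‖ ∂mD ≤ 1 ∧ ∫ ζ, ‖θ ζ + Vs (a ζ) (θ ζ)‖ ∂mD ≤ ε ∧
      δ ≤ ((∫ ζ, θ ζ ∂mD) i).re ∧ x = XX N u θ}

lemma roul_comb {f g : ℂ → SQ ℂ} (hf : Integrable f mD) (hg : Integrable g mD) {s t K : ℝ}
    (hs : 0 ≤ s) (ht : 0 ≤ t) (e : s + t = 1) (h1 : ∫ ζ, ‖f ζ‖ ∂mD ≤ K) (h2 : ∫ ζ, ‖g ζ‖ ∂mD ≤ K) :
    ∫ ζ, ‖(s : ℂ) • f ζ + (t : ℂ) • g ζ‖ ∂mD ≤ K := by
  refine (integral_mono_of_nonneg (.of_forall fun _ => norm_nonneg _)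
    ((hf.norm.const_mul s).add (hg.norm.const_mul t)) (.of_forall fun ζ => ?_)).trans ?_
  · refine (norm_add_le _ _).trans_eq ?_
    simp only [norm_smul, Complex.norm_real, Real.norm_of_nonneg hs, Real.norm_of_nonneg ht,
      Pi.add_apply]
  · simp only [Pi.add_apply]
    rw [integral_add (hf.norm.const_mul s) (hg.norm.const_mul t), integral_const_mul,
      integral_const_mul]
    calc _ ≤ s * K + t * K := by gcongr
      _ = K := by rw [← add_mul, e, one_mul]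

lemma roul_conv (hN : IsStarNormal N) (r : Rp N u v a) (i : ℕ) (δ ε : ℝ) :
    Convex ℝ (RoulS N u a c R i δ ε) := by
  rintro _ ⟨θ, a1, a2, a3, a4, rfl⟩ _ ⟨θ', b1, b2, b3, b4, rfl⟩ s t hs ht e
  have t1 := a1.smul (φ := fun _ => (s : ℂ)) measurable_const fun _ _ => le_rfl
  have t2 := b1.smul (φ := fun _ => (t : ℂ)) measurable_const fun _ _ => le_rfl
  refine ⟨fun ζ => (s : ℂ) • θ ζ + (t : ℂ) • θ' ζ, t1.add t2,
    roul_comb a1.int b1.int hs ht e a2 b2, ?_, ?_, ?_⟩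
  · refine le_of_eq_of_le ?_ (roul_comb (r.int' a1) (r.int' b1) hs ht e a3 b3)
    simp only [map_add, map_smul, smul_add, add_add_add_comm]
  · rw [integral_add t1.int t2.int, integral_smul, integral_smul, lp.coeFn_add, lp.coeFn_smul,
      lp.coeFn_smul]
    simp only [Pi.add_apply, Pi.smul_apply, smul_eq_mul, Complex.add_re, Complex.re_ofReal_mul]
    calc δ = s * δ + t * δ := by rw [← add_mul, e, one_mul]
      _ ≤ _ := by gcongr
  · rw [XX_add hN t1 t2, XX_smul hN a1, XX_smul hN b1]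
    rfl

lemma roul_loc (r : Rp N u v a) {i : ℕ} {δ C : ℝ} (hδ : 0 < δ) (hC : 1 ≤ C)
    (h : ∀ ε > 0, ∃ x ∈ RoulS N u a c R i δ ε, ‖x‖ ≤ C) : ∃ x, x ≠ 0 ∧ Loc N u a c R C x := by
  have : ∀ k : ℕ, ∃ θ, Th c R θ ∧ ∫ ζ, ‖θ ζ‖ ∂mD ≤ 1 ∧
      ∫ ζ, ‖θ ζ + Vs (a ζ) (θ ζ)‖ ∂mD ≤ 1 / ((k : ℝ) + 1) ∧ δ ≤ ((∫ ζ, θ ζ ∂mD) i).re ∧
      ‖XX N u θ‖ ≤ C := fun k => by
    obtain ⟨_, ⟨θ, a1, a2, a3, a4, rfl⟩, a5⟩ := h _ (Nat.one_div_pos_of_nat (n := k))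
    exact ⟨θ, a1, a2, a3, a4, a5⟩
  choose θ a1 a2 a3 a4 a5 using this
  obtain ⟨x, hx⟩ := exists_weak_limit' (𝕜 := ℂ) (hyperfilter ℕ) (fun k => XX N u (θ k)) C a5
  have t0 : Tendsto (fun k : ℕ => 1 / ((k : ℝ) + 1)) (hyperfilter ℕ) (𝓝 0) :=
    tendsto_one_div_add_atTop_nhds_zero_nat.mono_left Nat.hyperfilter_le_atTop
  refine ⟨x, fun e => ?_, θ, a1, fun k => (a2 k).trans hC, a5, hx, fun φ hφ _ => ?_⟩
  · have t1 := (hx (v i)).norm.add t0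
    rw [e, inner_zero_right, norm_zero, add_zero] at t1
    refine (ge_of_tendsto' t1 fun k => ?_).not_gt hδ
    have e1 := congrArg (fun z : SQ ℂ => z i) (r.vs (a1 k))
    simp only [Vs_apply, lp.coeFn_sub, Pi.sub_apply] at e1
    have e2 := ((lp.norm_apply_le_norm two_ne_zero _ i).trans
      (norm_integral_le_integral_norm _)).trans (a3 k)
    refine ((a4 k).trans (Complex.re_le_norm _)).trans ?_
    rw [eq_sub_iff_add_eq.1 e1 |>.symm]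
    exact norm_add_le_of_le le_rfl e2
  · obtain ⟨-, K, K0, hK⟩ := hφ
    refine squeeze_zero_norm (fun k => ?_) (by simpa using t0.const_mul K)
    refine (norm_integral_le_of_norm_le ((r.int' (a1 k)).norm.const_mul K) ?_).trans ?_
    · filter_upwards [ae_ball_of_le le_rfl] with ζ hζ
      rw [norm_smul]
      exact mul_le_mul_of_nonneg_right (hK ζ hζ) (norm_nonneg _)
    · rw [integral_const_mul]
      simpa using mul_le_mul_of_nonneg_left (a3 k) K0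

/-- The normalised indicator of a set of positive measure. -/
lemma roul_th {E : Set ℂ} (hE : MeasurableSet E) (h1 : E ⊆ ball c R) (h0 : mD E ≠ 0) (t : SQ ℂ) :
    ∃ θ, Th c R θ ∧ ∫ ζ, θ ζ ∂mD = t ∧ ∀ (L : ℂ → SQ ℂ →L[ℂ] SQ ℂ) (K : ℝ),
      (∀ ζ ∈ E, ‖L ζ t‖ ≤ K) → ∫ ζ, ‖L ζ (θ ζ)‖ ∂mD ≤ K := by
  have m0 : 0 < mD.real E := ENNReal.toReal_pos h0 (measure_ne_top _ _)
  refine ⟨indicator E fun _ => (((mD.real E)⁻¹ : ℝ) : ℂ) • t,
    ⟨⟨_, stronglyMeasurable_const.indicator hE, fun ζ => norm_indicator_le_norm_self _ _⟩,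
      fun ζ h => h1 (mem_of_indicator_ne_zero h)⟩, ?_, fun L K hL => ?_⟩
  · rw [integral_indicator_const _ hE, ← smul_assoc, Complex.real_smul, ← Complex.ofReal_mul,
      mul_inv_cancel₀ m0.ne', Complex.ofReal_one, one_smul]
  · obtain ⟨z, hz⟩ := nonempty_of_measure_ne_zero h0
    have K0 := (norm_nonneg _).trans (hL z hz)
    refine (integral_mono_of_nonneg (g := indicator E fun _ => (mD.real E)⁻¹ * K)
      (.of_forall fun _ => norm_nonneg _) ((integrable_const _).indicator hE)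
      (.of_forall fun ζ => ?_)).trans_eq ?_
    · by_cases k : ζ ∈ E
      · simp only [indicator_of_mem k, map_smul, norm_smul, Complex.norm_real,
          Real.norm_of_nonneg (inv_pos.2 m0).le]
        exact mul_le_mul_of_nonneg_left (hL ζ k) (inv_pos.2 m0).le
      · simp [k]
    · rw [integral_indicator_const _ hE, smul_eq_mul, mul_inv_cancel_left₀ m0.ne']

/-- One almost annihilated direction serves on a set of positive measure. -/
lemma roul_piece (ha : StronglyMeasurable a) {A : Set ℂ} {ε : ℝ} (h0 : 0 < ε) (h1 : ε ≤ 1)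
    (h : mD {ζ | ζ ∈ A ∧ low (a ζ) < ε} ≠ 0) :
    ∃ t : SQ ℂ, ‖t‖ = 1 ∧ mD {ζ | ζ ∈ A ∧ ‖t + Vs (a ζ) t‖ ≤ 2 * ε} ≠ 0 := by
  obtain ⟨D, hD, hc⟩ := ha.isSeparable_range
  choose! t t1 t2 using fun d (k : low d < ε) => exists_of_low_lt k h1
  by_contra hn
  push Not at hn
  refine h (measure_mono_null (fun ζ hζ => ?_) ((measure_biUnion_null_iff
    (hD.mono (inter_subset_left (t := {d | low d < ε})))).2 fun d hd => hn (t d) (t1 d hd.2)))
  obtain ⟨d, ⟨d1, d2⟩, d3⟩ := mem_closure_iff.1 (hc ⟨ζ, rfl⟩) ({d | low d < ε} ∩ ball (a ζ) ε)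
    ((isOpen_lt continuous_low continuous_const).inter isOpen_ball) ⟨hζ.2, mem_ball_self h0⟩
  refine mem_biUnion (x := d) ⟨d3, d1⟩ ⟨hζ.1, ?_⟩
  have e1 := norm_Vs_apply (a ζ - d) (t d)
  rw [Vs_sub, sub_apply, t1 d d1, mul_one] at e1
  have e2 := norm_add_le (t d + Vs d (t d)) (Vs (a ζ) (t d) - Vs d (t d))
  rw [add_assoc, add_sub_cancel] at e2
  linarith [t2 d d1, mem_ball_iff_norm'.1 d2]

theorem loc_of_rou (hN : IsStarNormal N) (r : Rp N u v a) (hη : 0 < η)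
    (h : Rou (SQ (SQ ℂ)) (fun ζ => low (a ζ) ^ 2) c R η) : ∃ C x, x ≠ 0 ∧ Loc N u a c R C x := by
  by_contra hno
  obtain ⟨s, s0, hs⟩ : ∃ s > 0, s * ‖u‖ ^ 2 ≤ η / 2 :=
    ⟨η / 2 / (‖u‖ ^ 2 + 1), by positivity, by
      rw [div_mul_eq_mul_div, div_le_iff₀ (by positivity)]
      nlinarith⟩
  obtain ⟨β, β0, hβ⟩ : ∃ β > 0, β ^ 2 = η / 2 * s :=
    ⟨√(η / 2 * s), by positivity, Real.sq_sqrt (by positivity)⟩
  obtain ⟨n, n0, hn⟩ := roul_small v (β := β / 8) (by positivity)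
  have n1 : (0 : ℝ) < n := Nat.cast_pos.2 n0
  obtain ⟨α, α0, hα⟩ : ∃ α > 0, n * α = β / 2 := ⟨β / 2 / n, by positivity, by field_simp⟩
  have key : ∀ i, ∃ ε > 0, ∃ y : H, ‖y‖ ≤ 1 ∧
      ∀ x ∈ RoulS N u a c R i (1 / (2 * n)) ε, 2 / α ≤ ‖⟪y, x⟫_ℂ‖ := fun i => by
    by_contra k
    refine hno ⟨2 / α + 1, roul_loc r (i := i) (δ := 1 / (2 * n)) (by positivity)
      (le_add_of_nonneg_left (by positivity)) fun ε ε0 => by_contra fun k' => k ⟨ε, ε0, ?_⟩⟩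
    exact roul_sep (roul_conv hN r i _ ε) (by positivity) fun x hx =>
      not_le.1 fun e => k' ⟨x, hx, e⟩
  choose e e0 y y1 hy using key
  obtain ⟨i0, -, hi⟩ := (Finset.range n).exists_min_image e ⟨0, Finset.mem_range.2 n0⟩
  obtain ⟨ε, ε0, ε1, ε2⟩ : ∃ ε > 0, ε ≤ 1 / 10 ∧ 2 * ε ≤ e i0 :=
    ⟨min (1 / 10) (e i0 / 2), lt_min (by norm_num) (half_pos (e0 _)), min_le_left _ _, by
      linarith [min_le_right (1 / 10) (e i0 / 2)]⟩
  obtain ⟨w, w1, w2, w3⟩ : ∃ w : SQ H, ‖w‖ ≤ β ∧ (∀ j < n, w j = (α : ℂ) • y j) ∧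
      ∀ j, n ≤ j → w j = (4 : ℂ) • v j := by
    refine ⟨roulHd n (fun j => (α : ℂ) • y j) + (4 : ℂ) • (v - roulHd n v), ?_, fun j hj => ?_,
      fun j hj => ?_⟩
    · have := roul_hd_le n (fun j => (α : ℂ) • y j) (δ := α) fun j _ => by
        rw [norm_smul, Complex.norm_real, Real.norm_of_nonneg α0.le]
        exact mul_le_of_le_one_right α0.le (y1 j)
      refine (norm_add_le _ _).trans ?_
      rw [norm_smul, Complex.norm_ofNat]
      linarith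
    · simp [lp.coeFn_smul, roul_hd, hj]
    · simp [lp.coeFn_smul, roul_hd, hj.not_gt]
  obtain ⟨σ, b, hσ, hb, r'⟩ := exists_rp hN u w s0
  have h1 := h (ε ^ 2) (by positivity) σ b (hσ.trans (ENNReal.ofReal_le_ofReal (by
    have : ‖w‖ ^ 2 / s ≤ η / 2 := by
      rw [div_le_iff₀ s0, ← hβ]
      gcongr
    linarith))) hb
  obtain ⟨t, t1, t2⟩ := roul_piece r.m (A := {ζ | ζ ∈ ball c R ∧ ‖Cb σ b ζ‖ ≤ 1}) ε0 (by linarith)
    fun k => h1 (measure_mono_null (by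
      exact fun ζ hζ => ⟨⟨hζ.1, hζ.2.2⟩, lt_of_pow_lt_pow_left₀ 2 ε0.le hζ.2.1⟩) k)
  have mE : MeasurableSet {ζ | ζ ∈ {ζ | ζ ∈ ball c R ∧ ‖Cb σ b ζ‖ ≤ 1} ∧
      ‖t + Vs (a ζ) t‖ ≤ 2 * ε} :=
    (measurableSet_ball.inter (measurableSet_le r'.m.norm.measurable measurable_const)).inter
      (measurableSet_le ((continuous_const.add (continuous_Vs.clm_apply
        continuous_const)).comp_stronglyMeasurable r.m).norm.measurable measurable_const)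
  have main : ∀ ω : ℂ, ‖ω‖ = 1 → ∃ θ, Th c R θ ∧ ∫ ζ, θ ζ ∂mD = ω • t ∧ ∫ ζ, ‖θ ζ‖ ∂mD ≤ 1 ∧
      ∫ ζ, ‖θ ζ + Vs (a ζ) (θ ζ)‖ ∂mD ≤ 2 * ε ∧ ‖Vs w (XX N u θ)‖ ≤ 1 := fun ω hω => by
    obtain ⟨θ, a1, a2, a3⟩ := roul_th mE (fun ζ hζ => hζ.1.1) t2 (ω • t)
    obtain ⟨B, hB⟩ := a1.bm
    refine ⟨θ, a1, a2, a3 (fun _ => 1) 1 fun ζ _ => by simp [norm_smul, hω, t1],
      a3 (fun ζ => 1 + Vs (a ζ)) _ fun ζ hζ => ?_, ?_⟩
    · rw [map_smul, norm_smul, hω, one_mul]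
      exact hζ.2
    · rw [r'.eq θ B hB, norm_neg]
      refine (norm_integral_le_integral_norm _).trans (a3 (fun ζ => Vs (Cb σ b ζ)) 1 fun ζ hζ =>
        (norm_Vs_apply _ _).trans ?_)
      rw [norm_smul, hω, t1, one_mul, mul_one]
      exact hζ.1.2
  obtain ⟨i, i1, i2⟩ : ∃ i < n, 1 / (2 * (n : ℝ)) ≤ ‖t i‖ := by
    by_contra k
    obtain ⟨θ, a1, a2, -, a4, a5⟩ := main 1 norm_one
    have := roul_tail (t := t) (δ := 1 / (2 * n)) (g := (4⁻¹ : ℂ) • Vs w (XX N u θ) +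
      ∫ ζ, θ ζ + Vs (a ζ) (θ ζ) ∂mD) (fun j hj => (not_le.1 fun e => k ⟨j, hj, e⟩).le)
      fun j hj => by
        have e1 := congrArg (fun z : SQ ℂ => z j) (r.vs a1)
        simp only [a2, one_smul, Vs_apply, lp.coeFn_sub, Pi.sub_apply] at e1
        simp only [lp.coeFn_add, lp.coeFn_smul, Pi.add_apply, Pi.smul_apply, Vs_apply, w3 j hj,
          inner_smul_left, map_ofNat, smul_eq_mul, e1]
        ring
    have e2 := norm_add_le ((4⁻¹ : ℂ) • Vs w (XX N u θ)) (∫ ζ, θ ζ + Vs (a ζ) (θ ζ) ∂mD)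
    rw [norm_smul, norm_inv, Complex.norm_ofNat] at e2
    rw [t1, show n * (1 / (2 * (n : ℝ))) = 1 / 2 by field_simp] at this
    linarith [(norm_integral_le_integral_norm _).trans a4]
  obtain ⟨ω, ω1, ω2⟩ := Complex.exists_norm_eq_mul_self (t i)
  obtain ⟨θ, a1, a2, a3, a4, a5⟩ := main ω ω1
  have b1 := hy i _ ⟨θ, a1, a3, a4.trans (ε2.trans (hi i (Finset.mem_range.2 i1))), by
    rwa [a2, lp.coeFn_smul, Pi.smul_apply, smul_eq_mul, ← ω2, Complex.ofReal_re], rfl⟩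
  have b2 := (lp.norm_apply_le_norm two_ne_zero _ i).trans a5
  rw [Vs_apply, w2 i i1, inner_smul_left, norm_mul, RCLike.norm_conj, Complex.norm_real,
    Real.norm_of_nonneg α0.le] at b2
  rw [div_le_iff₀' α0] at b1
  linarith

end Pool.Agent.Lib.MP_45cb44_an.TC
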