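import Pool.Agent.Lib.MP_45cb44_an.TC.BarL
import Pool.Agent.Lib.MP_45cb44_an.TC.RouL
import Pool.Agent.Lib.MP_45cb44_an.TC.Hyp

/-! Trace class perturbations of normal operators. -/

namespace Pool.Agent.Lib.MP_45cb44_an.TC

open MeasureTheory Metric Set Filter Topology ContinuousLinearMap
open scoped ENNReal NNReal Real ComplexConjugate InnerProductSpace

variable {H : Type*} [NormedAddCommGroup H] [InnerProductSpace ℂ H] [CompleteSpace H]
  {N : H →L[ℂ] H} {u v : SQ H} {c : ℂ} {R : ℝ}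

lemma exists_locVec (hN : IsStarNormal N) (hT : ∀ (l : ℂ) (x : H), TT N u v x = l • x → x = 0)
    (h0 : 0 < R) (h1 : R ≤ 1 / 2) (hD : ball c (2 * R) ⊆ ball 0 1) (hc : Ess N c) :
    ∃ x, x ≠ 0 ∧ LocVec (TT N u v) x c (2 * R) := by
  obtain ⟨σ, b, -, -, r⟩ := exists_rp hN u v one_pos
  obtain ⟨η, hη, h⟩ := dich (SQ (SQ ℂ)) h0 h1 hD
  rcases h (fun ζ => low (Cb σ b ζ) ^ 2)
    ((continuous_low.comp_stronglyMeasurable r.m).measurable.pow_const 2) (fun _ => sq_nonneg _)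
    (fun _ => pow_le_one₀ (low_nonneg _) (low_le_one _)) with h | h
  · exact locVec_of_bar hN hT r h0 hD hc h
  · obtain ⟨C, x, x0, hx⟩ := loc_of_rou hN r hη h
    exact ⟨x, x0, hx.locVec hN r h0 hT⟩

lemma star_TT (N : H →L[ℂ] H) (u v : SQ H) : star (TT N u v) = TT (star N) v u := by
  rw [star_add, star_eq_adjoint (_ ∘L _), adjoint_comp, adjoint_adjoint]

lemma not_HT_small (hN : IsStarNormal N) (hn : ‖N‖ ≤ 1 / 2) (u v : SQ H)
    (hs : ∀ a : ℂ, TT N u v ≠ a • 1) : ¬HT (TT N u v) := fun ht => by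
  by_cases h : ∃ c c', Ess N c ∧ Ess N c' ∧ c ≠ c'
  · obtain ⟨c, c', hc, hc', h⟩ := h
    have p : 0 < ‖c - c'‖ := norm_pos_iff.2 (sub_ne_zero.2 h)
    have n := hc.norm_le.trans hn
    have n' := hc'.norm_le.trans hn
    have q := norm_sub_le c c'
    have hD : ∀ z : ℂ, ‖z‖ ≤ 1 / 2 → ball z (2 * (‖c - c'‖ / 5)) ⊆ ball 0 1 := fun z hz =>
      ball_subset_ball' (by rw [dist_zero_right]; linarith)
    obtain ⟨x, x0, hx⟩ := exists_locVec hN (ht.inj hs) (by positivity) (by linarith) (hD c n) hc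
    have hs' : ∀ a : ℂ, star (TT N u v) ≠ a • 1 := fun a e => hs (star a) (by
      simpa using congrArg star e)
    have ht' := ht.star.inj hs'
    rw [star_TT] at ht'
    obtain ⟨y, y0, hy⟩ := exists_locVec (hN.star) ht' (by positivity) (by linarith)
      (hD (conj c') (by simpa using n')) (hc'.star hN)
    rw [← star_TT] at hy
    exact (ht.loc hx hy (by linarith)).elim x0 y0
  · push Not at h
    obtain ⟨c, hc⟩ : ∃ c, ∀ z, Ess N z → z = c := by
      by_cases h1 : ∃ c, Ess N c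
      · exact h1.imp fun c hc z hz => h z c hz hc
      · exact ⟨0, fun z hz => (h1 ⟨z, hz⟩).elim⟩
    refine ht.hilden hs (c := c) ?_
    rw [add_sub_right_comm]
    exact (compact_of_ess hN hc).add ((compact_Vs v).clm_comp (adjoint (Vs u)))

theorem not_HT (hN : IsStarNormal N) (u v : SQ H) (hs : ∀ a : ℂ, TT N u v ≠ a • 1) :
    ¬HT (TT N u v) := fun ht => by
  set t : ℝ := (2 * ‖N‖ + 1)⁻¹ with e
  have t0 : 0 < t := by positivity
  have t1 : (t : ℂ) ≠ 0 := by exact_mod_cast t0.ne'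
  have hN' : IsStarNormal ((t : ℂ) • N) := ⟨by
    rw [star_smul]
    exact (hN.1.smul_left _).smul_right _⟩
  have eT : TT ((t : ℂ) • N) u ((t : ℂ) • v) = (t : ℂ) • TT N u v := by
    rw [TT, Vs_smul, Complex.conj_ofReal, comp_smul, smul_add]
  refine not_HT_small hN' ?_ u ((t : ℂ) • v) (fun a h => hs ((t : ℂ)⁻¹ * a) ?_) fun M h1 h2 =>
    ht M h1 fun S hS => h2 S (eT ▸ hS.smul_right _)
  · rw [norm_smul, Complex.norm_real, Real.norm_of_nonneg t0.le, e, inv_mul_le_iff₀ (by positivity)]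
    linarith
  · rw [mul_smul, ← h, eT, inv_smul_smul₀ t1]

theorem exists_hyperinvariant (hN : star N * N = N * star N) {K : H →L[ℂ] H} (u v : ℕ → H)
    (hs : Summable fun n => ‖u n‖ * ‖v n‖) (hK : ∀ x, HasSum (fun n => ⟪v n, x⟫_ℂ • u n) (K x))
    (h : ∀ a : ℂ, N + K ≠ a • 1) :
    ∃ M : Submodule ℂ H, IsClosed (M : Set H) ∧ M ≠ ⊥ ∧ M ≠ ⊤ ∧
      ∀ S : H →L[ℂ] H, Commute S (N + K) → ∀ x ∈ M, S x ∈ M := by
  have key : ∀ x y : ℕ → H, (Summable fun n => ‖x n‖ * ‖y n‖) →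
      Memℓp (fun n => ((√‖y n‖ / √‖x n‖ : ℝ) : ℂ) • x n) 2 := fun x y h => by
    refine memℓp_gen (h.congr fun n => ?_)
    rw [norm_smul, Complex.norm_real, Real.norm_of_nonneg (by positivity)]
    by_cases h0 : ‖x n‖ = 0
    · simp [h0]
    · rw [ENNReal.toReal_ofNat, Real.rpow_two, mul_pow, div_pow, Real.sq_sqrt (norm_nonneg _),
        Real.sq_sqrt (norm_nonneg _)]
      field_simp
  let u' : SQ H := ⟨_, key u v hs⟩
  let v' : SQ H := ⟨_, key v u (by simpa only [mul_comm] using hs)⟩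
  have e : N + K = TT N u' v' := by
    congr 1
    ext x
    rw [comp_apply]
    refine (hK x).unique ?_
    convert hasSum_adj u' (Vs v' x) using 2 with n
    simp only [Vs_apply, u', v', inner_smul_left, smul_smul, Complex.conj_ofReal]
    by_cases h1 : u n = 0
    · simp [h1]
    by_cases h2 : v n = 0
    · simp [h2]
    have a1 : (√‖u n‖ : ℂ) ≠ 0 := by simpa using h1
    have a2 : (√‖v n‖ : ℂ) ≠ 0 := by simpa using h2
    congr 1
    push_cast
    field_simp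
  rw [e] at h ⊢
  have := not_HT ⟨hN⟩ u' v' h
  unfold HT at this
  push Not at this
  obtain ⟨M, h1, h2, h3, h4⟩ := this
  exact ⟨M, h1, h3, h4, h2⟩

end Pool.Agent.Lib.MP_45cb44_an.TC
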