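import Pool.Agent.Lib.MP_45cb44_an.Hilden

/-! Essential points of the spectrum. -/

namespace Pool.Agent.Lib.MP_45cb44_an.TC

open MeasureTheory Metric Set Filter Topology ContinuousLinearMap
open scoped ENNReal NNReal Real ComplexConjugate InnerProductSpace

variable {H : Type*} [NormedAddCommGroup H] [InnerProductSpace ℂ H] [CompleteSpace H]
  {N : H →L[ℂ] H} {c : ℂ}

/-- Essential points. -/
def Ess (N : H →L[ℂ] H) (c : ℂ) : Prop :=
  ∀ ρ > 0, ∃ f : ℂ → ℂ, Continuous f ∧ (∀ z, f z ≠ 0 → z ∈ ball c ρ) ∧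
    ¬IsCompactOperator (cfc f N : H →L[ℂ] H)

lemma Ess.norm_le (h : Ess N c) : ‖c‖ ≤ ‖N‖ := by
  by_contra! h1
  obtain ⟨f, -, h2, h3⟩ := h _ (sub_pos.2 h1)
  refine h3 ?_
  rw [cfc_congr (g := 0) fun z hz => by_contra fun h4 => ?_, cfc_zero]
  · exact isCompactOperator_zero
  have := (spectrum.norm_le_norm_mul_of_mem hz).trans
    (mul_le_of_le_one_right (norm_nonneg _) norm_id_le)
  linarith [mem_ball_iff_norm'.1 (h2 z h4), norm_sub_norm_le c z]

lemma Ess.star (h : Ess N c) (hN : IsStarNormal N) : Ess (star N) (conj c) := fun ρ hρ => by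
  obtain ⟨f, h1, h2, h3⟩ := h ρ hρ
  refine ⟨fun z => f (Star.star z), by fun_prop, fun z hz => ?_, ?_⟩
  · rw [mem_ball, ← Complex.dist_conj_conj, Complex.conj_conj]
    exact h2 _ hz
  · rwa [cfc_comp_star .., star_star]

lemma compact_of_ess (hN : IsStarNormal N) (h : ∀ z, Ess N z → z = c) :
    IsCompactOperator (N - c • 1 : H →L[ℂ] H) := by
  refine isClosed_setOfPred_isCompactOperator.closure_subset
    (Metric.mem_closure_iff.2 fun ε hε => ?_)
  have cm : ∀ {f g : ℂ → ℂ}, Continuous f → Continuous g → IsCompactOperator (cfc g N : H →L[ℂ] H) →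
      IsCompactOperator (cfc (fun z => f z * g z) N : H →L[ℂ] H) := fun hf hg h => by
    rw [cfc_mul ..]
    exact h.clm_comp _
  obtain ⟨g, g1, g2, g3, g4⟩ : ∃ g : ℂ → ℂ, Continuous g ∧ (∀ z, ‖1 - g z‖ ≤ 1) ∧
      (∀ z ∈ spectrum ℂ N \ ball c (ε / 2), g z = 1) ∧ IsCompactOperator (cfc g N : H →L[ℂ] H) := by
    refine ((spectrum.isCompact N).diff isOpen_ball).induction_on (p := fun S => ∃ g : ℂ → ℂ,
      Continuous g ∧ (∀ z, ‖1 - g z‖ ≤ 1) ∧ (∀ z ∈ S, g z = 1) ∧
        IsCompactOperator (cfc g N : H →L[ℂ] H))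
      ⟨0, continuous_zero, by simp, by simp, by rw [cfc_zero]; exact isCompactOperator_zero⟩
      (fun s t hst ⟨g, a, b, c, d⟩ => ⟨g, a, b, fun z hz => c z (hst hz), d⟩) ?_ fun x hx => ?_
    · rintro s t ⟨f, a1, a2, a3, a4⟩ ⟨g, b1, b2, b3, b4⟩
      refine ⟨fun z => f z + (1 - f z) * g z, by fun_prop, fun z => ?_, ?_, ?_⟩
      · rw [show 1 - (f z + (1 - f z) * g z) = (1 - f z) * (1 - g z) by ring, norm_mul]
        exact mul_le_one₀ (a2 z) (norm_nonneg _) (b2 z)
      · rintro z (hz | hz)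
        · simp [a3 z hz]
        · simp [b3 z hz]
      · rw [cfc_add ..]
        exact a4.add (cm (by fun_prop) b1 b4)
    · have : ¬Ess N x := fun e => hx.2 (h x e ▸ mem_ball_self (by positivity))
      simp only [Ess, not_forall, not_exists, not_and, not_not] at this
      obtain ⟨ρ, r0, h1⟩ := this
      obtain ⟨f, a1, a2, a3⟩ := exists_continuous_zero_one_of_isClosed (s := (ball x ρ)ᶜ)
        isOpen_ball.isClosed_compl (isClosed_closedBall (x := x) (ε := ρ / 2))
        (disjoint_compl_left_iff_subset.2 (closedBall_subset_ball (by linarith)))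
      refine ⟨_, mem_nhdsWithin_of_mem_nhds (closedBall_mem_nhds x (half_pos r0)), fun z => f z,
        by fun_prop, fun z => ?_, fun z hz => by simp [a2 hz], h1 _ (by fun_prop) fun z hz =>
          by_contra fun h2 => hz (by simp [a1 h2])⟩
      rw [← Complex.ofReal_one, ← Complex.ofReal_sub, Complex.norm_real,
        Real.norm_of_nonneg (sub_nonneg.2 (a3 z).2)]
      linarith [(a3 z).1]
  refine ⟨_, cm (f := fun z => z - c) (by fun_prop) g1 g4, ?_⟩
  have e : N - c • 1 - cfc (fun z => (z - c) * g z) N = cfc (fun z => z - c - (z - c) * g z) N := by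
    rw [cfc_sub _ _ _ (by fun_prop) (by fun_prop), cfc_sub _ _ _ (by fun_prop) (by fun_prop),
      cfc_id' ℂ N, cfc_const _ N, Algebra.algebraMap_eq_smul_one]
  rw [dist_eq_norm, e]
  refine (norm_cfc_le (c := ε / 2) (by positivity) fun z hz => ?_).trans_lt (by linarith)
  by_cases h1 : z ∈ ball c (ε / 2)
  · rw [← mul_one_sub, norm_mul]
    exact (mul_le_of_le_one_right (norm_nonneg _) (g2 z)).trans (mem_ball_iff_norm.1 h1).le
  · simp only [g3 z ⟨hz, h1⟩, mul_one, sub_self, norm_zero]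
    positivity

end Pool.Agent.Lib.MP_45cb44_an.TC
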