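import Pool.Agent.Lib.MP_45cb44_an.TC.LocV
import Pool.Agent.Lib.MP_45cb44_an.TC.Ess

/-! A contour integral produces local vectors. -/

namespace Pool.Agent.Lib.MP_45cb44_an.TC

open MeasureTheory Metric Set Filter Topology ContinuousLinearMap
open scoped ENNReal NNReal Real ComplexConjugate InnerProductSpace

variable {H : Type*} [NormedAddCommGroup H] [InnerProductSpace ℂ H] [CompleteSpace H]
  {N T : H →L[ℂ] H} {c : ℂ}

lemma cont_clm {E F : Type*} [NormedAddCommGroup E] [NormedSpace ℂ E] [CompleteSpace E]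
    [NormedAddCommGroup F] [NormedSpace ℂ F] [CompleteSpace F] (L : E →L[ℂ] F) {g : ℂ → E} {ρ : ℝ}
    (hρ : 0 ≤ ρ) (hg : ContinuousOn g (sphere c ρ)) :
    L (circleIntegral g c ρ) = circleIntegral (fun l => L (g l)) c ρ := by
  simp only [circleIntegral, ← L.intervalIntegral_comp_comm (hg.circleIntegrable hρ).out, map_smul]

lemma cont_res (hN : IsStarNormal N) {f : ℂ → ℂ} (hf : Continuous f) {ρ : ℝ} (hρ : 0 < ρ)
    (hs : ∀ z, f z ≠ 0 → z ∈ ball c (ρ / 2)) : ∃ W : ℂ → H →L[ℂ] H, Continuous W ∧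
      (∀ l ∈ sphere c ρ, ∀ x, N (W l x) - l • W l x = cfc f N x) ∧
      circleIntegral W c ρ = -(2 * π * Complex.I) • cfc f N := by
  let k : ℂ → ℂ := fun w => conj w / ((max ‖w‖ (ρ / 2) : ℝ) : ℂ) ^ 2
  have hk : Continuous k := Continuous.div (by fun_prop) (by fun_prop) fun w =>
    pow_ne_zero _ (Complex.ofReal_ne_zero.2 (lt_max_of_lt_right (by positivity)).ne')
  have e : ∀ l ∈ sphere c ρ, ∀ z, f z ≠ 0 → z - l ≠ 0 ∧ k (z - l) = (z - l)⁻¹ := fun l hl z hz => by
    have h1 : ρ / 2 < ‖z - l‖ := by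
      linarith [mem_sphere_iff_norm.1 hl, mem_ball_iff_norm.1 (hs z hz),
        norm_sub_le_norm_sub_add_norm_sub l z c, norm_sub_rev l z]
    refine ⟨norm_pos_iff.1 (by linarith), ?_⟩
    simp only [k, max_eq_left h1.le, Complex.inv_def, Complex.normSq_eq_norm_sq]
    push_cast
    ring
  let Φ : C(ℂ × spectrum ℂ N, ℂ) := ⟨fun p => f p.2 * k (p.2 - p.1), by fun_prop⟩
  have e1 : ∀ l, cfcL hN (Φ.curry l) = cfc (fun z => f z * k (z - l)) N := fun l => by
    rw [cfc_apply _ N hN (by fun_prop)]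
    rfl
  refine ⟨fun l => cfcL hN (Φ.curry l), by fun_prop, fun l hl x => ?_, ?_⟩
  · have : cfc f N = cfc (fun z => (z - l) * (f z * k (z - l))) N := by
      congr 1
      ext z
      by_cases h : f z = 0
      · simp [h]
      · rw [(e l hl z h).2]
        field_simp [(e l hl z h).1]
    simp only [e1]
    rw [this, cfc_mul (fun z => z - l) _ _ (by fun_prop) (by fun_prop),
      cfc_sub _ _ _ (by fun_prop) (by fun_prop), cfc_id' ℂ N, cfc_const _ N]
    simp [Algebra.algebraMap_eq_smul_one]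
  · rw [← cont_clm (cfcL hN) hρ.le Φ.curry.continuous.continuousOn, cfc_apply _ N hN hf.continuousOn,
      ← map_smul]
    refine congrArg (cfcHom hN) (ContinuousMap.ext fun z => ?_)
    refine (cont_clm (ContinuousMap.evalCLM ℂ z) hρ.le Φ.curry.continuous.continuousOn).trans ?_
    change circleIntegral (fun l => f z * k (z - l)) c ρ = -(2 * π * Complex.I) * f z
    by_cases h : f z = 0
    · simp [h, circleIntegral]
    · rw [circleIntegral.integral_congr hρ.le (g := fun l => -f z * (l - z)⁻¹) fun l hl => by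
        simp only [(e l hl z h).2]
        rw [← neg_sub l, inv_neg]
        ring, circleIntegral.integral_const_mul, circleIntegral.integral_sub_inv_of_mem_ball
        (ball_subset_ball (by linarith) (hs z h))]
      ring

lemma cont_loc (hT : ∀ (l : ℂ) (x : H), T x = l • x → x = 0) {ρ r : ℝ} (hρ : 0 < ρ) (hr : ρ < r)
    {g : ℂ → H} (hg : ContinuousOn g (sphere c ρ)) {y : H}
    (h : ∀ l ∈ sphere c ρ, T (g l) - l • g l = y) : LocVec T (circleIntegral g c ρ) c r := by
  obtain ⟨B, hB⟩ := (isCompact_sphere c ρ).exists_bound_of_continuousOn hg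
  have p : 0 < 2 * π * ρ := by positivity
  refine locVec_of_div hT (κ := (r - ρ)⁻¹) (C := 2 * π * ρ * B) (P := fun C x => ∃ ψ : ℂ → ℂ,
    DifferentiableOn ℂ ψ (closedBall c ρ) ∧ (∀ l ∈ sphere c ρ, ‖ψ l • g l‖ ≤ C / (2 * π * ρ)) ∧
      x = circleIntegral (fun l => ψ l • g l) c ρ) ?_ ?_
    ⟨fun _ => 1, by fun_prop, fun l hl => by simpa [p.ne'] using hB l hl, by simp⟩
  · rintro C _ ⟨ψ, -, h1, rfl⟩
    exact (circleIntegral.norm_integral_le_of_norm_le_const hρ.le h1).trans_eq
      (mul_div_cancel₀ _ p.ne')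
  rintro C _ m ⟨ψ, d, h1, rfl⟩ hm
  have n : ∀ l ∈ closedBall c ρ, r - ρ ≤ ‖l - m‖ := fun l hl => by
    linarith [mem_closedBall_iff_norm.1 hl, norm_sub_le_norm_sub_add_norm_sub m l c,
      norm_sub_rev m l]
  have n0 : ∀ l ∈ closedBall c ρ, l - m ≠ 0 := fun l hl => norm_pos_iff.1 (by linarith [n l hl])
  have d' : DifferentiableOn ℂ (fun l => (l - m)⁻¹ * ψ l) (closedBall c ρ) :=
    (DifferentiableOn.inv (by fun_prop) n0).mul d
  have c1 := d.continuousOn.mono sphere_subset_closedBall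
  have c2 := d'.continuousOn.mono sphere_subset_closedBall
  refine ⟨_, ⟨_, d', fun l hl => ?_, rfl⟩, ?_⟩
  · rw [mul_smul, norm_smul, norm_inv, mul_div_assoc]
    exact mul_le_mul (inv_anti₀ (by linarith) (n l (sphere_subset_closedBall hl))) (h1 l hl)
      (norm_nonneg _) (inv_nonneg.2 (by linarith))
  · refine (cont_clm (T - m • 1) hρ.le (c2.smul hg)).trans ?_
    rw [circleIntegral.integral_congr hρ.le
      (g := fun l => ((l - m)⁻¹ * ψ l) • y + ψ l • g l) fun l hl => by
        have := n0 l (sphere_subset_closedBall hl)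
        simp only [← h l hl, sub_apply, smul_apply, one_apply_eq_self, map_smul, Pi.smul_apply']
        match_scalars <;> (field_simp; try ring),
      circleIntegral.integral_add (f := fun l => ((l - m)⁻¹ * ψ l) • y) (g := fun l => ψ l • g l)
        ((c2.smul continuousOn_const).circleIntegrable hρ.le)
        ((c1.smul hg).circleIntegrable hρ.le), circleIntegral.integral_smul_const,
      DiffContOnCl.circleIntegral_eq_zero hρ.le (DifferentiableOn.diffContOnCl
        (by rwa [closure_ball c hρ.ne'])), zero_smul, zero_add]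

theorem locVec_of_fact (hN : IsStarNormal N) (hc : Ess N c)
    (hT : ∀ (l : ℂ) (x : H), T x = l • x → x = 0) {ρ r : ℝ} (hρ : 0 < ρ) (hr : ρ < r)
    {S : ℂ → H →L[ℂ] H} (hS : ContinuousOn S (sphere c ρ))
    (hK : ∀ l ∈ sphere c ρ, IsCompactOperator (S l))
    (h : ∀ l ∈ sphere c ρ, ∀ x, T (x - S l x) - l • (x - S l x) = N x - l • x) :
    ∃ x, x ≠ 0 ∧ LocVec T x c r := by
  obtain ⟨f, hf, hs, hn⟩ := hc (ρ / 2) (by positivity)
  obtain ⟨W, w1, w2, w3⟩ := cont_res hN hf hρ hs
  have c1 : ContinuousOn (fun l => S l * W l) (sphere c ρ) := hS.mul w1.continuousOn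
  have c2 := w1.continuousOn.sub c1
  by_contra! h0
  have e : circleIntegral (fun l => W l - S l * W l) c ρ = 0 := by
    ext x
    refine (cont_clm (ContinuousLinearMap.apply ℂ H x) hρ.le c2).trans (by_contra fun h1 => ?_)
    exact h0 _ h1 (cont_loc hT hρ hr
      ((ContinuousLinearMap.apply ℂ H x).continuous.comp_continuousOn c2)
      (y := cfc f N x) fun l hl => (h l hl _).trans (w2 l hl x))
  let P := compactOperator (RingHom.id ℂ) H H
  have : IsClosed (P : Set (H →L[ℂ] H)) := isClosed_setOfPred_isCompactOperator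
  rw [circleIntegral.integral_sub (w1.continuousOn.circleIntegrable hρ.le)
    (c1.circleIntegrable hρ.le), w3, sub_eq_zero] at e
  have e2 := cont_clm P.mkQL hρ.le c1
  rw [circleIntegral.integral_congr hρ.le (f := fun l => P.mkQL (S l * W l)) (g := fun _ => 0)
    fun l hl => (Submodule.Quotient.mk_eq_zero P).2 ((hK l hl).comp_clm (W l)), ← e] at e2
  have e3 : -(2 * π * Complex.I) • cfc f N ∈ P :=
    (Submodule.Quotient.mk_eq_zero P).1 (e2.trans (by simp [circleIntegral]))
  exact hn ((P.smul_mem_iff (neg_ne_zero.2 Complex.two_pi_I_ne_zero)).1 e3)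

end Pool.Agent.Lib.MP_45cb44_an.TC
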