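import Pool.Agent.Lib.MP_45cb44_an.TC.Loc
import Pool.Agent.Lib.MP_45cb44_an.TC.Low
import Pool.Agent.Lib.MP_45cb44_an.TC.Cont
import Pool.Agent.Lib.MP_45cb44_an.TC.Dich

/-! Local vectors inside a barrier. -/

namespace Pool.Agent.Lib.MP_45cb44_an.TC

open MeasureTheory Metric Set Filter Topology ContinuousLinearMap
open scoped ENNReal NNReal Real ComplexConjugate InnerProductSpace

variable {H : Type*} [NormedAddCommGroup H] [InnerProductSpace ℂ H] [CompleteSpace H]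
  {N : H →L[ℂ] H} {u v : SQ H} {a : ℂ → SQ (SQ ℂ)} {c : ℂ} {R : ℝ}

lemma barl_bm {m : ℂ → SQ ℂ →L[ℂ] SQ ℂ} (hm : StronglyMeasurable m) (h1 : ∀ ζ, ‖m ζ‖ ≤ 1)
    {p : ℂ → ℂ} (hp : Measurable p) {K : ℝ} (hK : ∀ ζ, ‖p ζ‖ ≤ K) (t : SQ ℂ) :
    Bm (fun ζ => p ζ • m ζ t) (K * ‖t‖) :=
  ⟨hp.stronglyMeasurable.smul
    ((ContinuousLinearMap.apply ℂ _ t).continuous.comp_stronglyMeasurable hm), fun ζ => by
    rw [norm_smul]
    exact mul_le_mul (hK ζ) (((m ζ).le_of_opNorm_le (h1 ζ) t).trans_eq (one_mul _)) (norm_nonneg _)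
      ((norm_nonneg _).trans (hK ζ))⟩

lemma barl_op (hN : IsStarNormal N) {m : ℂ → SQ ℂ →L[ℂ] SQ ℂ} (hm : StronglyMeasurable m)
    (h1 : ∀ ζ, ‖m ζ‖ ≤ 1) {p : ℂ → ℂ} (hp : Measurable p) {K : ℝ} (hK : ∀ ζ, ‖p ζ‖ ≤ K)
    (hs : ∀ ζ, p ζ ≠ 0 → ζ ∈ ball c R) :
    (∀ t, Th c R fun ζ => p ζ • m ζ t) ∧ ∃ Γ : SQ ℂ →L[ℂ] H, ‖Γ‖ ≤ 3 * K * ‖u‖ ∧
      ∀ t, Γ t = XX N u fun ζ => p ζ • m ζ t := by
  have th : ∀ t, Th c R fun ζ => p ζ • m ζ t := fun t =>
    ⟨⟨_, barl_bm hm h1 hp hK t⟩, fun ζ h => hs ζ (left_ne_zero_of_smul h)⟩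
  have K0 : 0 ≤ K := (norm_nonneg _).trans (hK 0)
  let L : SQ ℂ →ₗ[ℂ] H :=
    { toFun := fun t => XX N u fun ζ => p ζ • m ζ t
      map_add' := fun s t => by simp only [map_add, smul_add, XX_add hN (th s) (th t)]
      map_smul' := fun s t => by
        simp only [map_smul, smul_comm (p _) s, XX_smul hN (th t), RingHom.id_apply] }
  have b : ∀ t, ‖L t‖ ≤ 3 * K * ‖u‖ * ‖t‖ := fun t =>
    (norm_XX_le hN (barl_bm hm h1 hp hK t)).trans_eq (by ring)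
  exact ⟨th, L.mkContinuous _ b, L.mkContinuous_norm_le (by positivity) b, fun _ => rfl⟩

theorem locVec_of_bar (hN : IsStarNormal N)
    (hT : ∀ (l : ℂ) (x : H), TT N u v x = l • x → x = 0) (r : Rp N u v a) (h0 : 0 < R)
    (hD : ball c (2 * R) ⊆ ball 0 1) (hc : Ess N c) (h : Bar (fun ζ => low (a ζ) ^ 2) c R) :
    ∃ x, x ≠ 0 ∧ LocVec (TT N u v) x c (2 * R) := by
  obtain ⟨θ, bθ, sθ, hθ⟩ := h
  obtain ⟨I, i1, i2, i3⟩ := exists_inv
  have hm : StronglyMeasurable fun ζ => I (a ζ) := i1.comp_stronglyMeasurable r.m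
  have b0 := bθ.mul (Bd.id.sub (Bd.const c))
  obtain ⟨m0, K, K0, hK⟩ := id b0
  have s0 : ∀ ζ, θ ζ * (ζ - c) ≠ 0 → ζ ∈ ball c R \ ball c (R / 4) := fun ζ h =>
    sθ ζ (left_ne_zero_of_mul h)
  have k0 : ∀ ζ, ‖θ ζ * (ζ - c)‖ ≤ K := fun ζ => by
    by_cases h : θ ζ * (ζ - c) = 0
    · rwa [h, norm_zero]
    · exact hK ζ (hD (ball_subset_ball (by linarith) (s0 ζ h).1))
  have eM : ∀ (p : ℂ → ℂ) (t : SQ ℂ) (ζ : ℂ), p ζ • I (a ζ) t + Vs (a ζ) (p ζ • I (a ζ) t) =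
      (p ζ * ((low (a ζ) ^ 2 : ℝ) : ℂ)) • t := fun p t ζ => by
    rw [map_smul, ← smul_add, i3, smul_smul]
  obtain ⟨t0, L, -, hL⟩ := barl_op (u := u) hN hm (fun ζ => i2 _) m0 k0 fun ζ h => (s0 ζ h).1
  by_cases hx : ∃ t, L t ≠ 0
  · obtain ⟨t, ht⟩ := hx
    refine ⟨_, ht, Loc.locVec (C := max (∫ ζ, ‖(θ ζ * (ζ - c)) • I (a ζ) t‖ ∂mD) ‖L t‖)
      ⟨fun _ ζ => (θ ζ * (ζ - c)) • I (a ζ) t, fun _ => t0 t, fun _ => le_max_left _ _,
        fun _ => hL t ▸ le_max_right _ _, fun y => hL t ▸ tendsto_const_nhds,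
        fun φ bφ dφ => ?_⟩ hN r h0 hT⟩
    have := hθ (fun ζ => φ ζ * (ζ - c)) (bφ.mul (Bd.id.sub (Bd.const c))) (by fun_prop)
    simp only [eM (fun ζ => θ ζ * (ζ - c)), smul_smul, integral_smul_const]
    rw [integral_congr_ae (g := fun ζ => θ ζ * (φ ζ * (ζ - c)) * ((low (a ζ) ^ 2 : ℝ) : ℂ))
      (.of_forall fun ζ => by ring), this]
    simp
  push Not at hx
  have far : ∀ l ∈ closedBall c (R / 8), ∀ ζ, θ ζ * (ζ - c) ≠ 0 → R / 8 ≤ ‖ζ - l‖ :=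
    fun l hl ζ h => by
      have := (s0 ζ h).2
      rw [mem_ball_iff_norm, not_lt] at this
      linarith [mem_closedBall_iff_norm.1 hl, norm_sub_le_norm_sub_add_norm_sub ζ l c]
  have k1 : ∀ l ∈ closedBall c (R / 8), ∀ (p : ℂ → ℂ) (B : ℝ), (∀ ζ, ‖p ζ‖ ≤ B) →
      (∀ ζ, p ζ ≠ 0 → θ ζ * (ζ - c) ≠ 0) → ∀ ζ, ‖p ζ * (ζ - l)⁻¹‖ ≤ B * (R / 8)⁻¹ :=
    fun l hl p B hB hp ζ => by
      have B0 := (norm_nonneg _).trans (hB ζ)
      by_cases h : p ζ = 0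
      · simp only [h, zero_mul, norm_zero]
        positivity
      · rw [norm_mul, norm_inv]
        exact mul_le_mul (hB ζ) (inv_anti₀ (by positivity) (far l hl ζ (hp ζ h))) (by positivity) B0
  have op := fun l (hl : l ∈ closedBall c (R / 8)) => barl_op (u := u) (c := c) (R := R) hN hm
    (fun ζ => i2 _) (p := fun ζ => θ ζ * (ζ - c) * (ζ - l)⁻¹) (by fun_prop)
    (k1 l hl _ K k0 fun _ => id) fun ζ h => (s0 ζ (left_ne_zero_of_mul h)).1
  choose! Γ _ g2 using fun l hl => (op l hl).2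
  have bF : Bd fun ζ => ((low (a ζ) ^ 2 : ℝ) : ℂ) := .of_bound (Complex.measurable_ofReal.comp
    ((continuous_low.comp_stronglyMeasurable r.m).measurable.pow_const 2)) 1 fun ζ _ => by
      rw [Complex.norm_real, Real.norm_of_nonneg (sq_nonneg _)]
      exact pow_le_one₀ (low_nonneg _) (low_le_one _)
  set q := CT mD fun ζ => θ ζ * (ζ - c) * ((low (a ζ) ^ 2 : ℝ) : ℂ) with hq
  have cq : Continuous q := continuous_CT le_rfl (b0.mul bF)
  have q1 : q c = 1 := by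
    refine Eq.trans (integral_congr_ae (.of_forall fun ζ => ?_))
      (hθ (fun _ => 1) (Bd.const 1) (by fun_prop))
    by_cases h : ζ - c = 0
    · have : θ ζ = 0 := by_contra fun h1 => (sθ ζ h1).2 (by
        rw [mem_ball_iff_norm, h, norm_zero]
        positivity)
      simp [this]
    · simp only
      field_simp
  have eΓ : ∀ l ∈ closedBall c (R / 8), ∀ t,
      TT N u v (Γ l t) - l • Γ l t = -(q l • adjoint (Vs u) t) := fun l hl t => by
    have e : (fun ζ => (ζ - l) • (θ ζ * (ζ - c) * (ζ - l)⁻¹) • I (a ζ) t) =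
        fun ζ => (θ ζ * (ζ - c)) • I (a ζ) t := by
      ext1 ζ
      by_cases h : θ ζ * (ζ - c) = 0
      · simp [h]
      · have : ζ - l ≠ 0 := norm_pos_iff.1 (lt_of_lt_of_le (by positivity) (far l hl ζ h))
        rw [smul_smul, mul_comm, inv_mul_cancel_right₀ this]
    rw [g2 l hl, r.T_XX hN ((op l hl).1 t), e, ← hL, hx, zero_sub]
    simp only [eM fun ζ => θ ζ * (ζ - c) * (ζ - l)⁻¹]
    simp only [integral_smul_const, map_smul, hq, CT, mul_right_comm _ (_ - l)⁻¹]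
  have cΓ : ContinuousOn Γ (closedBall c (R / 8)) := by
    refine (LipschitzOnWith.of_dist_le' (K := 3 * (K * (R / 8)⁻¹ * (R / 8)⁻¹) * ‖u‖)
      fun l hl l' hl' => ?_).continuousOn
    obtain ⟨t2, D, d1, d2⟩ := barl_op (u := u) (c := c) (R := R) hN hm (fun ζ => i2 _)
      (p := fun ζ => θ ζ * (ζ - c) * (ζ - l)⁻¹ * (ζ - l')⁻¹) (by fun_prop)
      (k1 l' hl' _ _ (k1 l hl _ K k0 fun _ => id) fun _ => left_ne_zero_of_mul)
      fun ζ h => (s0 ζ (left_ne_zero_of_mul (left_ne_zero_of_mul h))).1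
    have e : Γ l - Γ l' = (l - l') • D := by
      ext1 t
      rw [sub_apply, sub_eq_iff_eq_add', smul_apply, g2 l hl, g2 l' hl', d2, ← XX_smul hN (t2 t),
        ← XX_add hN ((op l' hl').1 t) ((t2 t).smul measurable_const (C := ‖l - l'‖)
          fun _ _ => le_rfl)]
      congr 1
      ext1 ζ
      rw [smul_smul, ← add_smul]
      congr 1
      by_cases h : θ ζ * (ζ - c) = 0
      · simp [h]
      · have : ζ - l ≠ 0 := norm_pos_iff.1 (lt_of_lt_of_le (by positivity) (far l hl ζ h))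
        have : ζ - l' ≠ 0 := norm_pos_iff.1 (lt_of_lt_of_le (by positivity) (far l' hl' ζ h))
        field_simp
        ring
    rw [dist_eq_norm, dist_eq_norm, e, norm_smul, mul_comm]
    exact mul_le_mul_of_nonneg_right d1 (norm_nonneg _)
  obtain ⟨ρ, ρ0, hρ⟩ := Metric.nhds_basis_closedBall.mem_iff.1 (inter_mem
    (closedBall_mem_nhds c (by positivity : 0 < R / 8))
    (cq.continuousAt.eventually_ne (q1.trans_ne one_ne_zero)))
  have sp := fun l (hl : l ∈ sphere c ρ) => hρ (sphere_subset_closedBall hl)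
  have ρ1 : ρ ≤ R / 8 := by
    simpa [abs_of_pos ρ0] using (sp (c + ρ) (by simp [ρ0.le])).1
  refine locVec_of_fact hN hc hT ρ0 (by linarith) (S := fun l => -(q l)⁻¹ • Γ l ∘L Vs v)
    ((cq.continuousOn.inv₀ fun l hl => (sp l hl).2).neg.smul
      ((cΓ.mono fun l hl => (sp l hl).1).clm_comp continuousOn_const))
    (fun l _ => ((compact_Vs v).clm_comp (Γ l)).smul _) fun l hl x => ?_
  have e := eΓ l (sp l hl).1 (Vs v x)
  have q0 : q l ≠ 0 := (sp l hl).2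
  have e2 : TT N u v x = N x + adjoint (Vs u) (Vs v x) := rfl
  simp only [smul_apply, comp_apply, map_sub, map_smul, e2, sub_eq_iff_eq_add.1 e]
  match_scalars <;> field_simp <;> ring

end Pool.Agent.Lib.MP_45cb44_an.TC
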