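import Pool.Agent.Lib.MP_45cb44_an.Resolvent

/-! Menger curvature and the Melnikov identity for measures with bounded potential. -/

namespace Pool.Agent.Lib.MP_45cb44_an.TC

open MeasureTheory Metric Set Filter Topology
open scoped ENNReal NNReal Real ComplexConjugate InnerProductSpace

/-- Squared Menger curvature. -/
noncomputable def cv (a x y : ℂ) : ℝ :=
  4 * (conj (x - a) * (y - a)).im ^ 2 / (‖x - a‖ ^ 2 * ‖y - a‖ ^ 2 * ‖x - y‖ ^ 2)

lemma cv_nonneg (a x y : ℂ) : 0 ≤ cv a x y := by unfold cv; positivity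

lemma measurable_cv : Measurable fun p : ℂ × ℂ × ℂ => cv p.1 p.2.1 p.2.2 := by
  unfold cv
  fun_prop

lemma cv_symm (a x y : ℂ) : cv a x y = cv a y x := by
  unfold cv
  rw [norm_sub_rev y x, mul_comm (‖x - a‖ ^ 2)]
  congr 2
  simp only [Complex.mul_im, Complex.conj_re, Complex.conj_im]
  ring

lemma cv_eq {a x y : ℂ} (h1 : x ≠ a) (h2 : y ≠ a) (h3 : x ≠ y) : (cv a x y : ℂ) =
    ((x - a)⁻¹ * (conj (y - a))⁻¹ + (conj (x - a))⁻¹ * (y - a)⁻¹) +
    ((a - x)⁻¹ * (conj (y - x))⁻¹ + (conj (a - x))⁻¹ * (y - x)⁻¹) +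
    ((a - y)⁻¹ * (conj (x - y))⁻¹ + (conj (a - y))⁻¹ * (x - y)⁻¹) := by
  obtain ⟨p, rfl⟩ : ∃ p, x = p + a := ⟨x - a, by ring⟩
  obtain ⟨q, rfl⟩ : ∃ q, y = q + a := ⟨y - a, by ring⟩
  have p0 : p ≠ 0 := by simpa using h1
  have q0 : q ≠ 0 := by simpa using h2
  have d0 : p - q ≠ 0 := by simpa [sub_eq_zero] using h3
  have p1 : conj p ≠ 0 := by simpa using p0
  have q1 : conj q ≠ 0 := by simpa using q0
  have d1 : conj p - conj q ≠ 0 := by rw [← map_sub]; exact (map_ne_zero _).2 d0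
  have d2 : q - p ≠ 0 := by rwa [← neg_sub, neg_ne_zero]
  have d3 : conj q - conj p ≠ 0 := by rwa [← neg_sub, neg_ne_zero]
  have e : ∀ z : ℂ, ((‖z‖ : ℂ)) ^ 2 = z * conj z := fun z => (Complex.mul_conj' z).symm
  have i : 4 * (((conj p * q).im : ℝ) : ℂ) ^ 2 = -(conj p * q - p * conj q) ^ 2 := by
    have := Complex.sub_conj (conj p * q)
    simp only [map_mul, Complex.conj_conj] at this
    rw [this]
    push_cast
    linear_combination (4 * (((conj p * q).im : ℝ) : ℂ) ^ 2) * Complex.I_sq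
  simp only [cv, add_sub_cancel_right, add_sub_add_right_eq_sub, sub_add_cancel_right, map_neg,
    map_sub]
  push_cast
  rw [i, e, e, e, map_sub]
  generalize conj p = p' at *
  generalize conj q = q' at *
  field_simp
  ring

lemma hol_eq {a x y : ℂ} (h1 : x ≠ a) (h2 : y ≠ a) (h3 : x ≠ y) :
    (x - a)⁻¹ * (y - a)⁻¹ + (a - x)⁻¹ * (y - x)⁻¹ + (a - y)⁻¹ * (x - y)⁻¹ = 0 := by
  have := sub_ne_zero.2 h1
  have := sub_ne_zero.2 h2
  have := sub_ne_zero.2 h3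
  have := sub_ne_zero.2 h1.symm
  have := sub_ne_zero.2 h2.symm
  have := sub_ne_zero.2 h3.symm
  field_simp
  ring

/-- Curvature of a measure seen from a point. -/
noncomputable def cur (μ : Measure ℂ) (a : ℂ) : ℝ≥0∞ :=
  ∫⁻ p : ℂ × ℂ, ENNReal.ofReal (cv a p.1 p.2) ∂(μ.prod μ)

lemma measurable_cur (μ : Measure ℂ) [SFinite μ] : Measurable (cur μ) :=
  measurable_cv.ennreal_ofReal.lintegral_prod_right'

lemma cur_mono {μ ν : Measure ℂ} [SFinite μ] [SFinite ν] (h : μ ≤ ν) (a : ℂ) : cur μ a ≤ cur ν a :=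
  lintegral_mono' (Measure.prod_mono h h) le_rfl

/-- Atomless measures with bounded potential. -/
structure Nice (μ : Measure ℂ) (P : ℝ) : Prop where
  atom : ∀ z, μ {z} = 0
  int : ∀ z, Integrable (fun w => ‖w - z‖⁻¹) μ
  le : ∀ z, ∫ w, ‖w - z‖⁻¹ ∂μ ≤ P

variable {μ σ : Measure ℂ} {P : ℝ}

lemma Nice.nonneg (h : Nice μ P) : 0 ≤ P :=
  (integral_nonneg fun _ => by positivity).trans (h.le 0)

lemma Nice.mono (h : Nice μ P) {ν : Measure ℂ} (hν : ν ≤ μ) : Nice ν P :=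
  ⟨fun z => le_zero_iff.1 ((hν _).trans_eq (h.atom z)), fun z => (h.int z).mono_measure hν,
    fun z => (integral_mono_measure hν (.of_forall fun _ => by positivity) (h.int z)).trans (h.le z)⟩

lemma Nice.ae_ne (h : Nice μ P) (z : ℂ) : ∀ᵐ w ∂μ, w ≠ z := by
  simpa [ae_iff] using h.atom z

lemma Nice.int' (h : Nice μ P) (z : ℂ) : Integrable (fun w => ‖z - w‖⁻¹) μ := by
  simpa only [norm_sub_rev z] using h.int z

lemma Nice.le' (h : Nice μ P) (z : ℂ) : ∫ w, ‖z - w‖⁻¹ ∂μ ≤ P := by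
  simpa only [norm_sub_rev z] using h.le z

lemma Nice.int2 [IsFiniteMeasure μ] [IsFiniteMeasure σ] (h : Nice μ P) :
    Integrable (fun p : ℂ × ℂ => ‖p.1 - p.2‖⁻¹) (σ.prod μ) := by
  have m : Measurable fun p : ℂ × ℂ => ‖p.1 - p.2‖⁻¹ := by fun_prop
  refine (integrable_prod_iff m.aestronglyMeasurable).2 ⟨.of_forall fun z => h.int' z,
    (integrable_const P).mono' (m.norm.stronglyMeasurable.integral_prod_right').aestronglyMeasurable
      (.of_forall fun z => ?_)⟩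
  rw [Real.norm_of_nonneg (integral_nonneg fun _ => norm_nonneg _)]
  simpa using h.le' z

lemma Nice.ae3 [IsFiniteMeasure μ] [IsFiniteMeasure σ] (h : Nice μ P) :
    ∀ᵐ p ∂(σ.prod (μ.prod μ)), p.2.1 ≠ p.1 ∧ p.2.2 ≠ p.1 ∧ p.2.1 ≠ p.2.2 := by
  have m : MeasurableSet {p : ℂ × ℂ × ℂ | p.2.1 ≠ p.1 ∧ p.2.2 ≠ p.1 ∧ p.2.1 ≠ p.2.2} := by
    refine (IsOpen.inter ?_ (IsOpen.inter ?_ ?_)).measurableSet <;>
      exact isOpen_ne_fun (by fun_prop) (by fun_prop)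
  refine (Measure.ae_prod_iff_ae_ae m).2 (.of_forall fun a => ?_)
  refine (Measure.ae_prod_iff_ae_ae (measurable_prodMk_left m)).2 ?_
  filter_upwards [h.ae_ne a] with x hx
  filter_upwards [h.ae_ne a, h.ae_ne x] with y h1 h2
  exact ⟨hx, h1, h2.symm⟩

lemma Nice.int3a [IsFiniteMeasure μ] [IsFiniteMeasure σ] (h : Nice μ P) :
    Integrable (fun p : ℂ × ℂ × ℂ => ‖p.2.1 - p.1‖⁻¹ * ‖p.2.2 - p.1‖⁻¹) (σ.prod (μ.prod μ)) := by
  have m : Measurable fun p : ℂ × ℂ × ℂ => ‖p.2.1 - p.1‖⁻¹ * ‖p.2.2 - p.1‖⁻¹ := by fun_prop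
  refine (integrable_prod_iff m.aestronglyMeasurable).2 ⟨.of_forall fun z =>
    (h.int z).mul_prod (h.int z), (integrable_const (P * P)).mono'
      (m.norm.stronglyMeasurable.integral_prod_right').aestronglyMeasurable (.of_forall fun z => ?_)⟩
  rw [Real.norm_of_nonneg (integral_nonneg fun _ => norm_nonneg _)]
  simp only [norm_mul, norm_inv, norm_norm]
  rw [integral_prod_mul (fun x => ‖x - z‖⁻¹) fun y => ‖y - z‖⁻¹]
  exact mul_le_mul (h.le z) (h.le z) (integral_nonneg fun _ => by positivity) h.nonneg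

lemma Nice.int3b [IsFiniteMeasure μ] [IsFiniteMeasure σ] (h : Nice μ P) :
    Integrable (fun p : ℂ × ℂ × ℂ => ‖p.1 - p.2.1‖⁻¹ * ‖p.2.2 - p.2.1‖⁻¹) (σ.prod (μ.prod μ)) := by
  have m : Measurable fun p : ℂ × ℂ × ℂ => ‖p.1 - p.2.1‖⁻¹ * ‖p.2.2 - p.2.1‖⁻¹ := by fun_prop
  have k : ∀ a x : ℂ, ∫ y, ‖‖a - x‖⁻¹ * ‖y - x‖⁻¹‖ ∂μ ≤ ‖a - x‖⁻¹ * P := fun a x => by
    simp only [norm_mul, norm_inv, norm_norm]
    rw [integral_const_mul]
    exact mul_le_mul_of_nonneg_left (h.le x) (by positivity)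
  have i : ∀ a : ℂ, Integrable (fun q : ℂ × ℂ => ‖a - q.1‖⁻¹ * ‖q.2 - q.1‖⁻¹) (μ.prod μ) := fun a => by
    have m' : Measurable fun q : ℂ × ℂ => ‖a - q.1‖⁻¹ * ‖q.2 - q.1‖⁻¹ := by fun_prop
    refine (integrable_prod_iff m'.aestronglyMeasurable).2 ⟨.of_forall fun x =>
      (h.int x).const_mul ‖a - x‖⁻¹, ((h.int' a).mul_const P).mono'
        (m'.norm.stronglyMeasurable.integral_prod_right').aestronglyMeasurable
        (.of_forall fun x => ?_)⟩
    rw [Real.norm_of_nonneg (integral_nonneg fun _ => norm_nonneg _)]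
    exact k a x
  refine (integrable_prod_iff m.aestronglyMeasurable).2 ⟨.of_forall i, (integrable_const (P * P)).mono'
      (m.norm.stronglyMeasurable.integral_prod_right').aestronglyMeasurable (.of_forall fun a => ?_)⟩
  rw [Real.norm_of_nonneg (integral_nonneg fun _ => norm_nonneg _), integral_prod _ (i a).norm]
  refine (integral_mono (i a).norm.integral_prod_left ((h.int' a).mul_const P) (k a)).trans ?_
  rw [integral_mul_const]
  exact mul_le_mul_of_nonneg_right (h.le' a) h.nonneg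

variable {G : Type*} [NormedAddCommGroup G] [InnerProductSpace ℂ G] [CompleteSpace G]

/-- A kernel bounded by the Cauchy kernel. -/
structure Ker (κ : ℂ → ℂ) : Prop where
  m : Measurable κ
  le : ∀ w, ‖κ w‖ ≤ ‖w‖⁻¹

lemma ker_inv : Ker fun w => w⁻¹ := ⟨by fun_prop, fun w => by simp⟩

lemma ker_conj : Ker fun w => (conj w)⁻¹ := ⟨by fun_prop, fun w => by simp⟩

/-- Transform of a vector density. -/
noncomputable def Tr (κ : ℂ → ℂ) (ν : Measure ℂ) (g : ℂ → G) (z : ℂ) : G := ∫ w, κ (w - z) • g w ∂ν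

/-- Cauchy transform. -/
noncomputable abbrev Cf (ν : Measure ℂ) (g : ℂ → G) : ℂ → G := Tr (fun w => w⁻¹) ν g

/-- Conjugate Cauchy transform. -/
noncomputable abbrev Cb (ν : Measure ℂ) (g : ℂ → G) : ℂ → G := Tr (fun w => (conj w)⁻¹) ν g

/-- Bounded measurable vector functions. -/
structure Bm (g : ℂ → G) (B : ℝ) : Prop where
  m : StronglyMeasurable g
  le : ∀ w, ‖g w‖ ≤ B

variable {κ κ' : ℂ → ℂ} {g : ℂ → G} {B : ℝ}

omit [InnerProductSpace ℂ G] [CompleteSpace G] in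
lemma Bm.nonneg (hg : Bm g B) : 0 ≤ B := (norm_nonneg _).trans (hg.le 0)

lemma bm_one : Bm (fun _ => (1 : ℂ)) 1 := ⟨stronglyMeasurable_const, fun _ => by simp⟩

omit [CompleteSpace G] in
lemma Bm.sm (hg : Bm g B) (hκ : Ker κ) : StronglyMeasurable fun p : ℂ × ℂ => κ (p.2 - p.1) • g p.2 :=
  (hκ.m.comp (by fun_prop)).stronglyMeasurable.smul (hg.m.comp_measurable measurable_snd)

omit [CompleteSpace G] in
lemma Bm.norm_le (hg : Bm g B) (hκ : Ker κ) (z w : ℂ) : ‖κ (w - z) • g w‖ ≤ ‖w - z‖⁻¹ * B := by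
  rw [norm_smul]
  exact mul_le_mul (hκ.le _) (hg.le _) (norm_nonneg _) (by positivity)

omit [CompleteSpace G] in
lemma Bm.int (hg : Bm g B) (hκ : Ker κ) {z : ℂ} (h : Integrable (fun w => ‖w - z‖⁻¹) σ) :
    Integrable (fun w => κ (w - z) • g w) σ :=
  (h.mul_const B).mono' ((hg.sm hκ).comp_measurable measurable_prodMk_left).aestronglyMeasurable
    (.of_forall (hg.norm_le hκ z))

omit [CompleteSpace G] in
lemma Bm.tr_le (hg : Bm g B) (hκ : Ker κ) {z : ℂ} (h : Integrable (fun w => ‖w - z‖⁻¹) σ) :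
    ‖Tr κ σ g z‖ ≤ (∫ w, ‖w - z‖⁻¹ ∂σ) * B := by
  rw [← integral_mul_const]
  exact norm_integral_le_of_norm_le (h.mul_const B) (.of_forall (hg.norm_le hκ z))

omit [CompleteSpace G] in
lemma Bm.tr_sm [SFinite σ] (hg : Bm g B) (hκ : Ker κ) : StronglyMeasurable (Tr κ σ g) :=
  (hg.sm hκ).integral_prod_right'

omit [CompleteSpace G] in
lemma Bm.tr [SFinite μ] (hg : Bm g B) (hκ : Ker κ) (h : Nice μ P) : Bm (Tr κ μ g) (P * B) :=
  ⟨hg.tr_sm hκ, fun z => (hg.tr_le hκ (h.int z)).trans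
    (mul_le_mul_of_nonneg_right (h.le z) hg.nonneg)⟩

omit [CompleteSpace G] in
lemma Bm.int2 [IsFiniteMeasure μ] [IsFiniteMeasure σ] (hg : Bm g B) (hκ : Ker κ) (h : Nice μ P) :
    Integrable (fun p : ℂ × ℂ => κ (p.2 - p.1) • g p.2) (μ.prod σ) := by
  have := (h.int2 (σ := σ)).swap.mul_const B
  exact this.mono' (hg.sm hκ).aestronglyMeasurable (.of_forall fun p => hg.norm_le hκ _ _)

omit [CompleteSpace G] in
lemma Bm.inner_sm (hg : Bm g B) :
    StronglyMeasurable fun p : ℂ × ℂ × ℂ => ⟪g p.2.1, g p.2.2⟫_ℂ :=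
  (hg.m.comp_measurable (by fun_prop)).inner (hg.m.comp_measurable (by fun_prop))

omit [CompleteSpace G] in
lemma Bm.inner_le (hg : Bm g B) (x y : ℂ) : ‖⟪g x, g y⟫_ℂ‖ ≤ B * B :=
  (norm_inner_le_norm _ _).trans (mul_le_mul (hg.le _) (hg.le _) (norm_nonneg _) hg.nonneg)

section
variable [IsFiniteMeasure μ] [IsFiniteMeasure σ]

omit [CompleteSpace G] in
lemma fa_int (h : Nice μ P) (hg : Bm g B) (hκ : Ker κ) (hκ' : Ker κ') :
    Integrable (fun p : ℂ × ℂ × ℂ => κ (p.2.1 - p.1) * κ' (p.2.2 - p.1) * ⟪g p.2.1, g p.2.2⟫_ℂ)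
      (σ.prod (μ.prod μ)) := by
  refine (h.int3a.mul_const (B * B)).mono' (((hκ.m.comp (by fun_prop)).mul
    (hκ'.m.comp (by fun_prop))).stronglyMeasurable.mul hg.inner_sm).aestronglyMeasurable
    (.of_forall fun p => ?_)
  rw [norm_mul, norm_mul]
  exact mul_le_mul (mul_le_mul (hκ.le _) (hκ'.le _) (norm_nonneg _) (by positivity))
    (hg.inner_le _ _) (norm_nonneg _) (by positivity)

omit [CompleteSpace G] in
lemma fb_int (h : Nice μ P) (hg : Bm g B) (hκ : Ker κ) (hκ' : Ker κ') :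
    Integrable (fun p : ℂ × ℂ × ℂ => κ (p.1 - p.2.1) * κ' (p.2.2 - p.2.1) * ⟪g p.2.1, g p.2.2⟫_ℂ)
      (σ.prod (μ.prod μ)) := by
  refine (h.int3b.mul_const (B * B)).mono' (((hκ.m.comp (by fun_prop)).mul
    (hκ'.m.comp (by fun_prop))).stronglyMeasurable.mul hg.inner_sm).aestronglyMeasurable
    (.of_forall fun p => ?_)
  rw [norm_mul, norm_mul]
  exact mul_le_mul (mul_le_mul (hκ.le _) (hκ'.le _) (norm_nonneg _) (by positivity))
    (hg.inner_le _ _) (norm_nonneg _) (by positivity)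

lemma fa_eq (h : Nice μ P) (hg : Bm g B) (hκ : Ker κ) (hκ' : Ker κ') {κ0 : ℂ → ℂ} (h0 : Ker κ0)
    (e : ∀ w, conj (κ0 w) = κ w) :
    ∫ p : ℂ × ℂ × ℂ, κ (p.2.1 - p.1) * κ' (p.2.2 - p.1) * ⟪g p.2.1, g p.2.2⟫_ℂ ∂(σ.prod (μ.prod μ)) =
      ∫ a, ⟪Tr κ0 μ g a, Tr κ' μ g a⟫_ℂ ∂σ := by
  rw [integral_prod _ (fa_int h hg hκ hκ')]
  refine integral_congr_ae ?_
  filter_upwards [(fa_int (σ := σ) h hg hκ hκ').prod_right_ae] with a ha
  rw [integral_prod _ ha, ← inner_conj_symm, Tr.eq_1 κ0, ← integral_inner (hg.int h0 (h.int a)),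
    ← integral_conj]
  refine integral_congr_ae (.of_forall fun x => ?_)
  simp only [inner_conj_symm]
  rw [Tr, ← integral_inner (hg.int hκ' (h.int a))]
  simp only [inner_smul_left, inner_smul_right, e, mul_assoc, mul_left_comm]

lemma fb_eq (h : Nice μ P) (hg : Bm g B) (hκ : Ker κ) (hκ' : Ker κ') :
    ∫ p : ℂ × ℂ × ℂ, κ (p.1 - p.2.1) * κ' (p.2.2 - p.2.1) * ⟪g p.2.1, g p.2.2⟫_ℂ
      ∂(σ.prod (μ.prod μ)) = ∫ x, Tr κ σ (fun _ => (1 : ℂ)) x * ⟪g x, Tr κ' μ g x⟫_ℂ ∂μ := by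
  have hb := hg.tr hκ' h
  have i : Integrable (fun p : ℂ × ℂ => κ (p.1 - p.2) * ⟪g p.2, Tr κ' μ g p.2⟫_ℂ) (σ.prod μ) := by
    refine (h.int2.mul_const (B * (P * B))).mono' ((hκ.m.comp (by fun_prop)).stronglyMeasurable.mul
      ((hg.m.inner hb.m).comp_measurable measurable_snd)).aestronglyMeasurable
      (.of_forall fun p => ?_)
    rw [norm_mul]
    exact mul_le_mul (hκ.le _) ((norm_inner_le_norm _ _).trans (mul_le_mul (hg.le _) (hb.le _)
      (norm_nonneg _) hg.nonneg)) (norm_nonneg _) (by positivity)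
  rw [integral_prod _ (fb_int h hg hκ hκ')]
  trans ∫ a, ∫ x, κ (a - x) * ⟪g x, Tr κ' μ g x⟫_ℂ ∂μ ∂σ
  · refine integral_congr_ae ?_
    filter_upwards [(fb_int (σ := σ) h hg hκ hκ').prod_right_ae] with a ha
    rw [integral_prod _ ha]
    refine integral_congr_ae (.of_forall fun x => ?_)
    simp only
    rw [Tr, ← integral_inner (hg.int hκ' (h.int x)), ← integral_const_mul]
    simp only [inner_smul_right, mul_assoc]
  · rw [integral_integral_swap i]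
    simp only [integral_mul_const, Tr, smul_eq_mul, mul_one]

lemma mp_swap : MeasurePreserving (fun p : ℂ × ℂ × ℂ => (p.1, p.2.swap)) (σ.prod (μ.prod μ))
    (σ.prod (μ.prod μ)) :=
  (MeasurePreserving.id σ).prod Measure.measurePreserving_swap

lemma int_swap {V : Type*} [NormedAddCommGroup V] [NormedSpace ℝ V] {f : ℂ × ℂ × ℂ → V}
    (hf : Integrable f (σ.prod (μ.prod μ))) :
    Integrable (fun p : ℂ × ℂ × ℂ => f (p.1, p.2.swap)) (σ.prod (μ.prod μ)) ∧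
    ∫ p : ℂ × ℂ × ℂ, f (p.1, p.2.swap) ∂(σ.prod (μ.prod μ)) = ∫ p, f p ∂(σ.prod (μ.prod μ)) :=
  ⟨mp_swap.integrable_comp_of_integrable hf, mp_swap.integral_comp'
    (f := (MeasurableEquiv.refl ℂ).prodCongr MeasurableEquiv.prodComm) f⟩

omit [IsFiniteMeasure σ] in
lemma Cb_one (x : ℂ) : Cb σ (fun _ => (1 : ℂ)) x = conj (Cf σ (fun _ => (1 : ℂ)) x) := by
  simp only [Tr, smul_eq_mul, mul_one, ← integral_conj, map_inv₀]

lemma mel_aux (h : Nice μ P) (hg : Bm g B) :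
    Integrable (fun p : ℂ × ℂ × ℂ => cv p.1 p.2.1 p.2.2 * (⟪g p.2.1, g p.2.2⟫_ℂ).re)
      (σ.prod (μ.prod μ)) ∧
    ∫ p : ℂ × ℂ × ℂ, cv p.1 p.2.1 p.2.2 * (⟪g p.2.1, g p.2.2⟫_ℂ).re ∂(σ.prod (μ.prod μ)) =
      ∫ a, (‖Cf μ g a‖ ^ 2 + ‖Cb μ g a‖ ^ 2) ∂σ +
      2 * (∫ x, Cf σ (fun _ => (1 : ℂ)) x * ⟪g x, Cb μ g x⟫_ℂ ∂μ +
        ∫ x, conj (Cf σ (fun _ => (1 : ℂ)) x) * ⟪g x, Cf μ g x⟫_ℂ ∂μ).re := by
  have i1 := fa_int (σ := σ) h hg ker_inv ker_conj
  have i2 := fa_int (σ := σ) h hg ker_conj ker_inv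
  have i3 := fb_int (σ := σ) h hg ker_inv ker_conj
  have i4 := fb_int (σ := σ) h hg ker_conj ker_inv
  have e1 := fa_eq (σ := σ) h hg ker_inv ker_conj ker_conj fun w => by simp
  have e2 := fa_eq (σ := σ) h hg ker_conj ker_inv ker_inv fun w => by simp
  have e3 := fb_eq (σ := σ) h hg ker_inv ker_conj
  have e4 := fb_eq (σ := σ) h hg ker_conj ker_inv
  have j1 := (i1.add i2).re
  have j2 := (i3.add i4).re
  obtain ⟨j3, e5⟩ := int_swap j2
  have key : ∀ {f f1 f2 f3 : ℂ × ℂ × ℂ → ℝ} {m : Measure (ℂ × ℂ × ℂ)}, Integrable f1 m →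
      Integrable f2 m → Integrable f3 m → (∀ᵐ p ∂m, f p = f1 p + f2 p + f3 p) →
      Integrable f m ∧ ∫ p, f p ∂m = ∫ p, f1 p ∂m + ∫ p, f2 p ∂m + ∫ p, f3 p ∂m :=
    fun a b c d => ⟨((a.add b).add c).congr (EventuallyEq.symm d), by
      rw [integral_congr_ae d, integral_add (by exact a.add b) c, integral_add a b]⟩
  refine And.imp_right (fun k => ?_) (key j1 j2 j3 ?_)
  · rw [k, e5,
      integral_re (i1.add i2), integral_re (i3.add i4), integral_add' i1 i2, integral_add' i3 i4,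
      e1, e2, e3, e4]
    have a1 := hg.tr ker_inv h
    have a2 := hg.tr ker_conj h
    have b : ∀ {f : ℂ → G}, Bm f (P * B) → Integrable (fun a => ‖f a‖ ^ 2) σ := fun hf =>
      .of_bound (hf.m.norm.pow 2).aestronglyMeasurable ((P * B) ^ 2) (.of_forall fun a => by
        rw [norm_pow, norm_norm]
        exact pow_le_pow_left₀ (norm_nonneg _) (hf.le a) 2)
    simp only [inner_self_eq_norm_sq_to_K, Cb_one, RCLike.re_to_complex, Complex.coe_algebraMap,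
      ← Complex.ofReal_pow, integral_complex_ofReal, Complex.add_re, Complex.ofReal_re]
    rw [integral_add (b a1) (b a2)]
    ring
  filter_upwards [h.ae3] with p hp
  have := cv_eq hp.1 hp.2.1 hp.2.2
  have r : ∀ s t z : ℂ, (s⁻¹ * (conj t)⁻¹ * z + (conj s)⁻¹ * t⁻¹ * z).re =
      (s⁻¹ * (conj t)⁻¹ + (conj s)⁻¹ * t⁻¹).re * z.re := fun s t z => by
    have : (conj s)⁻¹ * t⁻¹ = conj (s⁻¹ * (conj t)⁻¹) := by simp
    rw [← add_mul, this, Complex.add_conj, Complex.re_ofReal_mul, Complex.ofReal_re]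
  simp only [Pi.add_apply, RCLike.re_to_complex, Prod.fst_swap, Prod.snd_swap, r]
  rw [← inner_conj_symm (g p.2.2), Complex.conj_re, ← add_mul, ← add_mul, ← Complex.add_re,
    ← Complex.add_re, ← this, Complex.ofReal_re]

lemma Nice.int_cv (h : Nice μ P) :
    Integrable (fun p : ℂ × ℂ × ℂ => cv p.1 p.2.1 p.2.2) (σ.prod (μ.prod μ)) := by
  simpa using (mel_aux (σ := σ) h bm_one).1

lemma Nice.cv_eq (h : Nice μ P) : ENNReal.ofReal (∫ p : ℂ × ℂ × ℂ, cv p.1 p.2.1 p.2.2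
    ∂(σ.prod (μ.prod μ))) = ∫⁻ a, cur μ a ∂σ := by
  rw [ofReal_integral_eq_lintegral_ofReal h.int_cv (.of_forall fun _ => cv_nonneg _ _ _),
    lintegral_prod _ measurable_cv.ennreal_ofReal.aemeasurable]
  rfl

lemma Nice.tot (h : Nice μ P) : ∫ p : ℂ × ℂ × ℂ, cv p.1 p.2.1 p.2.2 ∂(μ.prod (μ.prod μ)) =
    6 * ∫ a, ‖Cf μ (fun _ => (1 : ℂ)) a‖ ^ 2 ∂μ := by
  have := (mel_aux (σ := μ) h bm_one).2
  simp only [Cb_one, RCLike.inner_apply, map_one, mul_one, Complex.one_re, Complex.mul_conj',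
    Complex.conj_mul', ← Complex.ofReal_pow, integral_complex_ofReal,
    Complex.norm_conj, ← two_mul, integral_const_mul] at this
  rw [this]
  simp
  ring

lemma Nice.hol (h : Nice μ P) : ∫ a, Cf μ (fun _ => (1 : ℂ)) a ^ 2 ∂μ = 0 := by
  have i1 := fa_int (σ := μ) h bm_one ker_inv ker_inv
  have i2 := fb_int (σ := μ) h bm_one ker_inv ker_inv
  have e1 := fa_eq (σ := μ) h bm_one ker_inv ker_inv ker_conj fun w => by simp
  have e2 := fb_eq (σ := μ) h bm_one ker_inv ker_inv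
  obtain ⟨i3, e3⟩ := int_swap i2
  have := integral_add' (i1.add i2) i3
  rw [integral_add' i1 i2, e3, e1, e2, integral_eq_zero_of_ae] at this
  · simp only [Cb_one, RCLike.inner_apply, map_one, mul_one, Complex.conj_conj, ← sq] at this
    linear_combination -this / 3
  filter_upwards [h.ae3] with p hp
  simpa using hol_eq hp.1 hp.2.1 hp.2.2

/-- The Melnikov inequality. -/
theorem mel (h : Nice μ P) (hg : Bm g B) :
    ∫ a, (‖Cf μ g a‖ ^ 2 + ‖Cb μ g a‖ ^ 2) ∂σ ≤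
      B ^ 2 * ∫ p : ℂ × ℂ × ℂ, cv p.1 p.2.1 p.2.2 ∂(σ.prod (μ.prod μ)) +
      2 * B * ∫ x, ‖Cf σ (fun _ => (1 : ℂ)) x‖ * (‖Cf μ g x‖ + ‖Cb μ g x‖) ∂μ := by
  obtain ⟨i, e⟩ := mel_aux (σ := σ) h hg
  have h1 : ∫ p : ℂ × ℂ × ℂ, cv p.1 p.2.1 p.2.2 * (⟪g p.2.1, g p.2.2⟫_ℂ).re ∂(σ.prod (μ.prod μ)) ≤
      B ^ 2 * ∫ p : ℂ × ℂ × ℂ, cv p.1 p.2.1 p.2.2 ∂(σ.prod (μ.prod μ)) := by
    rw [← integral_const_mul]
    refine integral_mono i (h.int_cv.const_mul _) fun p => ?_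
    simp only
    rw [mul_comm, sq]
    exact mul_le_mul_of_nonneg_right ((Complex.re_le_norm _).trans (hg.inner_le _ _)) (cv_nonneg _ _ _)
  have s : Integrable (fun x => ‖Cf σ (fun _ => (1 : ℂ)) x‖) μ :=
    (bm_one.int2 ker_inv h).integral_prod_left.norm
  have j : ∀ {f : ℂ → G}, Bm f (P * B) → Integrable (fun x => ‖Cf σ (fun _ => (1 : ℂ)) x‖ * ‖f x‖) μ :=
    fun hf => s.mul_bdd hf.m.norm.aestronglyMeasurable (c := P * B)
      (.of_forall fun x => by simpa using hf.le x)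
  have k : ∀ {f : ℂ → G} (c : ℂ → ℂ), Bm f (P * B) → (∀ x, ‖c x‖ = ‖Cf σ (fun _ => (1 : ℂ)) x‖) →
      ‖∫ x, c x * ⟪g x, f x⟫_ℂ ∂μ‖ ≤ B * ∫ x, ‖Cf σ (fun _ => (1 : ℂ)) x‖ * ‖f x‖ ∂μ :=
    fun c hf hc => by
    rw [← integral_const_mul]
    refine norm_integral_le_of_norm_le ((j hf).const_mul B) (.of_forall fun x => ?_)
    rw [norm_mul, hc, mul_left_comm]
    exact mul_le_mul_of_nonneg_left ((norm_inner_le_norm _ _).trans
      (mul_le_mul_of_nonneg_right (hg.le _) (norm_nonneg _))) (norm_nonneg _)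
  have k1 := k _ (hg.tr ker_conj h) fun _ => rfl
  have k2 := k (fun x => conj (Cf σ (fun _ => (1 : ℂ)) x)) (hg.tr ker_inv h) fun _ => by simp
  simp only [mul_add]
  rw [integral_add (j (hg.tr ker_inv h)) (j (hg.tr ker_conj h))]
  have := (neg_le_of_abs_le (Complex.abs_re_le_norm _)).trans' (neg_le_neg (norm_add_le_of_le k1 k2))
  linarith

end

end Pool.Agent.Lib.MP_45cb44_an.TC
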