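import Mathlib

/-! Coverings of a continuum under its Lipschitz envelope. -/

namespace Pool.Agent.Lib.MP_45cb44_an.TC

open MeasureTheory Metric Set Filter Topology
open scoped ENNReal NNReal Real ComplexConjugate InnerProductSpace

lemma flank {A : ℝ → ℝ} (hA : Continuous A) {M a y ρ : ℝ} (hM : 0 < M) (hρ : 0 < ρ) :
    volume {x | x < a ∧ (∃ e > 0, ∀ s ∈ Icc x (x + e), A x + M * (s - x) ≤ A s) ∧ |A x - y| ≤ ρ ∧
      ∀ s ∈ Ioc x a, A x < A s} ≤ ENNReal.ofReal (3 * ρ / M) := by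
  let g : ℝ → ℝ := fun x => max (y - ρ) (min (sInf (A '' Icc (min x a) a)) (y + 2 * ρ))
  have bd : ∀ x, BddBelow (A '' Icc x a) := fun x => (isCompact_Icc.image hA).bddBelow
  have hg : Monotone g := fun x x' h => max_le_max le_rfl (min_le_min_right _ (csInf_le_csInf (bd _)
    ((nonempty_Icc.2 (min_le_right _ _)).image _)
    (image_mono (Icc_subset_Icc_left (min_le_min_right _ h)))))
  let F := hg.stieltjesFunction
  have tot : F.measure univ ≤ ENNReal.ofReal (3 * ρ) := by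
    have u : ⋃ n : ℕ, Ioc (-n : ℝ) n = univ := eq_univ_of_forall fun x => by
      obtain ⟨n, hn⟩ := exists_nat_gt |x|
      exact mem_iUnion.2 ⟨n, (abs_lt.1 hn).1, (abs_lt.1 hn).2.le⟩
    rw [← u, Monotone.measure_iUnion fun m n h =>
      Ioc_subset_Ioc (neg_le_neg (Nat.cast_le.2 h)) (Nat.cast_le.2 h)]
    refine iSup_le fun n => (F.measure_Ioc _ _).trans_le (ENNReal.ofReal_le_ofReal ?_)
    have h1 : F n ≤ y + 2 * ρ := (hg.rightLim_le (lt_add_one _)).trans
      (max_le (by linarith) (min_le_right _ _))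
    have h2 : y - ρ ≤ F (-n) := (le_max_left _ _).trans (hg.le_rightLim le_rfl)
    linarith
  rw [ENNReal.ofReal_div_of_pos hM, ENNReal.le_div_iff_mul_le (by simp [hM]) (by simp),
    mul_comm _ (ENNReal.ofReal M)]
  refine ((IsUnifLocDoublingMeasure.vitaliFamily (volume : Measure ℝ) 1).measure_le_of_frequently_le
    (ρ := ENNReal.ofReal M • volume) F.measure Measure.smul_absolutelyContinuous _ ?_).trans
    ((measure_mono (subset_univ _)).trans tot)
  rintro x ⟨h1, ⟨e, e0, h2⟩, h3, h4⟩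
  refine (Real.tendsto_Icc_vitaliFamily_right x).frequently (Eventually.frequently ?_)
  obtain ⟨m, hm, h5⟩ := (isCompact_Icc (a := min (x + e) a) (b := a)).exists_isMinOn
    (nonempty_Icc.2 (min_le_right _ _)) hA.continuousOn
  have h6 := h4 m ⟨(lt_min (by linarith) h1).trans_le hm.1, hm.2⟩
  have t : Tendsto (fun s => M * (s - x)) (𝓝[>] x) (𝓝 0) :=
    (Continuous.tendsto' (by fun_prop) _ _ (by simp)).mono_left nhdsWithin_le_nhds
  filter_upwards [Ioo_mem_nhdsGT h1, t.eventually (gt_mem_nhds hρ),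
    t.eventually (gt_mem_nhds (sub_pos.2 h6))] with s hs s1 s2
  rw [F.measure_Icc, Measure.smul_apply, Real.volume_Icc, smul_eq_mul,
    ← ENNReal.ofReal_mul hM.le]
  refine ENNReal.ofReal_le_ofReal ?_
  rw [abs_le] at h3
  have a1 : Function.leftLim F x ≤ A x := by
    refine le_of_tendsto (F.mono.tendsto_leftLim x) (eventually_nhdsWithin_of_forall fun w hw =>
      (hg.rightLim_le hw).trans (max_le (by linarith) ((min_le_left _ _).trans ?_)))
    exact csInf_le (bd _) (mem_image_of_mem _ ⟨min_le_left _ _, h1.le⟩)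
  have a2 : A x + M * (s - x) ≤ F s := by
    refine le_trans (le_max_of_le_right (le_min ?_ (by linarith))) (hg.le_rightLim le_rfl)
    refine le_csInf ((nonempty_Icc.2 (min_le_right _ _)).image _) ?_
    rintro _ ⟨w, hw, rfl⟩
    rw [min_eq_left hs.2.le] at hw
    rcases le_total w (x + e) with h7 | h7
    · nlinarith [h2 w ⟨hs.1.le.trans hw.1, h7⟩, hw.1]
    · have : A m ≤ A w := h5 ⟨(min_le_left _ _).trans h7, hw.2⟩
      linarith
  linarith

/-- `A` is the upper `M`-Lipschitz envelope of `K`. -/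
structure Env (K : Set ℂ) (M : ℝ) (A : ℝ → ℝ) : Prop where
  lip : ∀ x y, |A x - A y| ≤ M * |x - y|
  le : ∀ k ∈ K, k.im ≤ A k.re
  ex : ∀ x, ∃ k ∈ K, A x = k.im - M * |x - k.re|

lemma exists_env {K : Set ℂ} (hK : IsCompact K) (h0 : K.Nonempty) {M : ℝ} (hM : 0 ≤ M) :
    ∃ A, Env K M A := by
  choose k hk h using fun x : ℝ => hK.exists_isMaxOn h0 (f := fun k => k.im - M * |x - k.re|)
    (by fun_prop)
  have a : ∀ x y, ((k x).im - M * |x - (k x).re|) - ((k y).im - M * |y - (k y).re|) ≤ M * |x - y| :=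
    fun x y => by
    have h1 : (k x).im - M * |y - (k x).re| ≤ _ := h y (hk x)
    have h2 := mul_le_mul_of_nonneg_left (abs_sub_le y x (k x).re) hM
    rw [abs_sub_comm y x] at h2
    linarith
  refine ⟨fun x => (k x).im - M * |x - (k x).re|, fun x y => abs_sub_le_iff.2 ⟨a x y, ?_⟩,
    fun w hw => by simpa using (show w.im - M * |w.re - w.re| ≤ _ from h w.re hw),
    fun x => ⟨_, hk x, rfl⟩⟩
  rw [abs_sub_comm x y]
  exact a y x

variable {K : Set ℂ} {M d : ℝ} {A : ℝ → ℝ}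

lemma Env.cont (e : Env K M A) (hM : 0 ≤ M) : Continuous A :=
  (LipschitzWith.of_dist_le_mul (K := ⟨M, hM⟩) e.lip).continuous

lemma Env.half (e : Env K M A) (hK : IsPreconnected K) (hM : 0 < M) {ι : Type*} (c : ι → ℂ)
    (ρ : ι → ℝ) (U : ι → Prop) (hρ : ∀ i, 0 < ρ i) (hc : ∀ k ∈ K, ∃ i, k ∈ closedBall (c i) (ρ i))
    (hU : ∀ i, U i → ∀ w ∈ closedBall (c i) (ρ i), w.im < A w.re) :
    ∃ S : ι → Set ℝ, (∀ i, volume (S i) ≤ ENNReal.ofReal (3 * ρ i / M)) ∧
      ∀ x, (∃ k ∈ K, k.re ≤ x) → (∃ k ∈ K, x ≤ k.re ∧ A x = k.im - M * |x - k.re|) →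
        ∃ i, x ∈ S i ∨ ¬U i ∧ |x - (c i).re| ≤ 2 * ρ i := by
  classical
  have hA := e.cont hM.le
  refine ⟨_, fun i => flank hA (a := if U i then (c i).re else (c i).re - 2 * ρ i) (y := (c i).im)
    hM (hρ i), ?_⟩
  rintro x ⟨k1, h1, h2⟩ ⟨k0, h3, h4, h5⟩
  have re : ∀ {i p}, p ∈ closedBall (c i) (ρ i) → |p.re - (c i).re| ≤ ρ i ∧ |p.im - (c i).im| ≤ ρ i :=
    fun hp => ⟨(Complex.abs_re_le_norm (_ - _)).trans (mem_closedBall_iff_norm.1 hp),
      (Complex.abs_im_le_norm (_ - _)).trans (mem_closedBall_iff_norm.1 hp)⟩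
  by_cases h6 : ∃ p ∈ K, p.re = x ∧ p.im = A x
  · obtain ⟨p, hp, rfl, h7⟩ := h6
    obtain ⟨i, hi⟩ := hc p hp
    exact ⟨i, Or.inr ⟨fun u => (hU i u p hi).ne h7, by linarith [(re hi).1, hρ i]⟩⟩
  have h7 : x < k0.re := h4.lt_of_ne fun h => h6 ⟨k0, h3, h.symm, by simp [h5, ← h]⟩
  rw [abs_sub_comm, abs_of_pos (sub_pos.2 h7)] at h5
  have rise : ∀ s ∈ Icc x k0.re, A x + M * (s - x) ≤ A s := fun s hs => by
    have := (abs_le.1 (e.lip k0.re s)).2
    rw [abs_of_nonneg (sub_nonneg.2 hs.2)] at this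
    linarith [e.le k0 h3]
  let W := Complex.re ⁻¹' {r | x < r ∧ ∀ s ∈ Ioc x r, A x < A s} ∩ {w | A x < w.im}
  have oW : IsOpen W := by
    refine (IsOpen.preimage Complex.continuous_re (isOpen_iff_mem_nhds.2 fun r hr => ?_)).inter
      (isOpen_lt continuous_const Complex.continuous_im)
    obtain ⟨δ, δ0, hδ⟩ := Metric.eventually_nhds_iff.1
      (hA.continuousAt.eventually (lt_mem_nhds (hr.2 r ⟨hr.1, le_rfl⟩)))
    filter_upwards [Ioo_mem_nhds hr.1 (lt_add_of_pos_right r δ0)] with r' h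
    refine ⟨h.1, fun s hs => (le_total s r).elim (fun h8 => hr.2 s ⟨hs.1, h8⟩) fun h8 => hδ ?_⟩
    rw [Real.dist_eq, abs_of_nonneg (sub_nonneg.2 h8)]
    linarith [hs.2, h.2]
  obtain ⟨p, ⟨p1, p2⟩, p3⟩ := not_subset.1 fun h => (hK.subset_of_closure_inter_subset oW
    ⟨k0, h3, ⟨h7, fun s hs => by nlinarith [rise s ⟨hs.1.le, hs.2⟩, hs.1]⟩,
      show A x < k0.im by nlinarith⟩ h h1).1.1.not_ge h2
  have q1 : x ≤ p.re := closure_minimal (fun w hw => hw.1.1.le)
    (isClosed_le continuous_const Complex.continuous_re) p1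
  have q2 : A x ≤ p.im := closure_minimal (fun w hw => le_of_lt hw.2)
    (isClosed_le continuous_const Complex.continuous_im) p1
  have q3 : ∀ s ∈ Ioo x p.re, A x < A s := fun s hs => by
    obtain ⟨w, w1, w2⟩ := mem_closure_iff.1 p1 _ (isOpen_lt continuous_const Complex.continuous_re) hs.2
    exact w2.1.2 s ⟨hs.1, le_of_lt w1⟩
  have q4 := e.le p p2
  have q5 : x < p.re := q1.lt_of_ne fun h => h6 ⟨p, p2, h.symm, le_antisymm (h ▸ q4) q2⟩
  have q6 : p.im = A x := le_antisymm (not_lt.1 fun h => p3 ⟨⟨q5, fun s hs =>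
    hs.2.eq_or_lt.elim (fun h8 => h8 ▸ h.trans_le q4) fun h8 => q3 s ⟨hs.1, h8⟩⟩, h⟩) q2
  obtain ⟨i, hi⟩ := hc p p2
  have r1 := abs_le.1 (re hi).1
  have r0 := hρ i
  have r2 : ∃ e > 0, ∀ s ∈ Icc x (x + e), A x + M * (s - x) ≤ A s :=
    ⟨k0.re - x, sub_pos.2 h7, by simpa using rise⟩
  refine ⟨i, ?_⟩
  by_cases u : U i
  · have ch : ∀ s, |s - (c i).re| ≤ |p.re - (c i).re| → A x < A s := fun s hs => by
      have := hU i u ⟨s, p.im⟩ (by
        rw [mem_closedBall_iff_norm] at hi ⊢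
        refine le_trans ?_ hi
        rw [← sq_le_sq₀ (norm_nonneg _) (norm_nonneg _), Complex.sq_norm, Complex.sq_norm,
          Complex.normSq_apply, Complex.normSq_apply]
        simpa [← sq, sq_le_sq] using hs)
      rwa [q6] at this
    have h8 : x < (c i).re := not_le.1 fun h => (ch x (by
      rw [abs_of_nonneg (by linarith), abs_of_nonneg (by linarith)]; linarith)).false
    refine Or.inl ⟨by rwa [if_pos u], r2, q6 ▸ (re hi).2, fun s hs => ?_⟩
    rw [if_pos u] at hs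
    refine (lt_or_ge s p.re).elim (fun h => q3 s ⟨hs.1, h⟩) fun h => ch s ?_
    rw [abs_of_nonpos (by linarith [hs.2]), abs_of_nonpos (by linarith [hs.2])]
    linarith
  · by_cases h8 : x < (c i).re - 2 * ρ i
    · refine Or.inl ⟨by rwa [if_neg u], r2, q6 ▸ (re hi).2, fun s hs => q3 s ⟨hs.1, ?_⟩⟩
      rw [if_neg u] at hs
      linarith [hs.2]
    · exact Or.inr ⟨u, abs_le.2 ⟨by linarith, by linarith⟩⟩

theorem geo {K : Set ℂ} {M d : ℝ} {A : ℝ → ℝ} (hK : IsPreconnected K) (h0 : (0 : ℂ) ∈ K)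
    (hd : (d : ℂ) ∈ K) (hM : 6 ≤ M) (e : Env K M A) {ι : Type*} [Countable ι] (c : ι → ℂ)
    (ρ : ι → ℝ) (ℓ : ι → ℝ) (hρ : ∀ i, 0 < ρ i) (hc : ∀ k ∈ K, ∃ i, k ∈ closedBall (c i) (ρ i))
    (h : ∀ i, 5 * ρ i ≤ ℓ i ∨ 6 / M * ρ i ≤ ℓ i ∧ ∀ w ∈ closedBall (c i) (ρ i), w.im < A w.re) :
    ENNReal.ofReal d ≤ ∑' i, ENNReal.ofReal (ℓ i) := by
  have M0 : 0 < M := by linarith
  let U : ι → Prop := fun i => ∀ w ∈ closedBall (c i) (ρ i), w.im < A w.re
  have bl : ∀ (w z : ℂ) (r : ℝ), -conj w ∈ closedBall (-conj z) r ↔ w ∈ closedBall z r :=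
    fun w z r => by simp [Complex.dist_conj_conj]
  have e' : Env ((fun w => -conj w) '' K) M fun x => A (-x) :=
    ⟨fun x y => by simpa [abs_sub_comm, neg_add_eq_sub] using e.lip (-x) (-y), by
      rintro _ ⟨k, hk, rfl⟩; simpa using e.le k hk, fun x => by
      obtain ⟨k, hk, h⟩ := e.ex (-x)
      refine ⟨_, mem_image_of_mem _ hk, ?_⟩
      rw [h, ← abs_neg]
      simp [add_comm]⟩
  obtain ⟨S, s1, s2⟩ := e.half hK M0 c ρ U hρ hc fun _ h => h
  obtain ⟨T, t1, t2⟩ := e'.half (hK.image _ (by fun_prop)) M0 (fun i => -conj (c i)) ρ U hρ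
    (by rintro _ ⟨k, hk, rfl⟩; simpa only [bl] using hc k hk)
    fun i h w hw => by simpa using h (-conj w) ((bl _ _ _).1 (by simpa using hw))
  have sub : Icc 0 d ⊆ ⋃ i, S i ∪ -T i ∪ {x | ¬U i ∧ |x - (c i).re| ≤ 2 * ρ i} := fun x hx => by
    obtain ⟨k, hk, h1⟩ := e.ex x
    rcases le_total x k.re with h2 | h2
    · obtain ⟨i, hi⟩ := s2 x ⟨0, h0, hx.1⟩ ⟨k, hk, h2, h1⟩
      exact mem_iUnion.2 ⟨i, hi.imp_left Or.inl⟩
    · obtain ⟨i, hi⟩ := t2 (-x) ⟨_, mem_image_of_mem _ hd, by simpa using hx.2⟩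
        ⟨_, mem_image_of_mem _ hk, by simpa using h2, by
          rw [neg_neg, h1, ← abs_neg]; simp [neg_add_eq_sub]⟩
      refine mem_iUnion.2 ⟨i, hi.imp Or.inr fun h => ⟨h.1, ?_⟩⟩
      rw [← abs_neg]
      simpa [neg_add_eq_sub] using h.2
  rw [← sub_zero d, ← Real.volume_Icc]
  refine (measure_mono sub).trans ((measure_iUnion_le _).trans (ENNReal.tsum_le_tsum fun i => ?_))
  have r0 := hρ i
  have a : volume (S i ∪ -T i) ≤ ENNReal.ofReal (6 / M * ρ i) := by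
    refine (measure_union_le _ _).trans ((add_le_add (s1 i) ((Measure.measure_neg _ _).trans_le
      (t1 i))).trans_eq ?_)
    rw [← ENNReal.ofReal_add (by positivity) (by positivity)]
    congr 1
    ring
  rcases h i with h1 | h1
  · refine (measure_union_le _ _).trans ((add_le_add a (measure_mono (t := closedBall (c i).re (2 * ρ i))
      fun x hx => hx.2)).trans ?_)
    rw [Real.volume_closedBall, ← ENNReal.ofReal_add (by positivity) (by positivity)]
    have := mul_le_of_le_one_left r0.le ((div_le_one M0).2 hM)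
    exact ENNReal.ofReal_le_ofReal (by linarith)
  · refine (measure_mono fun x hx => hx.resolve_right fun h => h.1 h1.2).trans
      (a.trans (ENNReal.ofReal_le_ofReal h1.1))

end Pool.Agent.Lib.MP_45cb44_an.TC
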