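import Pool.Agent.Lib.MP_45cb44_an.Dual

/-! Duality for Hilbert space valued functions. -/

namespace Pool.Agent.Lib.MP_45cb44_an.TC

open MeasureTheory Metric Set Filter Topology ContinuousLinearMap
open scoped ENNReal NNReal Real ComplexConjugate InnerProductSpace

lemma exists_Linf {G : Type*} [NormedAddCommGroup G] [InnerProductSpace ℂ G] [CompleteSpace G]
    {α : Type*} [MeasurableSpace α] (m : Measure α) [IsFiniteMeasure m]
    {V : Type*} [AddCommGroup V] [Module ℂ V] (e : V →ₗ[ℂ] Lp G 2 m) (l : V →ₗ[ℂ] ℂ) {C : ℝ}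
    (hC : 0 ≤ C) (h : ∀ v, ‖l v‖ ≤ C * ∫ x, ‖e v x‖ ∂m) :
    ∃ k : α → G, StronglyMeasurable k ∧ (∀ x, ‖k x‖ ≤ C) ∧ ∀ v, ∫ x, ⟪k x, e v x⟫_ℂ ∂m = l v := by
  have i : ∀ g : Lp G 2 m, Integrable g m := fun g => (Lp.memLp g).integrable one_le_two
  let p : Seminorm ℂ (Lp G 2 m) := .of (fun g => C * ∫ x, ‖g x‖ ∂m) (fun g g' => by
      rw [← mul_add, ← integral_add (i g).norm (i g').norm]
      refine mul_le_mul_of_nonneg_left (integral_mono_ae (i _).norm ((i g).norm.add (i g').norm) ?_)
        hC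
      filter_upwards [Lp.coeFn_add g g'] with x hx
      rw [hx]; exact norm_add_le _ _)
    fun a g => by
      rw [mul_left_comm, ← integral_const_mul ‖a‖]
      congr 1
      refine integral_congr_ae ?_
      filter_upwards [Lp.coeFn_smul a g] with x hx
      rw [hx, Pi.smul_apply, norm_smul]
  have hk : LinearMap.ker e ≤ LinearMap.ker l := fun v hv => by
    have := h v
    rw [LinearMap.mem_ker.1 hv, integral_congr_ae (g := fun _ => 0) (by
      filter_upwards [Lp.coeFn_zero G 2 m] with x hx; rw [hx]; simp)] at this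
    simpa using this
  obtain ⟨g, hg, hp⟩ := Module.Dual.exists_extension_of_le_seminorm (LinearMap.range e)
    (((LinearMap.ker e).liftQ l hk).comp e.quotKerEquivRange.symm.toLinearMap) (p := p) (by
      rintro ⟨_, v, rfl⟩
      refine le_trans (le_of_eq ?_) (h v)
      simp [LinearMap.quotKerEquivRange_symm_apply_image])
  have hb : ∀ y, ‖g y‖ ≤ C * (m univ ^ (1 / 2 : ℝ)).toReal * ‖y‖ := fun y => by
    refine (hp y).trans ?_
    rw [mul_assoc]
    refine mul_le_mul_of_nonneg_left ?_ hC
    have := eLpNorm_le_eLpNorm_mul_rpow_measure_univ (μ := m) one_le_two (Lp.aestronglyMeasurable y)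
    rw [integral_norm_eq_lintegral_enorm (Lp.aestronglyMeasurable y), Lp.norm_def,
      ← ENNReal.toReal_mul, ← eLpNorm_one_eq_lintegral_enorm, mul_comm]
    refine ENNReal.toReal_mono (ENNReal.mul_ne_top (Lp.eLpNorm_ne_top y) (by finiteness)) ?_
    convert this
    norm_num
  set k := (InnerProductSpace.toDual ℂ _).symm (g.mkContinuous _ hb)
  have e1 : ∀ y : Lp G 2 m, ∫ x, ⟪k x, y x⟫_ℂ ∂m = g y := fun y => by
    have := InnerProductSpace.toDual_symm_apply (𝕜 := ℂ) (x := y) (y := g.mkContinuous _ hb)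
    rwa [L2.inner_def] at this
  have mk := Lp.stronglyMeasurable k
  have mA : MeasurableSet {x | C < ‖k x‖} := measurableSet_lt measurable_const mk.norm.measurable
  have ae : ∀ᵐ x ∂m, ‖k x‖ ≤ C := by
    have h1 := (Lp.memLp k).indicator mA
    have h2 := hp h1.toLp
    rw [← e1, integral_congr_ae (g := indicator {x | C < ‖k x‖} fun x => ((‖k x‖ ^ 2 : ℝ) : ℂ)) (by
      filter_upwards [h1.coeFn_toLp] with x hx
      rw [hx]
      by_cases h : C < ‖k x‖ <;> simp [h, inner_self_eq_norm_sq_to_K]), integral_indicator mA,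
      integral_complex_ofReal, Complex.norm_real] at h2
    have h3 : p h1.toLp = ∫ x in {x | C < ‖k x‖}, C * ‖k x‖ ∂m := by
      rw [integral_const_mul, ← integral_indicator mA]
      refine congrArg (C * ·) (integral_congr_ae ?_)
      filter_upwards [h1.coeFn_toLp] with x hx
      rw [hx, norm_indicator_eq_indicator_norm]
    have i2 : Integrable (fun x => ‖k x‖ ^ 2) m := (Lp.memLp k).integrable_norm_pow two_ne_zero
    have i3 := (i2.sub ((i k).norm.const_mul C)).integrableOn (s := {x | C < ‖k x‖})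
    have pos : ∀ᵐ x ∂m.restrict {x | C < ‖k x‖}, 0 < ‖k x‖ ^ 2 - C * ‖k x‖ := by
      filter_upwards [ae_restrict_mem mA] with x (hx : C < ‖k x‖)
      nlinarith
    have h4 := (setIntegral_eq_zero_iff_of_nonneg_ae (pos.mono fun x hx => hx.le) i3).1
      (le_antisymm (by
        rw [integral_sub i2.integrableOn ((i k).norm.const_mul C).integrableOn, ← h3]
        linarith [Real.le_norm_self (∫ x in {x | C < ‖k x‖}, ‖k x‖ ^ 2 ∂m)])
        (integral_nonneg_of_ae (pos.mono fun x hx => hx.le)))
    have h5 := (ae_restrict_iff' mA).1 (pos.and h4)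
    filter_upwards [h5] with x hx
    by_contra! h6
    exact (hx h6).1.ne' (hx h6).2
  refine ⟨indicator {x | C < ‖k x‖}ᶜ k, mk.indicator mA.compl, fun x => ?_, fun v => ?_⟩
  · by_cases h : C < ‖k x‖
    · simpa [h] using hC
    · simpa [h] using not_lt.1 h
  · have := hg ⟨e v, v, rfl⟩
    simp only [LinearMap.comp_apply, LinearEquiv.coe_coe,
      LinearMap.quotKerEquivRange_symm_apply_image, Submodule.mkQ_apply,
      Submodule.liftQ_apply] at this
    rw [← this, ← e1]
    refine integral_congr_ae ?_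
    filter_upwards [ae] with x hx
    simp [not_lt.2 hx]

end Pool.Agent.Lib.MP_45cb44_an.TC
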