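import Pool.Agent.Lib.MP_45cb44_an.TC.Mu
import Pool.Agent.Lib.MP_45cb44_an.TC.Linf

/-! The representing vector measure. -/

namespace Pool.Agent.Lib.MP_45cb44_an.TC

open MeasureTheory Metric Set Filter Topology ContinuousLinearMap
open scoped ENNReal NNReal Real ComplexConjugate InnerProductSpace BoundedContinuousFunction

variable {H : Type*} [NormedAddCommGroup H] [InnerProductSpace ℂ H] [CompleteSpace H]
  {N : H →L[ℂ] H}

lemma rep_int {μ : Measure ℂ} [IsFiniteMeasure μ] {f : ℂ → ℝ} (hf : Continuous f) {B : ℝ}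
    (h : ∀ z, ‖f z‖ ≤ B) : Integrable f μ :=
  .of_bound hf.aestronglyMeasurable B (.of_forall h)

lemma rep_coord {G : Type*} [NormedAddCommGroup G] [InnerProductSpace ℂ G] {Φ : ℂ → SQ G}
    (hΦ : Continuous Φ) (i : ℕ) : Continuous fun z => Φ z i :=
  (lp.evalCLM ℂ (fun _ : ℕ => G) 2 i).continuous.comp hΦ

lemma rep_key (hN : IsStarNormal N) {u w : SQ H} {μ ν : Measure ℂ} (hμ : IsMu N u μ)
    (hν : IsMu N w ν) {s : ℝ} (hs : 0 < s) {Φ : ℂ → SQ (SQ ℂ)} (hΦ : Continuous Φ) {B : ℝ}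
    (hB : ∀ z, ‖Φ z‖ ≤ B) (F : Finset ℕ) :
    ∑ i ∈ F, ‖⟪w i, Psi N u fun z => Φ z i⟫_ℂ‖ ≤
      s * ∫ z, ‖Φ z‖ ∂μ + s⁻¹ * ∫ z, ‖Φ z‖ ∂ν := by
  have := hμ.fin
  have := hν.fin
  have iμ : Integrable (fun z => ‖Φ z‖) μ := rep_int hΦ.norm fun z => by simpa using hB z
  have iν : Integrable (fun z => ‖Φ z‖) ν := rep_int hΦ.norm fun z => by simpa using hB z
  have key : ∀ ε : ℝ, 0 < ε → ∑ i ∈ F, ‖⟪w i, Psi N u fun z => Φ z i⟫_ℂ‖ ≤
      s * ∫ z, ‖Φ z‖ ∂μ + s⁻¹ * ∫ z, ‖Φ z‖ ∂ν + s⁻¹ * ν.real univ * ε := by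
    intro ε hε
    let r : ℂ → ℝ := fun z => √(‖Φ z‖ + ε)
    have r0 : ∀ z, 0 < r z := fun z => Real.sqrt_pos.2 (by positivity)
    have r2 : ∀ z, r z ^ 2 = ‖Φ z‖ + ε := fun z => Real.sq_sqrt (by positivity)
    have rc : Continuous r := (hΦ.norm.add continuous_const).sqrt
    let ρ : ℂ → ℂ := fun z => r z
    have ρc : Continuous ρ := Complex.continuous_ofReal.comp rc
    have ρ0 : ∀ z, ρ z ≠ 0 := fun z => Complex.ofReal_ne_zero.2 (r0 z).ne'
    have ρn : ∀ z, ‖ρ z‖ = r z := fun z => by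
      simp only [ρ, Complex.norm_real, Real.norm_of_nonneg (r0 z).le]
    let Ψ : ℂ → SQ (SQ ℂ) := fun z => (ρ z)⁻¹ • Φ z
    have Ψc : Continuous Ψ := (ρc.inv₀ ρ0).smul hΦ
    have Ψn : ∀ z, ‖Ψ z‖ ^ 2 ≤ ‖Φ z‖ := fun z => by
      simp only [Ψ, norm_smul, norm_inv, ρn, mul_pow, inv_pow, r2]
      rw [inv_mul_le_iff₀ (by positivity)]
      nlinarith [norm_nonneg (Φ z)]
    have Ψb : ∀ z, ‖Ψ z‖ ≤ √B := fun z =>
      Real.le_sqrt_of_sq_le ((Ψn z).trans (hB z))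
    have Ψi : ∀ i z, ‖Ψ z i‖ ≤ √B := fun i z =>
      (lp.norm_apply_le_norm two_ne_zero _ i).trans (Ψb z)
    have ii : ∀ i, Integrable (fun z => ‖Ψ z i‖ ^ 2) μ := fun i =>
      rep_int ((rep_coord Ψc i).norm.pow 2) (B := √B ^ 2) fun z => by
        rw [norm_pow, norm_norm]
        exact pow_le_pow_left₀ (norm_nonneg _) (Ψi i z) 2
    have sa : adjoint (cfc ρ N) = cfc ρ N := by
      rw [← star_eq_adjoint, ← cfc_star]
      simp only [ρ, Complex.star_def, Complex.conj_ofReal]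
    have h1 : ∀ i, ‖⟪w i, Psi N u fun z => Φ z i⟫_ℂ‖ ≤
        s * ‖Psi N u fun z => Ψ z i‖ ^ 2 + s⁻¹ * ‖cfc ρ N (w i)‖ ^ 2 := fun i => by
      have e : (fun z => Φ z i) = fun z => ρ z • Ψ z i := by
        funext z
        simp only [Ψ, lp.coeFn_smul, Pi.smul_apply, smul_inv_smul₀ (ρ0 z)]
      rw [e, psi_smul hN (rep_coord Ψc i) ρc, ← adjoint_inner_left, sa]
      refine (norm_inner_le_norm _ _).trans ?_
      generalize ‖cfc ρ N (w i)‖ = a
      generalize ‖Psi N u fun z => Ψ z i‖ = b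
      have e2 : s * b ^ 2 + s⁻¹ * a ^ 2 - a * b = s⁻¹ * ((s * b - a / 2) ^ 2 + 3 / 4 * a ^ 2) := by
        field_simp
        ring
      have e3 : 0 ≤ s⁻¹ * ((s * b - a / 2) ^ 2 + 3 / 4 * a ^ 2) := by positivity
      linarith
    have h2 : ∑ i ∈ F, ‖Psi N u fun z => Ψ z i‖ ^ 2 ≤ ∫ z, ‖Φ z‖ ∂μ := by
      refine (Finset.sum_le_sum fun i _ => hμ.psi_le hN (rep_coord Ψc i) (Ψi i)).trans ?_
      rw [← integral_finsetSum _ fun i _ => ii i]
      refine integral_mono (integrable_finsetSum _ fun i _ => ii i) iμ fun z => ?_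
      exact (sum_le_hasSum F (fun i _ => by positivity) (hasSum_sq (Ψ z))).trans (Ψn z)
    have h3 : ∑ i ∈ F, ‖cfc ρ N (w i)‖ ^ 2 ≤ ∫ z, ‖Φ z‖ ∂ν + ν.real univ * ε := by
      refine (sum_le_hasSum F (fun i _ => by positivity) (hν.sum ρ √(B + ε) ρc fun z => ?_)).trans
        (le_of_eq ?_)
      · rw [ρn]
        exact Real.sqrt_le_sqrt (by linarith [hB z])
      · simp only [ρn, r2]
        rw [integral_add iν (integrable_const _), integral_const, smul_eq_mul]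
    refine (Finset.sum_le_sum fun i _ => h1 i).trans ?_
    rw [Finset.sum_add_distrib, ← Finset.mul_sum, ← Finset.mul_sum]
    have h4 := mul_le_mul_of_nonneg_left h2 hs.le
    have h5 := mul_le_mul_of_nonneg_left h3 (inv_nonneg.2 hs.le)
    linarith
  refine le_of_forall_pos_le_add fun δ hδ => ?_
  have c0 : 0 ≤ s⁻¹ * ν.real univ := by positivity
  refine (key (δ / (s⁻¹ * ν.real univ + 1)) (by positivity)).trans (add_le_add le_rfl ?_)
  rw [mul_div_assoc', div_le_iff₀ (by positivity)]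
  nlinarith

lemma rep_smul (hN : IsStarNormal N) (u : SQ H) {g : ℂ → SQ ℂ} (hg : Continuous g) (c : ℂ) :
    Psi N u (fun z => c • g z) = c • Psi N u g := by
  rw [psi_smul hN hg (φ := fun _ => c) continuous_const, cfc_const c N, Algebra.algebraMap_eq_smul_one]
  rfl

lemma exists_rep (hN : IsStarNormal N) (u w : SQ H) {s : ℝ} (hs : 0 < s) :
    ∃ (σ : Measure ℂ) (b : ℂ → SQ (SQ ℂ)), σ univ ≤ ENNReal.ofReal (s * ‖u‖ ^ 2 + ‖w‖ ^ 2 / s) ∧
      Bm b 1 ∧ ∀ g B, Continuous g → (∀ z, ‖g z‖ ≤ B) →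
        Vs w (Psi N u g) = ∫ z, Vs (b z) (g z) ∂σ := by
  obtain ⟨μ, hμ⟩ := exists_mu hN u
  obtain ⟨ν, hν⟩ := exists_mu hN w
  have := hμ.fin
  have := hν.fin
  let σ : Measure ℂ := s.toNNReal • μ + s⁻¹.toNNReal • ν
  let P : (ℕ →₀ (ℂ →ᵇ SQ ℂ)) →ₗ[ℂ] (ℂ →ᵇ SQ (SQ ℂ)) := Finsupp.lsum ℂ fun i =>
    ((lp.singleContinuousLinearMap ℂ (fun _ : ℕ => SQ ℂ) 2 i).compLeftContinuousBounded ℂ).toLinearMap
  let L : ℕ → (ℂ →ᵇ SQ ℂ) →ₗ[ℂ] ℂ := fun i =>
    { toFun := fun φ => ⟪w i, Psi N u φ⟫_ℂ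
      map_add' := fun φ ψ => by
        rw [← inner_add_right, ← psi_add hN φ.continuous ψ.continuous]
        rfl
      map_smul' := fun c φ => by
        rw [RingHom.id_apply, smul_eq_mul, ← inner_smul_right, ← rep_smul hN u φ.continuous]
        rfl }
  have P1 : ∀ i φ z, P (Finsupp.single i φ) z = lp.single 2 i (φ z) := fun i φ z => by
    simp only [P, Finsupp.lsum_single]
    rfl
  have P2 : ∀ φ z i, P φ z i = φ i z := fun φ z i => by
    induction φ using Finsupp.induction_linear with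
    | zero => simp
    | add φ ψ h1 h2 => simp [h1, h2]
    | single j φ =>
      rw [P1, lp.single_apply]
      by_cases h : j = i
      · subst h; simp
      · simp [Ne.symm h]
  let e := (BoundedContinuousFunction.toLp 2 σ ℂ).toLinearMap.comp P
  have ce : ∀ φ, e φ =ᵐ[σ] P φ := fun φ => BoundedContinuousFunction.coeFn_toLp 2 σ ℂ (P φ)
  obtain ⟨k, mk, nk, hk⟩ := exists_Linf σ e (Finsupp.lsum ℂ L) zero_le_one fun φ => by
    have i : ∀ (m : Measure ℂ) [IsFiniteMeasure m], Integrable (fun z => ‖P φ z‖) m := fun m _ =>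
      rep_int (P φ).continuous.norm fun z => by simpa using (P φ).norm_coe_le_norm z
    rw [one_mul, integral_congr_ae (μ := σ) (g := fun z => ‖P φ z‖)
      (by filter_upwards [ce φ] with z hz; rw [hz]), integral_add_measure (i _) (i _),
      integral_smul_nnreal_measure, integral_smul_nnreal_measure, NNReal.smul_def, NNReal.smul_def,
      Real.coe_toNNReal _ hs.le, Real.coe_toNNReal _ (inv_nonneg.2 hs.le), smul_eq_mul, smul_eq_mul,
      Finsupp.lsum_apply, Finsupp.sum]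
    refine (norm_sum_le _ _).trans (le_trans (le_of_eq ?_)
      (rep_key hN hμ hν hs (P φ).continuous (P φ).norm_coe_le_norm φ.support))
    simp only [P2]
    rfl
  refine ⟨σ, k, le_of_eq ?_, ⟨mk, nk⟩, fun g B hg hB => ?_⟩
  · rw [ENNReal.ofReal_add (by positivity) (by positivity), div_eq_inv_mul,
      ENNReal.ofReal_mul hs.le, ENNReal.ofReal_mul (inv_nonneg.2 hs.le), ← hμ.univ hN, ← hν.univ hN]
    rfl
  have m : StronglyMeasurable fun z => Vs (k z) (g z) :=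
    ((continuous_Vs.comp continuous_fst).clm_apply continuous_snd).comp_stronglyMeasurable
      (mk.prodMk hg.stronglyMeasurable)
  have i : Integrable (fun z => Vs (k z) (g z)) σ :=
    .of_bound m.aestronglyMeasurable B (.of_forall fun z => (norm_Vs_apply _ _).trans
      ((mul_le_of_le_one_left (norm_nonneg _) (nk z)).trans (hB z)))
  ext j
  let φ : ℂ →ᵇ SQ ℂ := BoundedContinuousFunction.ofNormedAddCommGroup g hg B hB
  have h1 := hk (Finsupp.single j φ)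
  rw [Finsupp.lsum_single] at h1
  have h2 := (lp.evalCLM ℂ (fun _ : ℕ => ℂ) 2 j).integral_comp_comm i
  refine Eq.trans (h1.symm.trans (integral_congr_ae ?_)) h2
  filter_upwards [ce (Finsupp.single j φ)] with z hz
  rw [hz, P1, lp.inner_single_right]
  rfl

end Pool.Agent.Lib.MP_45cb44_an.TC
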