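import Pool.Agent.Lib.MP_45cb44_an.TC.Xx
import Pool.Agent.Lib.MP_45cb44_an.TC.Rep

/-! The perturbation kernel. -/

namespace Pool.Agent.Lib.MP_45cb44_an.TC

open MeasureTheory Metric Set Filter Topology ContinuousLinearMap
open scoped ENNReal NNReal Real ComplexConjugate InnerProductSpace

variable {H : Type*} [NormedAddCommGroup H] [InnerProductSpace ℂ H] [CompleteSpace H]
  {N : H →L[ℂ] H} {u v w : SQ H} {θ : ℂ → SQ ℂ} {a : ℂ → SQ (SQ ℂ)} {c : ℂ} {R : ℝ}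

/-- The kernel `a` represents `Vs w ∘ XX N u`. -/
structure Rp (N : H →L[ℂ] H) (u w : SQ H) (a : ℂ → SQ (SQ ℂ)) : Prop where
  m : StronglyMeasurable a
  int : Integrable a mD
  eq : ∀ θ B, Bm θ B → Vs w (XX N u θ) = -∫ ζ, Vs (a ζ) (θ ζ) ∂mD

/-- The map `w ↦ Vs w t` is conjugate linear. -/
noncomputable def rpEv (t : SQ ℂ) : SQ (SQ ℂ) →L⋆[ℂ] SQ ℂ :=
  LinearMap.mkContinuous
    { toFun := fun w => Vs w t
      map_add' := fun x y => by ext i; simp
      map_smul' := fun r x => by rw [Vs_smul, smul_apply] } ‖t‖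
    fun w => (norm_Vs_apply w t).trans_eq (mul_comm _ _)

lemma rp_sm {X : Type*} [MeasurableSpace X] {f : X → SQ (SQ ℂ)} {g : X → SQ ℂ}
    (hf : StronglyMeasurable f) (hg : StronglyMeasurable g) :
    StronglyMeasurable fun x => Vs (f x) (g x) :=
  ((continuous_Vs.comp continuous_fst).clm_apply continuous_snd).comp_stronglyMeasurable
    (hf.prodMk hg)

lemma exists_rp (hN : IsStarNormal N) (u w : SQ H) {s : ℝ} (hs : 0 < s) :
    ∃ (σ : Measure ℂ) (b : ℂ → SQ (SQ ℂ)), σ univ ≤ ENNReal.ofReal (s * ‖u‖ ^ 2 + ‖w‖ ^ 2 / s) ∧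
      Bm b 1 ∧ Rp N u w (Cb σ b) := by
  obtain ⟨σ, b, h1, hb, h2⟩ := exists_rep hN u w hs
  have : IsFiniteMeasure σ := ⟨h1.trans_lt ENNReal.ofReal_lt_top⟩
  have i := hb.int2 (σ := σ) ker_conj nice_mD
  refine ⟨σ, b, h1, hb, hb.tr_sm ker_conj, i.integral_prod_left, fun θ B hθ => ?_⟩
  have j : Integrable (fun p : ℂ × ℂ => (p.2 - p.1)⁻¹ • Vs (b p.1) (θ p.2)) (σ.prod mD) := by
    have m : Measurable fun p : ℂ × ℂ => (p.2 - p.1)⁻¹ := by fun_prop
    refine (nice_mD.int2.mul_const B).mono' (m.stronglyMeasurable.smul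
      (rp_sm (hb.m.comp_measurable measurable_fst)
        (hθ.m.comp_measurable measurable_snd))).aestronglyMeasurable (.of_forall fun p => ?_)
    rw [norm_smul, norm_inv, norm_sub_rev]
    refine mul_le_mul_of_nonneg_left ((norm_Vs_apply _ _).trans ?_) (by positivity)
    exact (mul_le_mul (hb.le _) (hθ.le _) (norm_nonneg _) zero_le_one).trans_eq (one_mul B)
  rw [XX, h2 _ _ hθ.continuous_Cf (hθ.tr ker_inv nice_mD).le, ← integral_neg]
  trans ∫ z, ∫ ζ, (ζ - z)⁻¹ • Vs (b z) (θ ζ) ∂mD ∂σ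
  · refine integral_congr_ae (.of_forall fun z => ?_)
    refine ((Vs (b z)).integral_comp_comm (hθ.int ker_inv (nice_mD.int z))).symm.trans ?_
    simp only [map_smul]
  · rw [integral_integral_swap j]
    refine integral_congr_ae ?_
    filter_upwards [i.prod_right_ae] with ζ hζ
    refine Eq.trans ?_ (congrArg Neg.neg ((rpEv (θ ζ)).integral_comp_commSL (by simp) hζ))
    rw [← integral_neg]
    refine integral_congr_ae (.of_forall fun z => ?_)
    change _ = -Vs ((conj (z - ζ))⁻¹ • b z) (θ ζ)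
    rw [Vs_smul, map_inv₀, Complex.conj_conj, smul_apply, ← neg_smul, ← inv_neg, neg_sub]

lemma rp_int (r : Rp N u w a) (h : Th c R θ) : Integrable (fun ζ => Vs (a ζ) (θ ζ)) mD := by
  obtain ⟨B, hB⟩ := h.bm
  exact (r.int.norm.mul_const B).mono' (rp_sm r.m hB.m).aestronglyMeasurable (.of_forall fun ζ =>
    (norm_Vs_apply _ _).trans (mul_le_mul_of_nonneg_left (hB.le ζ) (norm_nonneg _)))

lemma Rp.int' (r : Rp N u w a) (h : Th c R θ) : Integrable (fun ζ => θ ζ + Vs (a ζ) (θ ζ)) mD :=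
  h.int.add (rp_int r h)

lemma Rp.vs (r : Rp N u w a) (h : Th c R θ) :
    Vs w (XX N u θ) = ∫ ζ, θ ζ ∂mD - ∫ ζ, θ ζ + Vs (a ζ) (θ ζ) ∂mD := by
  obtain ⟨B, hB⟩ := h.bm
  rw [integral_add h.int (rp_int r h), r.eq θ B hB, sub_add_cancel_left]

/-- The perturbed operator. -/
noncomputable abbrev TT (N : H →L[ℂ] H) (u v : SQ H) : H →L[ℂ] H := N + adjoint (Vs u) ∘L Vs v

lemma Rp.T_XX (r : Rp N u v a) (hN : IsStarNormal N) (h : Th c R θ) (l : ℂ) :
    TT N u v (XX N u θ) - l • XX N u θ =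
      XX N u (fun ζ => (ζ - l) • θ ζ) - adjoint (Vs u) (∫ ζ, θ ζ + Vs (a ζ) (θ ζ) ∂mD) := by
  rw [add_apply, comp_apply, r.vs h, map_sub, add_sub_right_comm, N_XX hN h l]
  abel

end Pool.Agent.Lib.MP_45cb44_an.TC
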