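import Pool.Agent.Lib.MP_45cb44_an.TC.Xx

/-! Division of a density by a linear factor. -/

namespace Pool.Agent.Lib.MP_45cb44_an.TC

open MeasureTheory Metric Set Filter Topology ContinuousLinearMap
open scoped ENNReal NNReal Real ComplexConjugate InnerProductSpace

variable {H : Type*} [NormedAddCommGroup H] [InnerProductSpace ℂ H] [CompleteSpace H]
  {N : H →L[ℂ] H} {u : SQ H} {θ : ℂ → SQ ℂ} {c : ℂ} {R : ℝ}

lemma xd_far {l ζ : ℂ} (hl : 2 * R ≤ ‖l - c‖) (hζ : ζ ∈ ball c R) : R ≤ ‖ζ - l‖ := by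
  have h1 := norm_sub_le_norm_sub_add_norm_sub l ζ c
  rw [mem_ball_iff_norm] at hζ
  rw [norm_sub_rev ζ l]
  linarith

lemma xd_int_le (h : Th c R θ) {φ : ℂ → ℂ} {K C : ℝ} (hK : 0 ≤ K)
    (hφ : ∀ ζ ∈ ball c R, ‖φ ζ‖ ≤ K) (h1 : ∫ ζ, ‖θ ζ‖ ∂mD ≤ C) :
    ‖∫ ζ, φ ζ • θ ζ ∂mD‖ ≤ K * C := by
  refine (norm_integral_le_of_norm_le (h.int.norm.const_mul K) (.of_forall fun ζ => ?_)).trans ?_
  · by_cases h0 : θ ζ = 0
    · simp [h0]
    · rw [norm_smul]
      exact mul_le_mul_of_nonneg_right (hφ ζ (h.supp ζ h0)) (norm_nonneg _)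
  · rw [integral_const_mul]
    exact mul_le_mul_of_nonneg_left h1 hK

lemma xd_id {G : Type*} [NormedAddCommGroup G] [InnerProductSpace ℂ G] {θ : ℂ → G} {B : ℝ}
    (h : Bm θ B) (l z : ℂ) :
    (z - l) • Cf mD (fun ζ => (ζ - l)⁻¹ • θ ζ) z = Cf mD θ z - Cf mD θ l := by
  simp only [Tr]
  rw [← integral_smul, ← integral_sub (h.int ker_inv (nice_mD.int z))
    (h.int ker_inv (nice_mD.int l))]
  refine integral_congr_ae ?_
  filter_upwards [nice_mD.ae_ne z, nice_mD.ae_ne l] with ζ h1 h2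
  have := sub_ne_zero.2 h1
  have := sub_ne_zero.2 h2
  rw [smul_smul, smul_smul, ← sub_smul]
  congr 1
  field_simp
  ring

lemma norm_XX_div (hN : IsStarNormal N) (h : Th c R θ) (h0 : 0 < R) {l : ℂ} (hl : 2 * R ≤ ‖l - c‖)
    {C : ℝ} (h1 : ∫ ζ, ‖θ ζ‖ ∂mD ≤ C) (h2 : ‖XX N u θ‖ ≤ C) :
    ‖XX N u fun ζ => (ζ - l)⁻¹ • θ ζ‖ ≤ (2 / R + 4 * ‖u‖ / R ^ 2) * C := by
  have hC : 0 ≤ C := (norm_nonneg _).trans h2
  have hi : ∀ ζ ∈ ball c R, ‖(ζ - l)⁻¹‖ ≤ R⁻¹ := fun ζ hζ => by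
    rw [norm_inv]
    exact inv_anti₀ h0 (xd_far hl hζ)
  obtain ⟨B', hB'⟩ := (h.smul (φ := fun ζ => (ζ - l)⁻¹) (by fun_prop) hi).bm
  obtain ⟨B, hB⟩ := h.bm
  set g := Cf mD θ with hg
  set g' := Cf mD (fun ζ => (ζ - l)⁻¹ • θ ζ) with hg'
  have cg : Continuous g := hB.continuous_Cf
  have cg' : Continuous g' := hB'.continuous_Cf
  set m : ℂ → ℝ := fun z => max ‖z - l‖ (R / 2) with hm
  have m0 : ∀ z, 0 < m z := fun z => lt_max_of_lt_right (half_pos h0)
  set k : ℂ → ℂ := fun z => conj (z - l) / ((m z ^ 2 : ℝ) : ℂ) with hk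
  have ck : Continuous k := by
    refine Continuous.div (by fun_prop) (by fun_prop) fun z => ?_
    exact_mod_cast (pow_pos (m0 z) 2).ne'
  have kle : ∀ z, ‖k z‖ ≤ 2 / R := fun z => by
    have a : ‖z - l‖ ≤ m z := le_max_left _ _
    have b : R / 2 ≤ m z := le_max_right _ _
    have := m0 z
    simp only [hk, norm_div, RCLike.norm_conj, Complex.norm_real, Real.norm_eq_abs]
    rw [abs_of_pos (by positivity), div_le_div_iff₀ (by positivity) h0]
    nlinarith [norm_nonneg (z - l)]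
  have kz : ∀ z, k z * (z - l) = ((‖z - l‖ ^ 2 / m z ^ 2 : ℝ) : ℂ) := fun z => by
    simp only [hk]
    rw [div_mul_eq_mul_div, Complex.conj_mul']
    push_cast
    rfl
  have gl : ‖g l‖ ≤ R⁻¹ * C := xd_int_le h (by positivity) hi h1
  have last : ∀ z, ‖(1 - k z * (z - l)) • g' z‖ ≤ 2 / R * (R⁻¹ * C) := fun z => by
    rw [kz]
    rcases le_total (R / 2) ‖z - l‖ with a | a
    · have e : m z = ‖z - l‖ := max_eq_left a
      have := m0 z
      rw [← e, div_self (by positivity)]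
      simp only [Complex.ofReal_one, sub_self, zero_smul, norm_zero]
      positivity
    · have b : ‖g' z‖ ≤ 2 / R * R⁻¹ * C := by
        simp only [hg', Tr, smul_smul]
        refine xd_int_le h (by positivity) (fun ζ hζ => ?_) h1
        rw [norm_mul]
        refine mul_le_mul ?_ (hi ζ hζ) (norm_nonneg _) (by positivity)
        rw [norm_inv, ← inv_div]
        refine inv_anti₀ (half_pos h0) ?_
        have := norm_sub_le_norm_sub_add_norm_sub ζ z l
        have := xd_far hl hζ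
        linarith
      have d : ‖z - l‖ ^ 2 / m z ^ 2 ≤ 1 :=
        div_le_one_of_le₀ (pow_le_pow_left₀ (norm_nonneg _) (le_max_left _ _) 2) (by positivity)
      have d' : 0 ≤ ‖z - l‖ ^ 2 / m z ^ 2 := by positivity
      rw [norm_smul, ← Complex.ofReal_one, ← Complex.ofReal_sub, Complex.norm_real,
        Real.norm_of_nonneg (by linarith), ← mul_assoc]
      exact (mul_le_of_le_one_left (norm_nonneg _) (by linarith)).trans b
  have rest : ∀ z, ‖g' z - k z • g z‖ ≤ 4 / R ^ 2 * C := fun z => by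
    have e : g' z - k z • g z = (1 - k z * (z - l)) • g' z - k z • g l := by
      rw [sub_smul, one_smul, mul_smul, xd_id hB l z, smul_sub]
      abel
    rw [e]
    refine (norm_sub_le _ _).trans ((add_le_add (last z) ((norm_smul_le _ _).trans
      (mul_le_mul (kle z) gl (norm_nonneg _) (by positivity)))).trans_eq ?_)
    field_simp
    ring
  have cr : Continuous fun z => g' z - k z • g z := by fun_prop
  have e : XX N u (fun ζ => (ζ - l)⁻¹ • θ ζ) =
      cfc k N (XX N u θ) + Psi N u fun z => g' z - k z • g z := by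
    rw [XX, XX, ← hg, ← hg', ← psi_smul hN cg ck, ← psi_add hN (by fun_prop) cr]
    simp
  rw [e]
  have n1 : ‖cfc k N‖ ≤ 2 / R := norm_cfc_le (by positivity) fun z _ => kle z
  refine (norm_add_le _ _).trans ((add_le_add ((le_opNorm _ _).trans
    (mul_le_mul n1 h2 (norm_nonneg _) (by positivity)))
    (norm_psi_le hN cr (by positivity) rest)).trans_eq ?_)
  ring

end Pool.Agent.Lib.MP_45cb44_an.TC
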