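import Pool.Agent.Lib.MP_45cb44_an.TC.LocV
import Pool.Agent.Lib.MP_45cb44_an.TC.Xd
import Pool.Agent.Lib.MP_45cb44_an.TC.Rp

/-! Local vectors. -/

namespace Pool.Agent.Lib.MP_45cb44_an.TC

open MeasureTheory Metric Set Filter Topology ContinuousLinearMap
open scoped ENNReal NNReal Real ComplexConjugate InnerProductSpace

variable {H : Type*} [NormedAddCommGroup H] [InnerProductSpace ℂ H] [CompleteSpace H]
  {N : H →L[ℂ] H} {u v : SQ H} {a : ℂ → SQ (SQ ℂ)} {c : ℂ} {R C : ℝ} {x : H}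

/-- Weak limits of averages of the resolvent which almost annihilate the perturbation. -/
def Loc (N : H →L[ℂ] H) (u : SQ H) (a : ℂ → SQ (SQ ℂ)) (c : ℂ) (R C : ℝ) (x : H) : Prop :=
  ∃ θ : ℕ → ℂ → SQ ℂ, (∀ k, Th c R (θ k)) ∧ (∀ k, ∫ ζ, ‖θ k ζ‖ ∂mD ≤ C) ∧
    (∀ k, ‖XX N u (θ k)‖ ≤ C) ∧
    (∀ y, Tendsto (fun k => ⟪y, XX N u (θ k)⟫_ℂ) (hyperfilter ℕ) (𝓝 ⟪y, x⟫_ℂ)) ∧
    ∀ φ, Bd φ → DifferentiableOn ℂ φ (ball c (2 * R)) →
      Tendsto (fun k => ∫ ζ, φ ζ • (θ k ζ + Vs (a ζ) (θ k ζ)) ∂mD) (hyperfilter ℕ) (𝓝 0)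

lemma loc_norm (h : Loc N u a c R C x) : ‖x‖ ≤ C := by
  obtain ⟨θ, -, -, h3, h4, -⟩ := h
  have h1 : ‖⟪x, x⟫_ℂ‖ ≤ ‖x‖ * C := le_of_tendsto' (h4 x).norm fun k =>
    (norm_inner_le_norm _ _).trans (mul_le_mul_of_nonneg_left (h3 k) (norm_nonneg _))
  rw [inner_self_eq_norm_sq_to_K, norm_pow, RCLike.norm_ofReal, abs_norm, sq] at h1
  rcases (norm_nonneg x).eq_or_lt with e | e
  · exact e ▸ (norm_nonneg _).trans (h3 0)
  · exact le_of_mul_le_mul_left h1 e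

lemma loc_far {l ζ : ℂ} {s : ℝ} (h : ζ ∈ ball c s) : ‖l - c‖ - s ≤ ‖ζ - l‖ := by
  have := norm_sub_le_norm_sub_add_norm_sub l ζ c
  rw [norm_sub_rev l ζ] at this
  linarith [mem_ball_iff_norm.1 h]

lemma loc_div (h : Loc N u a c R C x) (hN : IsStarNormal N) (r : Rp N u v a) (h0 : 0 < R) {l : ℂ}
    (hl : 2 * R < ‖l - c‖) : ∃ x', Loc N u a c R ((2 / R + 4 * ‖u‖ / R ^ 2) * C) x' ∧
      TT N u v x' - l • x' = x := by
  obtain ⟨θ, h1, h2, h3, h4, h5⟩ := h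
  have f1 : ∀ ζ ∈ ball c R, R < ‖ζ - l‖ := fun ζ hζ => by linarith [loc_far (l := l) hζ]
  have f2 : ∀ ζ ∈ ball c R, ‖(ζ - l)⁻¹‖ ≤ 2 / R + 4 * ‖u‖ / R ^ 2 := fun ζ hζ => by
    rw [norm_inv]
    refine (inv_anti₀ h0 (f1 ζ hζ).le).trans (le_add_of_le_of_nonneg ?_ (by positivity))
    rw [inv_eq_one_div]
    gcongr
    norm_num
  have k1 : ∀ k, Th c R fun ζ => (ζ - l)⁻¹ • θ k ζ := fun k => (h1 k).smul (by fun_prop) f2
  have k3 := fun k => norm_XX_div hN (h1 k) h0 hl.le (h2 k) (h3 k)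
  obtain ⟨x', k4⟩ := exists_weak_limit' (𝕜 := ℂ) (hyperfilter ℕ) _ _ k3
  have k5 : ∀ φ, Bd φ → DifferentiableOn ℂ φ (ball c (2 * R)) → Tendsto (fun k =>
      ∫ ζ, φ ζ • ((ζ - l)⁻¹ • θ k ζ + Vs (a ζ) ((ζ - l)⁻¹ • θ k ζ)) ∂mD) (hyperfilter ℕ) (𝓝 0) :=
    fun φ b d => by
      have b' := (b.indicator (S := ball c (2 * R)) measurableSet_ball).div_sub (sub_pos.2 hl)
        fun ζ hζ => loc_far (mem_of_indicator_ne_zero hζ)
      refine (h5 _ b' ((d.mul ((differentiableOn_id.sub_const l).inv fun ζ hζ =>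
        norm_pos_iff.1 ((sub_pos.2 hl).trans_le (loc_far hζ)))).congr fun ζ hζ => by
          rw [indicator_of_mem hζ]; rfl)).congr fun k => integral_congr_ae (.of_forall fun ζ => ?_)
      by_cases e : θ k ζ = 0
      · simp [e]
      · simp only [indicator_of_mem (ball_subset_ball (by linarith) ((h1 k).supp ζ e) :
          ζ ∈ ball c (2 * R)), map_smul, mul_smul, smul_add]
  refine ⟨x', ⟨_, k1, fun k => ?_, k3, k4, k5⟩, ext_inner_left ℂ fun y => ?_⟩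
  · refine le_trans ?_ (mul_le_mul_of_nonneg_left (h2 k) (by positivity))
    rw [← integral_const_mul]
    refine integral_mono (k1 k).int.norm ((h1 k).int.norm.const_mul _) fun ζ => ?_
    by_cases e : θ k ζ = 0
    · simp [e]
    · exact (norm_smul_le _ _).trans
        (mul_le_mul_of_nonneg_right (f2 ζ ((h1 k).supp ζ e)) (norm_nonneg _))
  · have t1 := (k4 (adjoint (TT N u v) y)).sub ((k4 y).const_mul l)
    have t2 := (h4 y).sub (((innerSL ℂ (Vs u y)).continuous.tendsto _).comp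
      (k5 _ (Bd.const 1) (differentiableOn_const _)))
    rw [map_zero, sub_zero] at t2
    rw [inner_sub_right, inner_smul_right, ← adjoint_inner_left]
    refine tendsto_nhds_unique t1 (t2.congr fun k => ?_)
    have e : (fun ζ => (ζ - l) • (ζ - l)⁻¹ • θ k ζ) = θ k := funext fun ζ => by
      by_cases e : θ k ζ = 0
      · simp [e]
      · exact smul_inv_smul₀ (norm_pos_iff.1 (h0.trans (f1 ζ ((h1 k).supp ζ e)))) _
    rw [adjoint_inner_left, ← inner_smul_right, ← inner_sub_right, r.T_XX hN (k1 k) l, e,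
      inner_sub_right, adjoint_inner_right]
    simp only [Function.comp, one_smul, innerSL_apply_apply]

lemma Loc.locVec (h : Loc N u a c R C x) (hN : IsStarNormal N) (r : Rp N u v a) (h0 : 0 < R)
    (hT : ∀ (l : ℂ) (x : H), TT N u v x = l • x → x = 0) : LocVec (TT N u v) x c (2 * R) :=
  locVec_of_div hT (P := Loc N u a c R) (fun _ _ => loc_norm)
    (fun _ _ _ h hl => loc_div h hN r h0 hl) h

end Pool.Agent.Lib.MP_45cb44_an.TC
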