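import Pool.Agent.Lib.MP_45cb44_an.Hilden

/-! Vectors with a small local spectrum. -/

namespace Pool.Agent.Lib.MP_45cb44_an.TC

open MeasureTheory Metric Set Filter Topology ContinuousLinearMap
open scoped ENNReal NNReal Real ComplexConjugate InnerProductSpace

variable {H : Type*} [NormedAddCommGroup H] [InnerProductSpace ℂ H] [CompleteSpace H]
  {T : H →L[ℂ] H} {c c' : ℂ} {r C : ℝ} {x y : H}

/-- The local resolvent of `x` extends to the outside of a disc. -/
def LocVec (T : H →L[ℂ] H) (x : H) (c : ℂ) (r : ℝ) : Prop :=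
  ∃ f : ℂ → H, DifferentiableOn ℂ f {l | r < ‖l - c‖} ∧ ∀ l, r < ‖l - c‖ → T (f l) - l • f l = x

lemma locVec_of_div (hT : ∀ (l : ℂ) (x : H), T x = l • x → x = 0) {P : ℝ → H → Prop} {κ : ℝ}
    (h1 : ∀ C x, P C x → ‖x‖ ≤ C)
    (h2 : ∀ C x l, P C x → r < ‖l - c‖ → ∃ x', P (κ * C) x' ∧ T x' - l • x' = x) (h : P C x) :
    LocVec T x c r := by
  classical
  choose! f f1 f2 using h2 C x
  refine ⟨f, fun m hm => ?_, fun l => f2 l h⟩
  obtain ⟨y, y1, y2⟩ := h2 _ _ m (f1 m h hm) hm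
  refine (hasDerivWithinAt_iff_isLittleO.2 ((Asymptotics.IsBigO.of_bound (κ * (κ * (κ * C)))
    (eventually_nhdsWithin_of_forall fun l hl => ?_)).trans_isLittleO
    ((Asymptotics.isLittleO_pow_sub_sub m one_lt_two).mono nhdsWithin_le_nhds)) :
      HasDerivWithinAt f y _ m).differentiableWithinAt
  obtain ⟨z, z1, z2⟩ := h2 _ _ l y1 hl
  have e : f l - f m - (l - m) • y - (l - m) ^ 2 • z = 0 := hT l _ (by
    rw [map_sub, map_sub, map_sub, map_smul, map_smul, eq_add_of_sub_eq (f2 l h hl),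
      eq_add_of_sub_eq (f2 m h hm), eq_add_of_sub_eq y2, eq_add_of_sub_eq z2]
    module)
  rw [sub_eq_zero.1 e, norm_smul, norm_pow, norm_pow, norm_norm, mul_comm]
  exact mul_le_mul_of_nonneg_right (h1 _ _ z1) (by positivity)

lemma LocVec.orth (hx : LocVec T x c r) (hy : LocVec (star T) y (conj c') r) (h : 2 * r < ‖c - c'‖) :
    ⟪x, y⟫_ℂ = 0 := by
  obtain ⟨f, f1, f2⟩ := hx
  obtain ⟨g, g1, g2⟩ := hy
  have op : ∀ a : ℂ, IsOpen {l : ℂ | r < ‖l - a‖} := fun a =>
    isOpen_lt continuous_const (by fun_prop)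
  have cj : ∀ l : ℂ, ‖conj l - conj c'‖ = ‖l - c'‖ := fun l => by
    rw [← map_sub, Complex.norm_conj]
  let F : ℂ → ℂ := fun l => if r < ‖l - c‖ then ⟪y, f l⟫_ℂ else conj ⟪x, g (conj l)⟫_ℂ
  have F1 : ∀ l, r < ‖l - c‖ → F l = ⟪y, f l⟫_ℂ := fun l hl => if_pos hl
  have F2 : ∀ l, r < ‖l - c'‖ → F l = conj ⟪x, g (conj l)⟫_ℂ := fun l hl => by
    by_cases k : r < ‖l - c‖
    · rw [F1 l k, ← f2 l k, ← g2 (conj l) (by rwa [cj]), inner_conj_symm, inner_sub_left,
        inner_sub_right, inner_smul_left, inner_smul_right, star_eq_adjoint, adjoint_inner_left,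
        Complex.conj_conj]
    · exact if_neg k
  have dF : Differentiable ℂ F := fun l => by
    by_cases k : r < ‖l - c‖
    · exact ((innerSL ℂ y).differentiableAt.comp l
        (f1.differentiableAt ((op c).mem_nhds k))).congr_of_eventuallyEq
        (eventually_of_mem ((op c).mem_nhds k) F1)
    · have k' : r < ‖l - c'‖ := by
        have := norm_sub_le_norm_sub_add_norm_sub c l c'
        rw [norm_sub_rev c l] at this
        linarith [not_lt.1 k]
      have := ((innerSL ℂ x).differentiableAt.comp (conj l)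
        (g1.differentiableAt ((op _).mem_nhds (show r < _ by rwa [cj])))).conj_conj
      rw [Complex.conj_conj] at this
      exact this.congr_of_eventuallyEq (eventually_of_mem ((op c').mem_nhds k') F2)
  have ev : ∀ a : ℝ, ∀ᶠ l in cocompact ℂ, a < ‖l‖ :=
    (tendsto_norm_cocompact_atTop (E := ℂ)).eventually_gt_atTop
  have eU : ∀ᶠ l in cocompact ℂ, r < ‖l - c‖ := (ev (r + ‖c‖)).mono fun l hl => by
    linarith [norm_sub_norm_le l c]
  have f0 : Tendsto f (cocompact ℂ) (𝓝 0) := by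
    refine squeeze_zero_norm' ?_ ((tendsto_atTop_add_const_right _ (-‖T‖)
      (tendsto_norm_cocompact_atTop (E := ℂ))).const_div_atTop ‖x‖)
    filter_upwards [eU, ev ‖T‖] with l h1 h2
    have e : ‖l • f l‖ ≤ ‖T (f l)‖ + ‖x‖ := by
      rw [← f2 l h1]
      simpa using norm_sub_le (T (f l)) (T (f l) - l • f l)
    rw [le_div_iff₀ (by linarith)]
    rw [norm_smul] at e
    linarith [T.le_opNorm (f l)]
  have i0 : ∀ S : H →L[ℂ] H, Tendsto (fun l => ⟪y, S (f l)⟫_ℂ) (cocompact ℂ) (𝓝 0) := fun S => by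
    exact (((innerSL ℂ y).comp S).continuous.tendsto' 0 0 (map_zero _)).comp f0
  have F0 : ∀ l, F l = 0 := fun l => dF.apply_eq_of_tendsto_cocompact l
    ((i0 1).congr' (eU.mono fun l hl => (F1 l hl).symm))
  rw [inner_eq_zero_symm]
  refine tendsto_nhds_unique tendsto_const_nhds ((i0 T).congr' (eU.mono fun l hl => ?_))
  rw [← f2 l hl, inner_sub_right, inner_smul_right, ← F1 l hl, F0, mul_zero, sub_zero]

end Pool.Agent.Lib.MP_45cb44_an.TC
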