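import Pool.Agent.Lib.MP_45cb44_an.TC.Psi

/-! The spectral measure of a square summable sequence. -/

namespace Pool.Agent.Lib.MP_45cb44_an.TC

open MeasureTheory Metric Set Filter Topology ContinuousLinearMap
open scoped ENNReal NNReal Real ComplexConjugate InnerProductSpace

variable {H : Type*} [NormedAddCommGroup H] [InnerProductSpace ℂ H] [CompleteSpace H]
  {N : H →L[ℂ] H} {u : SQ H} {g : ℂ → SQ ℂ} {μ : Measure ℂ}

/-- The sum of the spectral measures of the terms of `u`. -/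
structure IsMu (N : H →L[ℂ] H) (u : SQ H) (μ : Measure ℂ) : Prop where
  fin : IsFiniteMeasure μ
  sum : ∀ (f : ℂ → ℂ) (B : ℝ), Continuous f → (∀ z, ‖f z‖ ≤ B) →
    HasSum (fun l => ‖cfc f N (u l)‖ ^ 2) (∫ z, ‖f z‖ ^ 2 ∂μ)

lemma mu_sq {x : H} {ν : Measure ℂ}
    (h : ∀ f : ℂ → ℂ, Continuous f → ⟪x, cfc f N x⟫_ℂ = ∫ z, f z ∂ν) {f : ℂ → ℂ}
    (hf : Continuous f) : ‖cfc f N x‖ ^ 2 = ∫ z, ‖f z‖ ^ 2 ∂ν := by
  have e1 := h (fun z => star (f z) * f z) (by fun_prop)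
  rw [cfc_mul _ _ N (by fun_prop) hf.continuousOn, cfc_star, mul_apply_eq_comp, star_eq_adjoint,
    adjoint_inner_right, inner_self_eq_norm_sq_to_K] at e1
  have e2 : ∀ z, star (f z) * f z = ((‖f z‖ ^ 2 : ℝ) : ℂ) := fun z => by
    rw [Complex.ofReal_pow]
    exact Complex.conj_mul' _
  simp only [e2, integral_complex_ofReal] at e1
  have e3 : ((‖cfc f N x‖ ^ 2 : ℝ) : ℂ) = ((∫ z, ‖f z‖ ^ 2 ∂ν : ℝ) : ℂ) := by
    rw [← e1, Complex.ofReal_pow]
    rfl
  exact Complex.ofReal_injective e3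

lemma mu_int {E : Type*} [NormedAddCommGroup E] {f : ℂ → E} {B : ℝ} (ν : Measure ℂ)
    [IsFiniteMeasure ν] (hf : Continuous f) (hB : ∀ z, ‖f z‖ ≤ B) :
    Integrable (fun z => ‖f z‖ ^ 2) ν := by
  refine (integrable_const (B ^ 2)).mono' (hf.norm.pow 2).aestronglyMeasurable
    (.of_forall fun z => ?_)
  rw [Real.norm_of_nonneg (by positivity)]
  exact pow_le_pow_left₀ (norm_nonneg _) (hB z) 2

lemma exists_mu (hN : IsStarNormal N) (u : SQ H) : ∃ μ, IsMu N u μ := by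
  choose ν hν h using fun l => exists_spec hN (u l)
  have m : ∀ l, ν l univ = ENNReal.ofReal (‖u l‖ ^ 2) := fun l => by
    have := hν l
    have e := mu_sq (h l) (f := fun _ => 1) continuous_const
    rw [cfc_const_one ℂ N hN] at e
    simp only [norm_one, one_pow, integral_const, smul_eq_mul, mul_one] at e
    rw [show ‖u l‖ ^ 2 = (ν l).real univ from e, ofReal_measureReal]
  have fin : IsFiniteMeasure (Measure.sum ν) := ⟨by
    rw [Measure.sum_apply _ MeasurableSet.univ]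
    simp only [m]
    rw [← ENNReal.ofReal_tsum_of_nonneg (fun _ => by positivity) (hasSum_sq u).summable]
    exact ENNReal.ofReal_lt_top⟩
  refine ⟨Measure.sum ν, fin, fun f B hf hB => ?_⟩
  simp only [fun l => mu_sq (h l) hf]
  exact hasSum_integral_measure (mu_int _ hf hB)

lemma IsMu.univ (h : IsMu N u μ) (hN : IsStarNormal N) : μ univ = ENNReal.ofReal (‖u‖ ^ 2) := by
  have := h.fin
  have e := h.sum (fun _ => 1) 1 continuous_const (by simp)
  rw [cfc_const_one ℂ N hN] at e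
  simp only [norm_one, one_pow, integral_const, smul_eq_mul, mul_one] at e
  rw [(hasSum_sq u).unique e, ofReal_measureReal]

lemma mu_eps (h : IsMu N u μ) (hN : IsStarNormal N) (hg : Continuous g) {B : ℝ}
    (hB : ∀ z, ‖g z‖ ≤ B) {e : ℝ} (he : 0 < e) :
    ‖Psi N u g‖ ^ 2 ≤ ∫ z, ‖g z‖ ^ 2 ∂μ + e * (2 * B + e) * μ.real Set.univ := by
  have := h.fin
  obtain ⟨ρ, hρ⟩ : ∃ ρ : ℂ → ℂ, ρ = fun z => ((‖g z‖ + e : ℝ) : ℂ) := ⟨_, rfl⟩
  have r1 : Continuous ρ := by rw [hρ]; fun_prop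
  have r2 : ∀ z, ‖ρ z‖ = ‖g z‖ + e := fun z => by
    rw [hρ, Complex.norm_real, Real.norm_of_nonneg (by positivity)]
  have r3 : ∀ z, ρ z ≠ 0 := fun z => by
    rw [← norm_pos_iff, r2]
    positivity
  have r4 : ∀ z, ‖ρ z‖ ≤ B + e := fun z => by
    rw [r2]
    linarith [hB z]
  have s := h.sum ρ (B + e) r1 r4
  let u' : SQ H := ⟨fun l => cfc ρ N (u l), memℓp_gen (by simpa using s.summable)⟩
  have s1 : ‖u'‖ ^ 2 = ∫ z, ‖ρ z‖ ^ 2 ∂μ := (hasSum_sq u').unique s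
  have c1 : Continuous fun z => (ρ z)⁻¹ • g z := (r1.inv₀ r3).smul hg
  have e1 : Psi N u g = Psi N u' fun z => (ρ z)⁻¹ • g z := by
    refine tsum_congr fun l => ?_
    have c2 : Continuous fun z => ((ρ z)⁻¹ • g z) l :=
      (lp.lipschitzWith_one_eval 2 l).continuous.comp c1
    change _ = cfc _ N (cfc ρ N (u l))
    rw [← mul_apply_eq_comp, ← cfc_mul _ _ N c2.continuousOn r1.continuousOn]
    refine congrArg (fun f => cfc f N (u l)) (funext fun z => ?_)
    rw [lp.coeFn_smul, Pi.smul_apply, smul_eq_mul, mul_right_comm, inv_mul_cancel₀ (r3 z), one_mul]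
  have e2 := norm_psi_le (u := u') hN c1 zero_le_one fun z => by
    rw [norm_smul, norm_inv, r2, inv_mul_le_iff₀ (by positivity)]
    linarith
  rw [← e1, one_mul] at e2
  refine (pow_le_pow_left₀ (norm_nonneg _) e2 2).trans ?_
  rw [s1, mul_comm, ← smul_eq_mul, ← integral_const,
    ← integral_add (mu_int μ hg hB) (integrable_const _)]
  refine integral_mono (mu_int μ r1 r4) ((mu_int μ hg hB).add (integrable_const _)) fun z => ?_
  simp only [r2]
  nlinarith [hB z]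

lemma IsMu.psi_le (h : IsMu N u μ) (hN : IsStarNormal N) (hg : Continuous g) {B : ℝ}
    (hB : ∀ z, ‖g z‖ ≤ B) : ‖Psi N u g‖ ^ 2 ≤ ∫ z, ‖g z‖ ^ 2 ∂μ := by
  have c : Continuous fun e : ℝ => ∫ z, ‖g z‖ ^ 2 ∂μ + e * (2 * B + e) * μ.real Set.univ := by
    fun_prop
  have t : Tendsto (fun e : ℝ => ∫ z, ‖g z‖ ^ 2 ∂μ + e * (2 * B + e) * μ.real Set.univ) (𝓝[>] 0)
      (𝓝 (∫ z, ‖g z‖ ^ 2 ∂μ)) := by
    simpa using (c.tendsto 0).mono_left nhdsWithin_le_nhds
  exact ge_of_tendsto t (eventually_mem_nhdsWithin.mono fun e he => mu_eps h hN hg hB he)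

end Pool.Agent.Lib.MP_45cb44_an.TC
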