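import Pool.Agent.Lib.MP_45cb44_an.TC.Vs
import Pool.Agent.Lib.MP_45cb44_an.Dual

/-! Vector valued functional calculus. -/

namespace Pool.Agent.Lib.MP_45cb44_an.TC

open MeasureTheory Metric Set Filter Topology ContinuousLinearMap
open scoped ENNReal NNReal Real ComplexConjugate InnerProductSpace

variable {H : Type*} [NormedAddCommGroup H] [InnerProductSpace ℂ H] [CompleteSpace H]
  {N : H →L[ℂ] H} {u w : SQ H} {g h : ℂ → SQ ℂ}

/-- The sum of the vectors `g l (N) (u l)`. -/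
noncomputable def Psi (N : H →L[ℂ] H) (u : SQ H) (g : ℂ → SQ ℂ) : H :=
  ∑' l, cfc (fun z => g z l) N (u l)

lemma psi_cont (hg : Continuous g) (l : ℕ) : Continuous fun z => g z l :=
  (lp.evalCLM ℂ (fun _ : ℕ => ℂ) 2 l).continuous.comp hg

lemma psi_fin (hN : IsStarNormal N) (hg : Continuous g) {B : ℝ}
    (h : ∀ z ∈ spectrum ℂ N, ‖g z‖ ≤ B) (F : Finset ℕ) :
    ‖∑ l ∈ F, cfc (fun z => g z l) N (u l)‖ ^ 2 ≤ B ^ 2 * ∑ l ∈ F, ‖u l‖ ^ 2 := by
  obtain ⟨A, hA⟩ : ∃ A : ℕ → H →L[ℂ] H, A = fun l => cfc (fun z => g z l) N := ⟨_, rfl⟩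
  obtain ⟨x, hx⟩ : ∃ x, x = ∑ l ∈ F, A l (u l) := ⟨_, rfl⟩
  have h1 : ‖∑ l ∈ F, A l * star (A l)‖ ≤ B ^ 2 := by
    have e : ∑ l ∈ F, A l * star (A l) = cfc (∑ l ∈ F, fun z => g z l * star (g z l)) N := by
      rw [cfc_sum (fun l z => g z l * star (g z l)) _ _
        fun l _ => ((psi_cont hg l).mul (psi_cont hg l).star).continuousOn]
      refine Finset.sum_congr rfl fun l _ => ?_
      rw [cfc_mul _ _ N (psi_cont hg l).continuousOn (psi_cont hg l).star.continuousOn, cfc_star, hA]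
    rw [e]
    refine norm_cfc_le (sq_nonneg B) fun z hz => ?_
    rw [Finset.sum_apply]
    refine (norm_sum_le _ _).trans (le_trans ?_ (pow_le_pow_left₀ (norm_nonneg _) (h z hz) 2))
    simp only [norm_mul, norm_star, ← sq]
    exact sum_le_hasSum F (fun _ _ => sq_nonneg _) (hasSum_sq (g z))
  have h2 : ∑ l ∈ F, ‖adjoint (A l) x‖ ^ 2 ≤ B ^ 2 * ‖x‖ ^ 2 := by
    have e : ∑ l ∈ F, ‖adjoint (A l) x‖ ^ 2 =
        RCLike.re ⟪x, (∑ l ∈ F, A l * star (A l)) x⟫_ℂ := by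
      rw [_root_.sum_apply, inner_sum, map_sum]
      refine Finset.sum_congr rfl fun l _ => ?_
      rw [_root_.mul_apply_eq_comp, ← adjoint_inner_left, star_eq_adjoint,
        inner_self_eq_norm_sq]
    rw [e]
    refine (re_inner_le_norm _ _).trans ?_
    have := ((∑ l ∈ F, A l * star (A l)).le_opNorm x).trans
      (mul_le_mul_of_nonneg_right h1 (norm_nonneg x))
    nlinarith [norm_nonneg x]
  have h3 : ‖x‖ ^ 2 ≤ ∑ l ∈ F, ‖adjoint (A l) x‖ * ‖u l‖ := by
    rw [← inner_self_eq_norm_sq (𝕜 := ℂ)]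
    conv_lhs => arg 2; arg 3; rw [hx]
    rw [inner_sum, map_sum]
    exact Finset.sum_le_sum fun l _ => by
      rw [← adjoint_inner_left]
      exact re_inner_le_norm _ _
  have h4 := Finset.sum_mul_sq_le_sq_mul_sq F (fun l => ‖adjoint (A l) x‖) fun l => ‖u l‖
  have h5 : 0 ≤ ∑ l ∈ F, ‖u l‖ ^ 2 := Finset.sum_nonneg fun _ _ => sq_nonneg _
  have h6 := ((pow_le_pow_left₀ (sq_nonneg _) h3 2).trans h4).trans
    (mul_le_mul_of_nonneg_right h2 h5)
  rw [hA] at hx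
  rw [← hx]
  rcases (sq_nonneg ‖x‖).eq_or_lt with e | e
  · rw [← e]
    positivity
  · exact le_of_mul_le_mul_left (by linarith) e

lemma psi_summable (hN : IsStarNormal N) (hg : Continuous g) :
    Summable fun l => cfc (fun z => g z l) N (u l) := by
  obtain ⟨B, hB⟩ := (spectrum.isCompact (𝕜 := ℂ) N).exists_bound_of_continuousOn hg.continuousOn
  refine summable_iff_vanishing_norm.2 fun ε hε => ?_
  obtain ⟨s, hs⟩ := summable_iff_vanishing_norm.1 (hasSum_sq u).summable (ε ^ 2 / (B ^ 2 + 1))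
    (by positivity)
  refine ⟨s, fun t ht => lt_of_pow_lt_pow_left₀ 2 hε.le ((psi_fin hN hg hB t).trans_lt ?_)⟩
  have h1 := (le_abs_self _).trans_lt (hs t ht)
  have h2 : 0 ≤ ∑ l ∈ t, ‖u l‖ ^ 2 := Finset.sum_nonneg fun _ _ => sq_nonneg _
  rw [lt_div_iff₀ (by positivity)] at h1
  linarith

lemma norm_psi_le (hN : IsStarNormal N) (hg : Continuous g) {B : ℝ} (hB : 0 ≤ B)
    (h : ∀ z, ‖g z‖ ≤ B) : ‖Psi N u g‖ ≤ B * ‖u‖ := by
  refine le_of_tendsto' (psi_summable hN hg).hasSum.norm fun F => ?_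
  refine le_of_sq_le_sq ((psi_fin hN hg (fun z _ => h z) F).trans ?_) (by positivity)
  rw [mul_pow]
  exact mul_le_mul_of_nonneg_left (sum_le_hasSum F (fun _ _ => sq_nonneg _) (hasSum_sq u))
    (sq_nonneg B)

lemma psi_add (hN : IsStarNormal N) (hg : Continuous g) (hh : Continuous h) :
    Psi N u (fun z => g z + h z) = Psi N u g + Psi N u h := by
  rw [Psi, Psi, Psi, ← (psi_summable hN hg).tsum_add (psi_summable hN hh)]
  refine tsum_congr fun l => ?_
  rw [← _root_.add_apply,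
    ← cfc_add N _ _ (psi_cont hg l).continuousOn (psi_cont hh l).continuousOn]
  rfl

lemma psi_smul (hN : IsStarNormal N) (hg : Continuous g) {φ : ℂ → ℂ} (hφ : Continuous φ) :
    Psi N u (fun z => φ z • g z) = cfc φ N (Psi N u g) := by
  rw [Psi, Psi, (cfc φ N).map_tsum (psi_summable hN hg)]
  refine tsum_congr fun l => ?_
  rw [← _root_.mul_apply_eq_comp,
    ← cfc_mul _ _ N hφ.continuousOn (psi_cont hg l).continuousOn]
  rfl

lemma psi_const (hN : IsStarNormal N) (t : SQ ℂ) : Psi N u (fun _ => t) = adjoint (Vs u) t := by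
  rw [Psi, ← (hasSum_adj u t).tsum_eq]
  refine tsum_congr fun l => ?_
  rw [cfc_const _ N, Algebra.algebraMap_eq_smul_one]
  rfl

end Pool.Agent.Lib.MP_45cb44_an.TC
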