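import Pool.Agent.Lib.MP_45cb44_an.TC.Cv

/-! From bounds on the support to bounds everywhere. -/

namespace Pool.Agent.Lib.MP_45cb44_an.TC

open MeasureTheory Metric Set Filter Topology
open scoped ENNReal NNReal Real ComplexConjugate InnerProductSpace

lemma tail (s : Measure ℂ) {k : ℂ} {C ρ : ℝ} (hC : 0 ≤ C) (hρ : 0 < ρ)
    (h : ∀ r, ρ ≤ r → s (closedBall k r) ≤ ENNReal.ofReal (C * r)) :
    ∫⁻ w in (closedBall k ρ)ᶜ, ENNReal.ofReal (‖w - k‖ ^ 2)⁻¹ ∂s ≤ ENNReal.ofReal (4 * C / ρ) := by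
  have sub : (closedBall k ρ)ᶜ ⊆ ⋃ n : ℕ, closedBall k (2 ^ (n + 1) * ρ) \ ball k (2 ^ n * ρ) :=
    fun w hw => by
    rw [mem_compl_iff, mem_closedBall, not_le] at hw
    obtain ⟨n, n1, n2⟩ := exists_nat_pow_near (x := dist w k / ρ) (y := 2)
      (by rw [le_div_iff₀ hρ]; linarith) one_lt_two
    rw [le_div_iff₀ hρ] at n1
    rw [div_lt_iff₀ hρ] at n2
    exact mem_iUnion.2 ⟨n, n2.le, not_lt.2 n1⟩
  refine (lintegral_mono_set sub).trans ((lintegral_iUnion_le _ _).trans ?_)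
  have b : ∀ n : ℕ, ∫⁻ w in closedBall k (2 ^ (n + 1) * ρ) \ ball k (2 ^ n * ρ),
      ENNReal.ofReal (‖w - k‖ ^ 2)⁻¹ ∂s ≤ ENNReal.ofReal (4 * C / ρ / 2 / 2 ^ n) := fun n => by
    refine (setLIntegral_mono' (g := fun _ => ENNReal.ofReal ((2 ^ n * ρ) ^ 2)⁻¹)
      (measurableSet_closedBall.diff measurableSet_ball) fun w hw => ?_).trans ?_
    · refine ENNReal.ofReal_le_ofReal (inv_anti₀ (by positivity) (pow_le_pow_left₀ (by positivity) ?_ 2))
      simpa [dist_eq_norm] using hw.2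
    rw [setLIntegral_const]
    refine (mul_le_mul_right ((measure_mono sdiff_subset).trans (h _ (le_mul_of_one_le_left hρ.le
      (one_le_pow₀ one_le_two)))) _).trans_eq ?_
    rw [← ENNReal.ofReal_mul (by positivity)]
    congr 1
    field_simp
    ring
  refine (ENNReal.tsum_le_tsum b).trans_eq ?_
  rw [← ENNReal.ofReal_tsum_of_nonneg (fun _ => by positivity) (summable_geometric_two' _),
    tsum_geometric_two']

lemma im_le (p q : ℂ) : (conj p * q).im ^ 2 ≤ ‖p‖ ^ 2 * ‖q‖ ^ 2 := by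
  rw [← mul_pow, sq_le_sq, abs_of_nonneg (a := ‖p‖ * ‖q‖) (by positivity)]
  simpa using Complex.abs_im_le_norm (conj p * q)

lemma cv_le (a x y : ℂ) : cv a x y ≤ 4 * (‖y - a‖ ^ 2)⁻¹ := by
  have e : (conj (x - a) * (y - a)).im = -(conj (x - a) * (x - y)).im := by
    simp only [Complex.mul_im, Complex.conj_re, Complex.conj_im, Complex.sub_re, Complex.sub_im]
    ring
  unfold cv
  rw [e, neg_sq]
  rcases (sq_nonneg ‖y - a‖).eq_or_lt with h | h
  · simp [← h]
  have : ‖y - a‖ ≠ 0 := by intro h0; simp [h0] at h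
  refine div_le_of_le_mul₀ (by positivity) (by positivity) ?_
  rw [show 4 * (‖y - a‖ ^ 2)⁻¹ * (‖x - a‖ ^ 2 * ‖y - a‖ ^ 2 * ‖x - y‖ ^ 2) =
    4 * (‖x - a‖ ^ 2 * ‖x - y‖ ^ 2) by field_simp]
  linarith [im_le (x - a) (x - y)]

lemma cv_near {a a' x y : ℂ} {D : ℝ} (hD : 0 < D) (h : ‖a' - a‖ ≤ D) (hx : 4 * D < ‖x - a‖)
    (hy : 4 * D < ‖y - a‖) :
    cv a x y ≤ 5 * cv a' x y + 8 * D ^ 2 * ((‖x - a‖ ^ 2)⁻¹ * (‖y - a‖ ^ 2)⁻¹) := by
  have e : (conj (x - a) * (y - a)).im =
      (conj (x - a') * (y - a')).im - (conj (a' - a) * (x - y)).im := by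
    simp only [Complex.mul_im, Complex.conj_re, Complex.conj_im, Complex.sub_re, Complex.sub_im]
    ring
  have b := (im_le (a' - a) (x - y)).trans (mul_le_mul_of_nonneg_right
    (pow_le_pow_left₀ (norm_nonneg _) h 2) (by positivity))
  have t := @norm_sub_le_norm_sub_add_norm_sub ℂ _
  have x1 : ‖x - a'‖ ≤ 5 / 4 * ‖x - a‖ := by linarith [t x a a', norm_sub_rev a a']
  have y1 : ‖y - a'‖ ≤ 5 / 4 * ‖y - a‖ := by linarith [t y a a', norm_sub_rev a a']
  have x2 : 0 < ‖x - a'‖ := by linarith [t x a' a]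
  have y2 : 0 < ‖y - a'‖ := by linarith [t y a' a]
  have x0 : 0 < ‖x - a‖ := by linarith
  have y0 : 0 < ‖y - a‖ := by linarith
  unfold cv
  rcases (norm_nonneg (x - y)).eq_or_lt with z0 | z0
  · simp only [← z0]
    norm_num
    positivity
  rw [e]
  generalize (conj (x - a') * (y - a')).im = S at *
  generalize (conj (a' - a) * (x - y)).im = T at *
  have h1 : 4 * (S - T) ^ 2 ≤ 8 * S ^ 2 + 8 * (D ^ 2 * ‖x - y‖ ^ 2) := by nlinarith [sq_nonneg (S + T)]
  refine (div_le_div_of_nonneg_right h1 (by positivity)).trans ?_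
  rw [add_div]
  refine add_le_add ?_ (le_of_eq (by field_simp))
  rw [← mul_div_assoc, div_le_div_iff₀ (by positivity) (by positivity)]
  have h2 := mul_le_mul (pow_le_pow_left₀ x2.le x1 2) (pow_le_pow_left₀ y2.le y1 2) (by positivity)
    (by positivity)
  have h3 := mul_le_mul_of_nonneg_left h2 (by positivity : 0 ≤ S ^ 2 * ‖x - y‖ ^ 2)
  have h4 : 0 ≤ S ^ 2 * ‖x - y‖ ^ 2 * (‖x - a‖ ^ 2 * ‖y - a‖ ^ 2) := by positivity
  nlinarith

lemma isClosed_cur (μ : Measure ℂ) [SFinite μ] (K : ℝ≥0∞) : IsClosed {a | cur μ a ≤ K} := by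
  refine isClosed_of_closure_subset fun a ha => ?_
  obtain ⟨u, hu, ht⟩ := mem_closure_iff_seq_limit.1 ha
  refine le_trans (lintegral_mono fun p => ?_) ((lintegral_liminf_le (μ := μ.prod μ) (u := atTop)
    (f := fun n p => ENNReal.ofReal (cv (u n) p.1 p.2)) fun n =>
      (measurable_cv.comp measurable_prodMk_left).ennreal_ofReal).trans
      (liminf_le_of_frequently_le' (.of_forall hu)))
  by_cases h : ‖p.1 - a‖ ^ 2 * ‖p.2 - a‖ ^ 2 * ‖p.1 - p.2‖ ^ 2 = 0
  · simp [cv, h]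
  have c : ContinuousAt (fun a => cv a p.1 p.2) a := by
    unfold cv
    exact ContinuousAt.div (by fun_prop) (by fun_prop) h
  exact ((ENNReal.continuous_ofReal.tendsto _).comp (c.tendsto.comp ht)).liminf_eq.ge

theorem ptw (μ : Measure ℂ) [IsFiniteMeasure μ]
    (hg : ∀ a ρ, 0 < ρ → μ (closedBall a ρ) ≤ ENNReal.ofReal (2 * ρ)) {K : ℝ} (hK : 0 ≤ K) (a : ℂ) :
    cur (μ.restrict {a | cur μ a ≤ ENNReal.ofReal K}) a ≤ ENNReal.ofReal (5 * K + 2080) := by
  set E := {a | cur μ a ≤ ENNReal.ofReal K}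
  have cE : IsClosed E := isClosed_cur μ _
  have le := Measure.restrict_le_self (μ := μ) (s := E)
  rcases E.eq_empty_or_nonempty with h0 | h0
  · simp [cur, h0]
  by_cases ha : a ∈ E
  · exact (cur_mono le a).trans (ha.trans (ENNReal.ofReal_le_ofReal (by linarith)))
  have d0 := (cE.notMem_iff_infDist_pos h0).1 ha
  set d := infDist a E
  obtain ⟨a', h1, h2⟩ := (infDist_lt_iff h0).1 (show d < 2 * d by linarith)
  rw [dist_comm, dist_eq_norm] at h2
  let f : ℝ → ℂ → ℝ≥0∞ := fun r => indicator (closedBall a r)ᶜ fun w => ENNReal.ofReal (‖w - a‖ ^ 2)⁻¹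
  let χ : ℂ → ℝ≥0∞ := indicator (closedBall a (8 * d)) 1
  have mf : ∀ r, Measurable (f r) := fun r =>
    Measurable.indicator (by fun_prop) measurableSet_closedBall.compl
  have mχ : Measurable χ := measurable_one.indicator measurableSet_closedBall
  have bf : ∀ r, 0 < r → ∫⁻ w, f r w ∂μ ≤ ENNReal.ofReal (4 * 2 / r) := fun r hr => by
    rw [lintegral_indicator measurableSet_closedBall.compl]
    exact tail μ zero_le_two hr fun ρ h => hg a ρ (hr.trans_le h)
  have bχ : ∫⁻ w, χ w ∂μ ≤ ENNReal.ofReal (2 * (8 * d)) := by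
    rw [lintegral_indicator_one measurableSet_closedBall]
    exact hg _ _ (by positivity)
  have key : cur (μ.restrict E) a ≤ ∫⁻ p : ℂ × ℂ, (5 * ENNReal.ofReal (cv a' p.1 p.2) +
      ENNReal.ofReal (8 * (2 * d) ^ 2) * (f (8 * d) p.1 * f (8 * d) p.2) +
      4 * (χ p.1 * f (d / 2) p.2) + 4 * (f (d / 2) p.1 * χ p.2)) ∂(μ.prod μ) := by
    refine le_trans (lintegral_mono_ae ?_) (lintegral_mono' (Measure.prod_mono le le) le_rfl)
    rw [Measure.prod_restrict]
    filter_upwards [ae_restrict_mem (cE.measurableSet.prod cE.measurableSet)] with p hp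
    have far : ∀ w ∈ E, w ∈ (closedBall a (d / 2))ᶜ := fun w hw => by
      rw [mem_compl_iff, mem_closedBall', not_le]
      linarith [infDist_le_dist_of_mem (x := a) hw]
    have o : ∀ x : ℝ, ENNReal.ofReal (4 * x) = 4 * ENNReal.ofReal x := fun x => by
      rw [ENNReal.ofReal_mul (by norm_num)]; simp
    by_cases k1 : p.1 ∈ closedBall a (8 * d)
    · refine le_add_right (le_add_left ?_)
      simp only [χ, f, indicator_of_mem k1, indicator_of_mem (far _ hp.2), Pi.one_apply, one_mul, ← o]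
      exact ENNReal.ofReal_le_ofReal (cv_le _ _ _)
    by_cases k2 : p.2 ∈ closedBall a (8 * d)
    · refine le_add_left ?_
      simp only [χ, f, indicator_of_mem k2, indicator_of_mem (far _ hp.1), Pi.one_apply, mul_one, ← o]
      exact ENNReal.ofReal_le_ofReal ((cv_symm _ _ _).trans_le (cv_le _ _ _))
    refine le_add_right (le_add_right ?_)
    simp only [f, indicator_of_mem (mem_compl k1), indicator_of_mem (mem_compl k2)]
    rw [mem_closedBall, dist_eq_norm, not_le] at k1 k2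
    rw [← ENNReal.ofReal_mul (by positivity), ← ENNReal.ofReal_mul (by positivity),
      ← ENNReal.ofReal_ofNat, ← ENNReal.ofReal_mul (by positivity),
      ← ENNReal.ofReal_add (mul_nonneg (by norm_num) (cv_nonneg _ _ _)) (by positivity)]
    exact ENNReal.ofReal_le_ofReal (cv_near (by positivity) h2.le (by linarith) (by linarith))
  have m0 : Measurable fun p : ℂ × ℂ => ENNReal.ofReal (cv a' p.1 p.2) :=
    (measurable_cv.comp measurable_prodMk_left).ennreal_ofReal
  have m1 : ∀ {u v : ℂ → ℝ≥0∞}, Measurable u → Measurable v →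
      Measurable fun p : ℂ × ℂ => u p.1 * v p.2 := fun hu hv => by fun_prop
  rw [lintegral_add_right _ ((m1 (mf _) mχ).const_mul _), lintegral_add_right _
    ((m1 mχ (mf _)).const_mul _), lintegral_add_left (m0.const_mul _), lintegral_const_mul _ m0,
    lintegral_const_mul _ (m1 (mf _) (mf _)), lintegral_const_mul _ (m1 mχ (mf _)),
    lintegral_const_mul _ (m1 (mf _) mχ), lintegral_prod_mul (mf _).aemeasurable (mf _).aemeasurable,
    lintegral_prod_mul mχ.aemeasurable (mf _).aemeasurable,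
    lintegral_prod_mul (mf _).aemeasurable mχ.aemeasurable] at key
  have b1 := bf (8 * d) (by positivity)
  have b2 := bf (d / 2) (by positivity)
  refine key.trans ((add_le_add (add_le_add (add_le_add (mul_le_mul_right h1 _)
    (mul_le_mul_right (mul_le_mul' b1 b1) _)) (mul_le_mul_right (mul_le_mul' bχ b2) _))
    (mul_le_mul_right (mul_le_mul' b2 bχ) _)).trans_eq ?_)
  rw [← ENNReal.ofReal_ofNat 5, ← ENNReal.ofReal_ofNat 4]
  repeat rw [← ENNReal.ofReal_mul (by positivity)]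
  repeat rw [← ENNReal.ofReal_add (by positivity) (by positivity)]
  congr 1
  field_simp
  ring

end Pool.Agent.Lib.MP_45cb44_an.TC
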