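import Pool.Agent.Lib.MP_45cb44_an.TC.Cv

/-! Weak type estimate for Cauchy transforms of vector measures. -/

namespace Pool.Agent.Lib.MP_45cb44_an.TC

open MeasureTheory Metric Set Filter Topology
open scoped ENNReal NNReal Real ComplexConjugate InnerProductSpace

variable {G : Type*} [NormedAddCommGroup G] [InnerProductSpace ℂ G] [CompleteSpace G]
  {μ σ : Measure ℂ} {P K B Λ : ℝ} {g b : ℂ → G}

omit [InnerProductSpace ℂ G] [CompleteSpace G] in
lemma Bm.int_norm [IsFiniteMeasure σ] (hg : Bm g B) : Integrable (fun a => ‖g a‖) σ :=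
  .of_bound hg.m.norm.aestronglyMeasurable B (.of_forall fun a => by simpa using hg.le a)

omit [InnerProductSpace ℂ G] [CompleteSpace G] in
lemma Bm.int_sq [IsFiniteMeasure σ] (hg : Bm g B) : Integrable (fun a => ‖g a‖ ^ 2) σ :=
  .of_bound (hg.m.norm.pow 2).aestronglyMeasurable (B ^ 2) (.of_forall fun a => by
    rw [norm_pow, norm_norm]
    exact pow_le_pow_left₀ (norm_nonneg _) (hg.le a) 2)

lemma Nice.cv_le [IsFiniteMeasure μ] [IsFiniteMeasure σ] (h : Nice μ P) {C : ℝ} (hC : 0 ≤ C)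
    (hc : ∀ a, cur μ a ≤ ENNReal.ofReal C) :
    ∫ p : ℂ × ℂ × ℂ, cv p.1 p.2.1 p.2.2 ∂(σ.prod (μ.prod μ)) ≤ C * σ.real univ := by
  rw [← ENNReal.ofReal_le_ofReal_iff (by positivity), h.cv_eq, ENNReal.ofReal_mul hC,
    ofReal_measureReal, ← lintegral_const]
  exact lintegral_mono hc

lemma w0 [IsFiniteMeasure μ] [IsFiniteMeasure σ] (h : Nice μ P) (hK : 0 < K)
    (hc : ∀ a, cur μ a ≤ ENNReal.ofReal (K ^ 2)) (hb : Bm b 1) (hΛ : 0 ≤ Λ)
    (h1 : ∀ᵐ z ∂μ, ‖Cf σ (fun _ => (1 : ℂ)) z‖ ≤ 2 * Λ ∧ Λ ≤ ‖Cb σ b z‖) :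
    Λ * μ.real univ ≤ 17 * K * σ.real univ := by
  set m := μ.real univ
  set s := σ.real univ
  have m0 : 0 ≤ m := measureReal_nonneg
  have s0 : 0 ≤ s := measureReal_nonneg
  let g : ℂ → G := fun z => ((‖Cb σ b z‖⁻¹ : ℝ) : ℂ) • Cb σ b z
  have sm := hb.tr_sm (σ := σ) ker_conj
  have hg : Bm g 1 := ⟨(Complex.measurable_ofReal.comp sm.norm.measurable.inv).stronglyMeasurable.smul
    sm, fun z => by
      simp only [g, norm_smul, Complex.norm_real, norm_inv, norm_norm]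
      exact inv_mul_le_one⟩
  have f1 := hg.tr ker_inv h
  have f2 := hg.tr ker_conj h
  have f3 := bm_one.tr ker_inv h
  have t1 := h.cv_le (σ := μ) (sq_nonneg K) hc
  have t2 := h.cv_le (σ := σ) (sq_nonneg K) hc
  have a1 := mel (σ := μ) h hg
  have a2 := mel (σ := σ) h hg
  have iF : ∀ (ν : Measure ℂ) [IsFiniteMeasure ν],
      Integrable (fun a => ‖Cf μ g a‖ ^ 2 + ‖Cb μ g a‖ ^ 2) ν := fun ν _ => f1.int_sq.add f2.int_sq
  have b1 : ∫ x, ‖Cf μ (fun _ => (1 : ℂ)) x‖ * (‖Cf μ g x‖ + ‖Cb μ g x‖) ∂μ ≤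
      2 * ∫ x, ‖Cf μ (fun _ => (1 : ℂ)) x‖ ^ 2 ∂μ +
        1 / 4 * ∫ a, (‖Cf μ g a‖ ^ 2 + ‖Cb μ g a‖ ^ 2) ∂μ := by
    rw [← integral_const_mul, ← integral_const_mul, ← integral_add (f3.int_sq.const_mul _)
      ((iF μ).const_mul _)]
    refine integral_mono_of_nonneg (.of_forall fun x => by positivity)
      ((f3.int_sq.const_mul _).add ((iF μ).const_mul _)) (.of_forall fun x => ?_)
    simp only
    nlinarith [sq_nonneg (‖Cf μ g x‖ - ‖Cb μ g x‖),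
      sq_nonneg (4 * ‖Cf μ (fun _ => (1 : ℂ)) x‖ - (‖Cf μ g x‖ + ‖Cb μ g x‖))]
  have b2 : ∫ x, ‖Cf σ (fun _ => (1 : ℂ)) x‖ * (‖Cf μ g x‖ + ‖Cb μ g x‖) ∂μ ≤
      2 * Λ * K * m + Λ / K * ∫ a, (‖Cf μ g a‖ ^ 2 + ‖Cb μ g a‖ ^ 2) ∂μ := by
    rw [← integral_const_mul, mul_comm _ m, ← smul_eq_mul m, ← integral_const,
      ← integral_add (integrable_const _) ((iF μ).const_mul _)]
    refine integral_mono_of_nonneg (.of_forall fun x => by positivity)
      ((integrable_const _).add ((iF μ).const_mul _)) ?_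
    filter_upwards [h1] with x hx
    refine (mul_le_mul_of_nonneg_right hx.1 (by positivity)).trans ?_
    rw [show 2 * Λ * K + Λ / K * (‖Cf μ g x‖ ^ 2 + ‖Cb μ g x‖ ^ 2) =
      2 * Λ * ((2 * K ^ 2 + (‖Cf μ g x‖ ^ 2 + ‖Cb μ g x‖ ^ 2)) / (2 * K)) by field_simp]
    refine mul_le_mul_of_nonneg_left ?_ (by positivity)
    rw [le_div_iff₀ (by positivity)]
    nlinarith [sq_nonneg (K - ‖Cf μ g x‖), sq_nonneg (K - ‖Cb μ g x‖)]
  have c1 : Λ * m ≤ ∫ w, ‖Cf μ g w‖ ∂σ := by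
    have i : Integrable (fun p : ℂ × ℂ => ⟪g p.1, (conj (p.2 - p.1))⁻¹ • b p.2⟫_ℂ) (μ.prod σ) := by
      have := hb.int2 (σ := σ) ker_conj h
      refine this.norm.mono' ((hg.m.comp_measurable measurable_fst).inner
        (hb.sm ker_conj)).aestronglyMeasurable (.of_forall fun p => ?_)
      exact (norm_inner_le_norm _ _).trans (mul_le_of_le_one_left (norm_nonneg _) (hg.le _))
    have e1 : ∫ z, ∫ w, ⟪g z, (conj (w - z))⁻¹ • b w⟫_ℂ ∂σ ∂μ = ∫ z, ((‖Cb σ b z‖ : ℝ) : ℂ) ∂μ := by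
      refine integral_congr_ae ?_
      filter_upwards [(hb.int2 (σ := σ) ker_conj h).prod_right_ae] with z hz
      rw [integral_inner hz]
      change ⟪g z, Cb σ b z⟫_ℂ = _
      simp only [g, inner_smul_left, inner_self_eq_norm_sq_to_K, Complex.conj_ofReal,
        Complex.coe_algebraMap]
      by_cases h0 : ‖Cb σ b z‖ = 0
      · simp [h0]
      · have : ((‖Cb σ b z‖ : ℝ) : ℂ) ≠ 0 := by exact_mod_cast h0
        push_cast
        field_simp
    have e2 : ∀ w, ∫ z, ⟪g z, (conj (w - z))⁻¹ • b w⟫_ℂ ∂μ = -⟪Cf μ g w, b w⟫_ℂ := fun w => by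
      rw [← inner_conj_symm, Cf, Tr, ← integral_inner (hg.int ker_inv (h.int w)), ← integral_conj,
        ← integral_neg]
      refine integral_congr_ae (.of_forall fun z => ?_)
      simp only [inner_smul_right, map_mul, inner_conj_symm, map_inv₀, ← neg_mul, ← inv_neg,
        ← map_neg, neg_sub]
    rw [integral_integral_swap i, integral_complex_ofReal] at e1
    have e3 : Λ * m ≤ ∫ z, ‖Cb σ b z‖ ∂μ := by
      rw [mul_comm, ← smul_eq_mul m, ← integral_const]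
      exact integral_mono_ae (integrable_const _)
        (hb.int2 (σ := σ) ker_conj h).integral_prod_left.norm (h1.mono fun _ hx => hx.2)
    refine e3.trans ((Real.le_norm_self _).trans ?_)
    rw [← Complex.norm_real, ← e1]
    refine norm_integral_le_of_norm_le f1.int_norm (.of_forall fun w => ?_)
    rw [e2, norm_neg]
    exact (norm_inner_le_norm _ _).trans (mul_le_of_le_one_right (norm_nonneg _) (hb.le _))
  have c2 : ∫ w, ‖Cf μ g w‖ ∂σ ≤ 12 * K * s +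
      1 / (48 * K) * ∫ a, (‖Cf μ g a‖ ^ 2 + ‖Cb μ g a‖ ^ 2) ∂σ := by
    rw [← integral_const_mul, mul_comm _ s, ← smul_eq_mul s, ← integral_const,
      ← integral_add (integrable_const _) ((iF σ).const_mul _)]
    refine integral_mono f1.int_norm ((integrable_const _).add ((iF σ).const_mul _)) fun x => ?_
    simp only
    rw [show 12 * K + 1 / (48 * K) * (‖Cf μ g x‖ ^ 2 + ‖Cb μ g x‖ ^ 2) =
      (576 * K ^ 2 + (‖Cf μ g x‖ ^ 2 + ‖Cb μ g x‖ ^ 2)) / (48 * K) by field_simp; ring,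
      le_div_iff₀ (by positivity)]
    nlinarith [sq_nonneg (24 * K - ‖Cf μ g x‖), sq_nonneg ‖Cb μ g x‖]
  rw [h.tot] at t1 a1
  have d1 : ∫ a, (‖Cf μ g a‖ ^ 2 + ‖Cb μ g a‖ ^ 2) ∂μ ≤ 4 * (K ^ 2 * m) := by
    have : 0 ≤ K ^ 2 * m := by positivity
    linarith
  have d2 := mul_le_mul_of_nonneg_left d1 (by positivity : 0 ≤ Λ / K)
  rw [show Λ / K * (4 * (K ^ 2 * m)) = 4 * (Λ * K * m) by field_simp] at d2
  have d3 : ∫ a, (‖Cf μ g a‖ ^ 2 + ‖Cb μ g a‖ ^ 2) ∂σ ≤ K ^ 2 * s + 12 * (Λ * K * m) := by linarith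
  have d4 := mul_le_mul_of_nonneg_left d3 (by positivity : 0 ≤ 1 / (48 * K))
  rw [show 1 / (48 * K) * (K ^ 2 * s + 12 * (Λ * K * m)) = K * s / 48 + Λ * m / 4 by
    field_simp; ring] at d4
  have : 0 ≤ K * s := by positivity
  linarith

lemma w1 [IsFiniteMeasure μ] [IsFiniteMeasure σ] (h : Nice μ P) (hK : 0 < K)
    (hc : ∀ a, cur μ a ≤ ENNReal.ofReal (K ^ 2)) (hb : Bm b 1) (hΛ : 0 < Λ) :
    μ {z | ‖Cf σ (fun _ => (1 : ℂ)) z‖ ≤ 2 * Λ ∧ Λ ≤ ‖Cb σ b z‖} ≤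
      ENNReal.ofReal (17 * K * σ.real univ / Λ) := by
  have m : MeasurableSet {z | ‖Cf σ (fun _ => (1 : ℂ)) z‖ ≤ 2 * Λ ∧ Λ ≤ ‖Cb σ b z‖} :=
    (measurableSet_le (bm_one.tr_sm ker_inv).norm.measurable measurable_const).inter
      (measurableSet_le measurable_const (hb.tr_sm ker_conj).norm.measurable)
  have := w0 (σ := σ) (h.mono Measure.restrict_le_self) hK
    (fun a => (cur_mono Measure.restrict_le_self a).trans (hc a)) hb hΛ.le (ae_restrict_mem m)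
  rw [← ofReal_measureReal]
  refine ENNReal.ofReal_le_ofReal ?_
  rw [le_div_iff₀' hΛ]
  rw [measureReal_restrict_apply_univ] at this
  exact this

/-- The transform converges absolutely and is small at `z`. -/
def Gd (σ : Measure ℂ) (b : ℂ → G) (Λ : ℝ) (z : ℂ) : Prop :=
  Integrable (fun w => ‖w - z‖⁻¹) σ ∧ ‖Cb σ b z‖ ≤ Λ

omit [CompleteSpace G] in
lemma measurableSet_Gd [SFinite σ] (hb : Bm b B) : MeasurableSet {z | Gd σ b Λ z} := by
  refine MeasurableSet.inter (measurableSet_integrable ?_)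
    (measurableSet_le (hb.tr_sm ker_conj).norm.measurable measurable_const)
  exact Measurable.stronglyMeasurable (by unfold Function.uncurry; fun_prop)

theorem weak [IsFiniteMeasure μ] [IsFiniteMeasure σ] (h : Nice μ P) (hK : 0 < K)
    (hc : ∀ a, cur μ a ≤ ENNReal.ofReal (K ^ 2)) (hb : Bm b 1) (hΛ : 0 < Λ) :
    μ {z | ¬Gd σ b Λ z} ≤ ENNReal.ofReal (51 * K * σ.real univ / Λ) := by
  set s := σ.real univ
  have s0 : 0 ≤ s := measureReal_nonneg
  have n : μ {z | ¬Integrable (fun w => ‖w - z‖⁻¹) σ} = 0 :=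
    (h.int2 (σ := σ)).prod_left_ae
  have sub : {z | ¬Gd σ b Λ z} ⊆ {z | ¬Integrable (fun w => ‖w - z‖⁻¹) σ} ∪
      ({z | ‖Cf σ (fun _ => (1 : ℂ)) z‖ ≤ 2 * Λ ∧ Λ ≤ ‖Cb σ b z‖} ∪
      ⋃ k : ℕ, {z | ‖Cf σ (fun _ => (1 : ℂ)) z‖ ≤ 2 * (2 ^ k * Λ) ∧
        2 ^ k * Λ ≤ ‖Cb σ (fun _ => (1 : ℂ)) z‖}) := fun z hz => by
    by_cases h1 : Integrable (fun w => ‖w - z‖⁻¹) σ
    swap
    · exact Or.inl h1
    right
    by_cases h2 : ‖Cf σ (fun _ => (1 : ℂ)) z‖ ≤ 2 * Λ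
    · exact Or.inl ⟨h2, (not_le.1 fun h3 => hz ⟨h1, h3⟩).le⟩
    obtain ⟨k, k1, k2⟩ := exists_nat_pow_near (x := ‖Cf σ (fun _ => (1 : ℂ)) z‖ / Λ) (y := 2)
      (by rw [le_div_iff₀ hΛ]; linarith) one_lt_two
    rw [le_div_iff₀ hΛ] at k1
    rw [div_lt_iff₀ hΛ, pow_succ] at k2
    exact Or.inr (mem_iUnion.2 ⟨k, by linarith, by simpa [Cb_one] using k1⟩)
  refine (measure_mono sub).trans ((measure_union_le _ _).trans ?_)
  rw [n, zero_add]
  refine (measure_union_le _ _).trans ((add_le_add (w1 h hK hc hb hΛ) ((measure_iUnion_le _).trans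
    (ENNReal.tsum_le_tsum fun k => w1 h hK hc bm_one (by positivity)))).trans_eq ?_)
  have e : ∀ k : ℕ, 17 * K * s / (2 ^ k * Λ) = 34 * K * s / Λ / 2 / 2 ^ k := fun k => by
    field_simp; ring
  simp only [s] at e
  simp only [e]
  rw [← ENNReal.ofReal_tsum_of_nonneg (fun _ => by positivity) (summable_geometric_two' _),
    tsum_geometric_two', ← ENNReal.ofReal_add (by positivity) (by positivity)]
  congr 1
  ring

end Pool.Agent.Lib.MP_45cb44_an.TC
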