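import Pool.Agent.Lib.MP_45cb44_an.TC.Ptw
import Pool.Agent.Lib.MP_45cb44_an.TC.Wk

/-! A measure with bounded curvature along a Lipschitz graph. -/

namespace Pool.Agent.Lib.MP_45cb44_an.TC

open MeasureTheory Metric Set Filter Topology
open scoped ENNReal NNReal Real ComplexConjugate InnerProductSpace

variable {μ : Measure ℂ} {P : ℝ}

lemma nice_of_le [IsFiniteMeasure μ] {c : ℝ≥0} (h : μ ≤ c • mm) : ∃ P, Nice μ P := by
  have k : ∀ z : ℂ, Integrable (fun w => 1 + indicator (ball z 1) (fun w => ‖w - z‖⁻¹) w) μ ∧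
      ∫ w, 1 + indicator (ball z 1) (fun w => ‖w - z‖⁻¹) w ∂μ ≤ μ.real univ + c * 2 := fun z => by
    obtain ⟨a, b⟩ := newton_ball z zero_le_one
    have a1 := (a.integrable_indicator measurableSet_ball).smul_measure_nnreal (c := c)
    refine ⟨(integrable_const _).add (a1.mono_measure h), ?_⟩
    rw [integral_add (integrable_const _) (a1.mono_measure h)]
    refine add_le_add (by simp) ((integral_mono_measure h (.of_forall fun w =>
      indicator_nonneg (fun _ _ => by positivity) _) a1).trans_eq ?_)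
    rw [integral_smul_nnreal_measure, integral_indicator measurableSet_ball, b]
    simp [NNReal.smul_def]
  have l : ∀ z w : ℂ, ‖w - z‖⁻¹ ≤ 1 + indicator (ball z 1) (fun w => ‖w - z‖⁻¹) w := fun z w => by
    by_cases h : w ∈ ball z 1
    · simp [h]
    · simpa [h] using inv_le_one_of_one_le₀ (by simpa [dist_eq_norm] using h)
  have i : ∀ z : ℂ, Integrable (fun w => ‖w - z‖⁻¹) μ := fun z =>
    (k z).1.mono' (Measurable.aestronglyMeasurable (by fun_prop))
      (.of_forall fun w => by simpa using l z w)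
  exact ⟨_, fun z => le_zero_iff.1 ((h _).trans_eq (by simp)), i,
    fun z => (integral_mono (i z) (k z).1 (l z)).trans (k z).2⟩

lemma small_slope [IsFiniteMeasure μ] (h : Nice μ P) {g : ℂ → ℂ} (hg : Bm g (1 / 10))
    (hb : ∀ a, |(Cf μ (fun _ => (1 : ℂ)) a + Complex.I * Cf μ g a).im| ≤ 8) :
    ∫⁻ a, cur μ a ∂μ ≤ ENNReal.ofReal (7680 * μ.real univ) := by
  have f1 := hg.tr ker_inv h
  have f2 := hg.tr ker_conj h
  have f3 := bm_one.tr ker_inv h
  have a1 := mel (σ := μ) h hg
  have iF : Integrable (fun a => ‖Cf μ g a‖ ^ 2 + ‖Cb μ g a‖ ^ 2) μ := f1.int_sq.add f2.int_sq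
  have b1 : ∫ x, ‖Cf μ (fun _ => (1 : ℂ)) x‖ * (‖Cf μ g x‖ + ‖Cb μ g x‖) ∂μ ≤
      1 / 5 * ∫ x, ‖Cf μ (fun _ => (1 : ℂ)) x‖ ^ 2 ∂μ +
        5 / 2 * ∫ a, (‖Cf μ g a‖ ^ 2 + ‖Cb μ g a‖ ^ 2) ∂μ := by
    rw [← integral_const_mul, ← integral_const_mul, ← integral_add (f3.int_sq.const_mul _)
      (iF.const_mul _)]
    refine integral_mono_of_nonneg (.of_forall fun x => by positivity)
      ((f3.int_sq.const_mul _).add (iF.const_mul _)) (.of_forall fun x => ?_)
    simp only
    nlinarith [sq_nonneg (‖Cf μ g x‖ - ‖Cb μ g x‖),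
      sq_nonneg (2 * ‖Cf μ (fun _ => (1 : ℂ)) x‖ - 5 * (‖Cf μ g x‖ + ‖Cb μ g x‖))]
  have i2 : Integrable (fun a => Cf μ (fun _ => (1 : ℂ)) a ^ 2) μ :=
    f3.int_sq.mono' (f3.m.pow 2).aestronglyMeasurable (.of_forall fun a => by simp)
  have b2 : ∫ x, ‖Cf μ (fun _ => (1 : ℂ)) x‖ ^ 2 ∂μ ≤ 256 * μ.real univ +
      4 * ∫ a, (‖Cf μ g a‖ ^ 2 + ‖Cb μ g a‖ ^ 2) ∂μ := by
    have e := integral_re i2
    rw [h.hol, map_zero] at e
    rw [← integral_const_mul, mul_comm _ (μ.real univ), ← smul_eq_mul (μ.real univ),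
      ← integral_const, ← integral_add (integrable_const _) (iF.const_mul _), ← add_zero (∫ _, _ + _ ∂μ),
      ← e, ← integral_add (by exact (integrable_const _).add (iF.const_mul _)) i2.re]
    refine integral_mono f3.int_sq (((integrable_const _).add (iF.const_mul _)).add i2.re) fun a => ?_
    have := abs_le.1 (hb a)
    simp only [RCLike.re_to_complex, Complex.sq_norm, Complex.normSq_apply]
    generalize Cf μ (fun _ => (1 : ℂ)) a = X at *
    generalize Cf μ g a = Y at *
    generalize Cb μ g a = Z at *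
    simp only [Complex.add_im, Complex.mul_im, Complex.I_re, Complex.I_im, sq, Complex.mul_re] at *
    nlinarith [mul_self_nonneg Y.im, mul_self_nonneg Z.im, mul_self_nonneg Z.re,
      mul_self_nonneg (X.im + 2 * Y.re)]
  rw [← h.cv_eq]
  rw [h.tot] at a1 ⊢
  exact ENNReal.ofReal_le_ofReal (by linarith)

lemma log_bd {γ γ' : ℝ → ℂ} (h : ∀ x, HasDerivAt γ (γ' x) x) (hc : Continuous γ') {ε : ℂ}
    (hs : ∀ x, ε * γ x ∈ Complex.slitPlane) (p q : ℝ) :
    |(∫ x in p..q, (γ x)⁻¹ * γ' x).im| ≤ 8 := by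
  have n : ∀ x, γ x ≠ 0 := fun x h => by simpa [h] using hs x
  have n' : ε ≠ 0 := fun h => by simpa [h] using hs 0
  have c : Continuous γ := continuous_iff_continuousAt.2 fun x => (h x).continuousAt
  rw [intervalIntegral.integral_eq_sub_of_hasDerivAt (f := fun x => Complex.log (ε * γ x))
    (fun x _ => by
      rw [← div_eq_inv_mul, ← mul_div_mul_left _ _ n']
      exact ((h x).const_mul ε).clog_real (hs x)) (by exact ((c.inv₀ n).mul hc).intervalIntegrable _ _), Complex.sub_im, Complex.log_im,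
    Complex.log_im]
  linarith [abs_sub (ε * γ q).arg (ε * γ p).arg, (ε * γ q).abs_arg_le_pi, (ε * γ p).abs_arg_le_pi,
    Real.pi_le_four]

lemma flat {β β' : ℝ → ℝ} (hβ : ∀ x, HasDerivAt β (β' x) x) (hc : Continuous β')
    (hb : ∀ x, |β' x| ≤ 1 / 10) {h D : ℝ} (h0 : 0 < h) (D0 : 0 < D) :
    ∃ μ : Measure ℂ, IsFiniteMeasure μ ∧ (∃ P, Nice μ P) ∧
      ∫⁻ a, cur μ a ∂μ ≤ ENNReal.ofReal (15360 * D) ∧
      (∀ a ρ, μ (closedBall a ρ) ≤ ENNReal.ofReal (2 * ρ)) ∧
      ∀ S p q, MeasurableSet S → -D ≤ p → q ≤ D →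
        (∀ x ∈ Icc p q, ∀ u ∈ Icc 0 h, (⟨x, β x + u⟩ : ℂ) ∈ S) → ENNReal.ofReal (q - p) ≤ μ S := by
  have cβ : Continuous β := continuous_iff_continuousAt.2 fun x => (hβ x).continuousAt
  let Γ : ℝ × ℝ → ℂ := fun p => ⟨p.1, β p.1 + p.2⟩
  have mp : MeasurePreserving Γ (volume.prod volume) volume :=
    Complex.volume_preserving_equiv_real_prod.symm.comp ((MeasurePreserving.id volume).skew_product
      (g := fun x u => β x + u) (by fun_prop) (.of_forall fun x => map_add_left_eq_self _ _))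
  have mΓ := mp.measurable
  let ν : Measure ℝ := ENNReal.ofReal h⁻¹ • volume.restrict (Icc 0 h)
  have n1 : ν (Icc 0 h) = 1 := by simp [ν, ← ENNReal.ofReal_mul (inv_pos.2 h0).le, h0.ne']
  have : IsProbabilityMeasure ν := ⟨by simp [ν, ← ENNReal.ofReal_mul (inv_pos.2 h0).le, h0.ne']⟩
  let ϱ : Measure ℝ := volume.restrict (Icc (-D) D)
  obtain ⟨P, hP⟩ := nice_of_le (μ := (ϱ.prod ν).map Γ) (c := h⁻¹.toNNReal * NNReal.pi) (by
    refine (Measure.map_mono (Measure.prod_mono Measure.restrict_le_self (smul_le_smul_left _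
      Measure.restrict_le_self)) mΓ).trans_eq ?_
    rw [Measure.prod_smul_right, Measure.map_smul, mp.map_eq, mm, smul_smul,
      mul_inv_cancel_right₀ NNReal.pi_ne_zero]
    rfl)
  refine ⟨(ϱ.prod ν).map Γ, inferInstance, ⟨P, hP⟩, ?_, fun a ρ => ?_, fun S p q hS hp hq h1 => ?_⟩
  · have hg : Bm (fun w : ℂ => (β' w.re : ℂ)) (1 / 10) :=
      ⟨Continuous.stronglyMeasurable (by fun_prop), fun w => by simpa using hb _⟩
    refine (small_slope hP hg fun a => ?_).trans_eq ?_
    swap
    · rw [map_measureReal_apply mΓ .univ]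
      congr 1
      simp [ϱ, measureReal_def, ← univ_prod_univ, D0.le]
      ring
    have i1 := bm_one.int ker_inv (hP.int a)
    have i2 := (hg.int ker_inv (hP.int a)).const_mul Complex.I
    have i3 := (integrable_map_measure (i1.add i2).aestronglyMeasurable mΓ.aemeasurable).1 (i1.add i2)
    rw [Cf, Cf, Tr, Tr, ← integral_const_mul, ← integral_add' i1 i2,
      integral_map mΓ.aemeasurable (i1.add i2).aestronglyMeasurable, integral_prod_symm _ (by exact i3),
      ← RCLike.im_to_complex, ← integral_im (by exact i3.integral_prod_right)]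
    rw [← Real.norm_eq_abs]
    refine le_trans (norm_integral_le_of_norm_le_const (μ := ν) (C := 8) ?_) (by simp)
    have n : ∀ᵐ u ∂ν, u ≠ a.im - β a.re := by simp [ae_iff, ν]
    filter_upwards [n] with u hu
    have d : ∀ x, HasDerivAt (fun x : ℝ => Γ (x, u) - a) (1 + β' x * Complex.I) x := fun x => by
      have := (((hasDerivAt_id x).ofReal_comp.add (((hβ x).add_const u).ofReal_comp.mul_const
        Complex.I)).sub_const a)
      simpa [Γ, Complex.mk_eq_add_mul_I] using this
    obtain ⟨ε, hε⟩ : ∃ ε : ℂ, ∀ x, ε * (Γ (x, u) - a) ∈ Complex.slitPlane := by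
      rcases hu.lt_or_gt with k | k
      · refine ⟨Complex.I, fun x => (em (x = a.re)).imp (fun e => ?_) fun e => ?_⟩
        · simp [Γ, e]; linarith
        · simpa [Γ, sub_eq_zero] using e
      · refine ⟨-Complex.I, fun x => (em (x = a.re)).imp (fun e => ?_) fun e => ?_⟩
        · simp [Γ, e]; linarith
        · simpa [Γ, sub_eq_zero] using Ne.symm e
    have := log_bd d (by fun_prop) hε (-D) D
    rw [intervalIntegral.integral_of_le (by linarith), ← integral_Icc_eq_integral_Ioc] at this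
    refine le_of_eq_of_le (congrArg (fun w : ℂ => |w.im|) (integral_congr_ae
      (.of_forall fun x => ?_))) this
    simp [Γ]
    ring
  · rw [Measure.map_apply mΓ measurableSet_closedBall]
    refine (measure_mono (t := closedBall a.re ρ ×ˢ univ) fun p hp => ⟨?_, trivial⟩).trans ?_
    · exact (Complex.abs_re_le_norm (Γ p - a)).trans (mem_closedBall_iff_norm.1 hp)
    · rw [Measure.prod_prod, measure_univ, mul_one, ← Real.volume_closedBall]
      exact Measure.restrict_le_self _
  · rw [Measure.map_apply mΓ hS]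
    refine le_trans (le_of_eq ?_) (measure_mono (s := Icc p q ×ˢ Icc 0 h) fun x hx => h1 _ hx.1 _ hx.2)
    rw [Measure.prod_prod, n1, mul_one, Measure.restrict_eq_self _ (Icc_subset_Icc hp hq),
      Real.volume_Icc]

section
variable {Φ : ℂ → ℂ} {L : ℝ} (m : Measurable Φ) (h1 : Function.Surjective Φ)
  (h2 : ∀ p q, ‖p - q‖ ≤ ‖Φ p - Φ q‖)
include m h2

lemma lintegral_cur_map [SFinite μ]
    (h3 : ∀ a x y, (conj (Φ x - Φ a) * (Φ y - Φ a)).im = L * (conj (x - a) * (y - a)).im) :
    ∫⁻ a, cur (μ.map Φ) a ∂(μ.map Φ) ≤ ENNReal.ofReal (L ^ 2) * ∫⁻ a, cur μ a ∂μ := by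
  rw [lintegral_map (measurable_cur _) m, ← lintegral_const_mul' _ _ (by simp)]
  refine lintegral_mono fun a => ?_
  rw [cur, cur, Measure.map_prod_map _ _ m m, ← lintegral_const_mul' _ _ (by simp), lintegral_map
    (by exact (measurable_cv.comp measurable_prodMk_left).ennreal_ofReal) (m.prodMap m)]
  refine lintegral_mono fun p => ?_
  rw [← ENNReal.ofReal_mul (by positivity)]
  refine ENNReal.ofReal_le_ofReal ?_
  obtain ⟨x, y⟩ := p
  rcases eq_or_ne x a with rfl | n1
  · simp [cv]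
  rcases eq_or_ne y a with rfl | n2
  · simp [cv]
  rcases eq_or_ne x y with rfl | n3
  · simp [cv]
  have := sub_ne_zero.2 n1
  have := sub_ne_zero.2 n2
  have := sub_ne_zero.2 n3
  simp only [cv, Prod.map, h3, mul_pow, mul_left_comm _ (L ^ 2), mul_div_assoc]
  have := h2 x a
  have := h2 y a
  have := h2 x y
  gcongr

include h1

lemma Nice.map (h : Nice μ P) : Nice (μ.map Φ) P := by
  have l : ∀ a w, ‖Φ w - Φ a‖⁻¹ ≤ ‖w - a‖⁻¹ := fun a w => by
    rcases eq_or_ne w a with rfl | n
    · simp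
    · exact inv_anti₀ (norm_pos_iff.2 (sub_ne_zero.2 n)) (h2 _ _)
  have ms : ∀ z : ℂ, Measurable fun w => ‖w - z‖⁻¹ := fun z => by fun_prop
  have i : ∀ a, Integrable (fun w => ‖Φ w - Φ a‖⁻¹) μ := fun a => (h.int a).mono'
    ((ms _).comp m).aestronglyMeasurable (.of_forall fun w => by simpa using l a w)
  refine ⟨h1.forall.2 fun a => ?_, h1.forall.2 fun a => (integrable_map_measure
    (ms _).aestronglyMeasurable m.aemeasurable).2 (i a), h1.forall.2 fun a => ?_⟩
  · rw [Measure.map_apply m (measurableSet_singleton _)]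
    refine measure_mono_null (fun w (hw : Φ w = Φ a) => ?_) (h.atom a)
    simpa [hw, sub_eq_zero] using h2 w a
  · rw [integral_map m.aemeasurable (ms _).aestronglyMeasurable]
    exact (integral_mono (i a) (h.int a) (l a)).trans (h.le a)

end

theorem strip {M κ : ℝ} (hM : 1 ≤ M) (hκ : 0 < κ) : ∃ K : ℝ, 0 < K ∧
    ∀ (A : ℝ → ℝ) (t d : ℝ) (z ω : ℂ), (∀ x y, |A x - A y| ≤ M * |x - y|) → 0 < t → t ≤ d →
      ‖ω‖ = 1 → ∃ (μ τ : Measure ℂ) (P : ℝ), IsFiniteMeasure μ ∧ Nice μ P ∧
        (∀ a, cur μ a ≤ ENNReal.ofReal (K ^ 2)) ∧ τ univ ≤ ENNReal.ofReal (κ * d) ∧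
        ∀ x r : ℝ, |x| ≤ d → t ≤ r → r ≤ d → ENNReal.ofReal (2 * r) ≤
          (μ + τ) (closedBall (z + ω * (x + A x * Complex.I)) ((2 * M + 2) * r)) := by
  obtain ⟨L, hL⟩ : ∃ L, L = 10 * M := ⟨_, rfl⟩
  have L0 : 0 < L := by linarith
  have M0 : 0 < M := by linarith
  refine ⟨√(5 * (L ^ 2 * 30720 / κ) + 2080), by positivity, fun A t d z ω hA t0 td hω => ?_⟩
  have cA : Continuous A := (LipschitzWith.of_dist_le_mul (K := ⟨M, M0.le⟩) hA).continuous
  have d0 : 0 < d := by linarith
  have iA := cA.intervalIntegrable (μ := volume)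
  let β : ℝ → ℝ := fun x => ((∫ s in 0..x + t, A s) - ∫ s in 0..x, A s) / (t * L)
  have hβ : ∀ x, HasDerivAt β ((A (x + t) - A x) / (t * L)) x := fun x =>
    (((cA.integral_hasStrictDerivAt 0 (x + t)).hasDerivAt.comp_add_const x t).sub
      (cA.integral_hasStrictDerivAt 0 x).hasDerivAt).div_const _
  have nβ : ∀ x, |L * β x - A x| ≤ M * t := fun x => by
    have := intervalIntegral.norm_integral_le_of_norm_le_const (a := x) (b := x + t) (C := M * t)
      (f := fun s => A s - A x) fun s hs => by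
        rw [uIoc_of_le (by linarith)] at hs
        refine (hA s x).trans (mul_le_mul_of_nonneg_left (abs_le.2 ⟨?_, ?_⟩) M0.le) <;>
          linarith [hs.1, hs.2]
    rw [intervalIntegral.integral_sub (iA _ _) (by simp), intervalIntegral.integral_const,
      add_sub_cancel_left, abs_of_pos t0, ← div_le_iff₀ t0,
      ← intervalIntegral.integral_interval_sub_left (iA 0 _) (iA 0 _)] at this
    rw [show L * β x - A x = (((∫ s in 0..x + t, A s) - ∫ s in 0..x, A s) - t • A x) / t by
      simp only [β, smul_eq_mul]; field_simp, abs_div, abs_of_pos t0]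
    exact this
  obtain ⟨μ, _, ⟨P, hP⟩, a1, a2, a3⟩ := flat hβ (by fun_prop) (fun x => by
    rw [abs_div, abs_of_pos (by positivity : 0 < t * L), div_le_iff₀ (by positivity)]
    refine (hA _ _).trans_eq ?_
    rw [add_sub_cancel_left, abs_of_pos t0, hL]
    ring) (h := t / L) (D := 2 * d) (by positivity) (by positivity)
  let Φ : ℂ → ℂ := fun w => z + ω * ⟨w.re, L * w.im⟩
  have m : Measurable Φ := Continuous.measurable (by
    simp only [Φ, Complex.mk_eq_add_mul_I]; fun_prop)
  have ω0 : ω ≠ 0 := fun h => by simp [h] at hω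
  have h1 : Function.Surjective Φ := fun a => ⟨⟨((a - z) / ω).re, ((a - z) / ω).im / L⟩, by
    simp only [Φ, mul_div_cancel₀ _ L0.ne', Complex.eta, mul_div_cancel₀ _ ω0, add_sub_cancel]⟩
  have h2 : ∀ p q, ‖p - q‖ ≤ ‖Φ p - Φ q‖ := fun p q => by
    simp only [Φ, add_sub_add_left_eq_sub, ← mul_sub, norm_mul, hω, one_mul]
    rw [← sq_le_sq₀ (norm_nonneg _) (norm_nonneg _), Complex.sq_norm, Complex.sq_norm,
      Complex.normSq_apply, Complex.normSq_apply]
    simp only [Complex.sub_re, Complex.sub_im, ← mul_sub]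
    nlinarith [mul_nonneg (mul_self_nonneg (p.im - q.im)) (show 0 ≤ L * L - 1 by nlinarith)]
  have c := lintegral_cur_map (μ := μ) (L := L) m h2 fun a x y => by
    simp only [Φ, add_sub_add_left_eq_sub, ← mul_sub, map_mul]
    rw [mul_mul_mul_comm, Complex.conj_mul', hω]
    simp only [Complex.ofReal_one, one_pow, one_mul, Complex.mul_im, Complex.conj_re, Complex.conj_im,
      Complex.sub_re, Complex.sub_im]
    ring
  set E := {a | cur (μ.map Φ) a ≤ ENNReal.ofReal (L ^ 2 * 30720 / κ)}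
  have mE : MeasurableSet E := (isClosed_cur _ _).measurableSet
  refine ⟨(μ.map Φ).restrict E, (μ.map Φ).restrict Eᶜ, P, inferInstance,
    (hP.map m h1 h2).mono Measure.restrict_le_self, fun a => ?_, ?_, fun x r hx tr rd => ?_⟩
  · rw [Real.sq_sqrt (by positivity)]
    refine ptw _ (h1.forall.2 fun a ρ _ => ?_) (by positivity) a
    rw [Measure.map_apply m measurableSet_closedBall]
    refine le_trans (measure_mono fun w hw => ?_) (a2 a ρ)
    exact mem_closedBall_iff_norm.2 ((h2 _ _).trans (mem_closedBall_iff_norm.1 hw))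
  · rw [Measure.restrict_apply_univ]
    refine le_trans (measure_mono fun a (ha : ¬cur _ a ≤ _) => le_of_not_ge ha) ((meas_ge_le_lintegral_div
      (ε := ENNReal.ofReal (L ^ 2 * 30720 / κ)) (measurable_cur (μ.map Φ)).aemeasurable
      (by simp; positivity) (by simp)).trans ?_)
    refine ENNReal.div_le_of_le_mul (c.trans ((mul_le_mul_right a1 _).trans_eq ?_))
    rw [← ENNReal.ofReal_mul (by positivity), ← ENNReal.ofReal_mul (by positivity)]
    congr 1
    field_simp
    ring
  · rw [Measure.restrict_add_restrict_compl mE, Measure.map_apply m measurableSet_closedBall]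
    rw [abs_le] at hx
    refine le_trans (le_of_eq (by congr 1; ring)) (a3 _ (x - r) (x + r) (m measurableSet_closedBall)
      (by linarith) (by linarith) fun y hy u hu => ?_)
    have b1 : |y - x| ≤ r := abs_le.2 ⟨by linarith [hy.1], by linarith [hy.2]⟩
    have b2 := (hA y x).trans (mul_le_mul_of_nonneg_left b1 M0.le)
    have b3 := (nβ y).trans (mul_le_mul_of_nonneg_left tr M0.le)
    have b4 := (le_div_iff₀' L0).1 hu.2
    have b5 := mul_nonneg L0.le hu.1
    simp only [Φ, mem_preimage, mem_closedBall_iff_norm, add_sub_add_left_eq_sub, ← mul_sub, norm_mul,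
      hω, one_mul]
    refine (Complex.norm_le_abs_re_add_abs_im _).trans ?_
    have b6 : |L * (β y + u) - A x| ≤ M * r + M * r + r := by
      rw [abs_le] at b2 b3 ⊢
      constructor <;> linarith [b2.1, b2.2, b3.1, b3.2]
    simp only [Complex.sub_re, Complex.sub_im]
    simp
    linarith

end Pool.Agent.Lib.MP_45cb44_an.TC
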