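import Pool.Agent.Lib.MP_45cb44_an.TC.Wk
import Pool.Agent.Lib.MP_45cb44_an.TC.Strip
import Pool.Agent.Lib.MP_45cb44_an.TC.Geo

/-! A good point on a continuum. -/

namespace Pool.Agent.Lib.MP_45cb44_an.TC

open MeasureTheory Metric Set Filter Topology
open scoped ENNReal NNReal Real ComplexConjugate InnerProductSpace

lemma cover {K : Set ℂ} {M d R : ℝ} {A : ℝ → ℝ} {ψ : ℂ → ℂ} (hψ : ∀ a b, ‖ψ a - ψ b‖ = ‖a - b‖)
    (hK : IsPreconnected (ψ '' K)) (h0 : (0 : ℂ) ∈ ψ '' K) (hd : (d : ℂ) ∈ ψ '' K) (hM : 6 ≤ M)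
    (e : Env (ψ '' K) M A) (ξ : Measure ℂ) (h : ∀ k ∈ K, ∃ ρ ℓ : ℝ, 0 < ρ ∧ ρ ≤ R ∧
      ENNReal.ofReal ℓ ≤ ξ (closedBall k ρ) ∧ (5 * (4 * ρ) ≤ ℓ ∨ 6 / M * (4 * ρ) ≤ ℓ ∧
        ∀ w ∈ closedBall (ψ k) (4 * ρ), w.im < A w.re)) : ENNReal.ofReal d ≤ ξ univ := by
  choose! ρ ℓ h1 h2 h3 h4 using h
  obtain ⟨u, u1, u2, u3⟩ := Vitali.exists_disjoint_subfamily_covering_enlargement_closedBall K id ρ R
    h2 4 (by norm_num)
  have := (u2.countable_of_nonempty_interior fun k hk =>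
    ⟨k, ball_subset_interior_closedBall (mem_ball_self (h1 k (u1 hk)))⟩).to_subtype
  refine (geo hK h0 hd hM e (fun i : u => ψ i) (fun i => 4 * ρ i) (fun i => ℓ i)
    (fun i => by linarith [h1 i (u1 i.2)]) ?_ fun i => h4 i (u1 i.2)).trans
    ((ENNReal.tsum_le_tsum fun i : u => h3 i (u1 i.2)).trans (tsum_measure_le_measure_univ
      (fun i => measurableSet_closedBall.nullMeasurableSet) fun i j hij =>
        (u2 i.2 j.2 (Subtype.coe_ne_coe.2 hij)).aedisjoint))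
  rintro _ ⟨k, hk, rfl⟩
  obtain ⟨j, hj, h⟩ := u3 k hk
  refine ⟨⟨j, hj⟩, ?_⟩
  rw [mem_closedBall_iff_norm, hψ]
  exact mem_closedBall_iff_norm.1 (h (mem_closedBall_self (h1 k hk).le))

lemma far_int {σ : Measure ℂ} [IsFiniteMeasure σ] {ζ : ℂ} {δ : ℝ} (hδ : 0 < δ)
    (h : ∀ᵐ w ∂σ, δ ≤ ‖w - ζ‖) :
    Integrable (fun w => ‖w - ζ‖⁻¹) σ ∧ ∫ w, ‖w - ζ‖⁻¹ ∂σ ≤ δ⁻¹ * σ.real univ := by
  have b : ∀ᵐ w ∂σ, ‖‖w - ζ‖⁻¹‖ ≤ δ⁻¹ := h.mono fun w hw => by simpa using inv_anti₀ hδ hw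
  exact ⟨.of_bound (Measurable.aestronglyMeasurable (by fun_prop)) _ b,
    (Real.le_norm_self _).trans (norm_integral_le_of_norm_le_const b)⟩

lemma far_ae (σ : Measure ℂ) {k ζ : ℂ} {r δ : ℝ} (h : ‖ζ - k‖ + δ ≤ r) :
    ∀ᵐ w ∂σ.restrict (closedBall k r)ᶜ, δ ≤ ‖w - ζ‖ := by
  filter_upwards [ae_restrict_mem measurableSet_closedBall.compl] with w hw
  rw [mem_compl_iff, mem_closedBall_iff_norm, not_le] at hw
  linarith [norm_sub_le_norm_sub_add_norm_sub w ζ k]

section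
variable {G : Type*} [NormedAddCommGroup G] [InnerProductSpace ℂ G] {σ : Measure ℂ} {b : ℂ → G}

lemma Cb_split (hb : Bm b 1) {ζ : ℂ} (h : Integrable (fun w => ‖w - ζ‖⁻¹) σ) {S : Set ℂ}
    (hS : MeasurableSet S) : Cb σ b ζ = Cb (σ.restrict S) b ζ + Cb (σ.restrict Sᶜ) b ζ :=
  (integral_add_compl hS (hb.int ker_conj h)).symm

lemma cotlar [IsFiniteMeasure σ] (hb : Bm b 1) {k ζ ζ' : ℂ} {C Q r Λ Λ' : ℝ} (hC : 0 ≤ C) (hQ : 5 ≤ Q)
    (hr : 0 < r) (hg : ∀ ρ, 0 < ρ → σ (closedBall k ρ) ≤ ENNReal.ofReal (C * ρ))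
    (h1 : ‖ζ' - k‖ ≤ Q * r) (h2 : Gd σ b Λ ζ') (h3 : Gd (σ.restrict (closedBall k (2 * (Q * r)))) b Λ' ζ')
    (h4 : ‖ζ - k‖ < 5 * r) :
    ‖Cb (σ.restrict (closedBall k (10 * r))ᶜ) b ζ‖ ≤ Λ + Λ' + 16 * C + Q * C := by
  have q : 5 * r ≤ Q * r := by nlinarith
  have q0 : 0 < Q * r := by linarith
  have m := @measurableSet_closedBall ℂ _ _ _ k
  have i1 := (far_int q0 (far_ae σ (k := k) (ζ := ζ) (r := 2 * (Q * r)) (by linarith))).1
  have i2 := (far_int q0 (far_ae σ (k := k) (ζ := ζ') (r := 2 * (Q * r)) (by linarith))).1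
  have f := far_ae σ (k := k) (ζ := ζ) (r := 10 * r) (δ := 5 * r) (by linarith)
  have a1 : ‖Cb (σ.restrict (closedBall k (2 * (Q * r)))ᶜ) b ζ'‖ ≤ Λ + Λ' := by
    rw [eq_sub_of_add_eq' (Cb_split hb h2.1 m).symm]
    linarith [norm_sub_le (Cb σ b ζ') (Cb (σ.restrict (closedBall k (2 * (Q * r)))) b ζ'), h2.2, h3.2]
  have a2 : ‖Cb (σ.restrict (closedBall k (2 * (Q * r)))ᶜ) b ζ -
      Cb (σ.restrict (closedBall k (2 * (Q * r)))ᶜ) b ζ'‖ ≤ 16 * C := by
    rw [Cb, Tr, Tr, ← integral_sub (hb.int ker_conj i1) (hb.int ker_conj i2),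
      ← ENNReal.ofReal_le_ofReal_iff (by positivity), ofReal_norm]
    refine (enorm_integral_le_lintegral_enorm _).trans ((setLIntegral_mono' (g := fun w =>
      ENNReal.ofReal (8 * (Q * r)) * ENNReal.ofReal (‖w - k‖ ^ 2)⁻¹) m.compl fun w hw => ?_).trans ?_)
    · rw [mem_compl_iff, mem_closedBall_iff_norm, not_le] at hw
      have t := @norm_sub_le_norm_sub_add_norm_sub ℂ _
      have x1 : ‖w - k‖ / 2 ≤ ‖w - ζ‖ := by linarith [t w ζ k]
      have x2 : ‖w - k‖ / 2 ≤ ‖w - ζ'‖ := by linarith [t w ζ' k]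
      have x3 : ‖ζ - ζ'‖ ≤ 2 * (Q * r) := by linarith [t ζ k ζ', norm_sub_rev k ζ']
      have x0 : 0 < ‖w - k‖ := by linarith
      rw [← ofReal_norm, ← ENNReal.ofReal_mul (by positivity), ← sub_smul, norm_smul, ← map_inv₀,
        ← map_inv₀, ← map_sub, Complex.norm_conj, inv_sub_inv (norm_pos_iff.1 (by linarith))
        (norm_pos_iff.1 (by linarith)), sub_sub_sub_cancel_left, norm_div, norm_mul]
      refine ENNReal.ofReal_le_ofReal ((mul_le_of_le_one_right (by positivity) (hb.le w)).trans ?_)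
      rw [show 8 * (Q * r) * (‖w - k‖ ^ 2)⁻¹ = 2 * (Q * r) / (‖w - k‖ / 2 * (‖w - k‖ / 2)) by
        field_simp; ring]
      gcongr
    · rw [lintegral_const_mul' _ _ ENNReal.ofReal_ne_top]
      refine (mul_le_mul_right (tail σ hC (by positivity) fun ρ h => hg ρ (by linarith)) _).trans_eq ?_
      rw [← ENNReal.ofReal_mul (by positivity)]
      congr 1
      field_simp
      ring
  have a3 : ‖Cb ((σ.restrict (closedBall k (10 * r))ᶜ).restrict (closedBall k (2 * (Q * r)))) b ζ‖ ≤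
      Q * C := by
    obtain ⟨j1, j2⟩ := far_int (by positivity) (ae_restrict_of_ae (s := closedBall k (2 * (Q * r))) f)
    refine (hb.tr_le ker_conj j1).trans ((mul_one _).trans_le (j2.trans ?_))
    rw [measureReal_restrict_apply_univ, inv_mul_le_iff₀ (by positivity)]
    refine (ENNReal.toReal_le_of_le_ofReal (by positivity) ((Measure.restrict_le_self _).trans
      (hg _ (by positivity)))).trans ?_
    nlinarith [mul_nonneg hC q0.le]
  rw [Cb_split hb (far_int (by positivity) f).1 (m (ε := 2 * (Q * r))),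
    Measure.restrict_restrict_of_subset (compl_subset_compl.2 (closedBall_subset_closedBall
      (by linarith)))]
  linarith [norm_add_le (Cb ((σ.restrict (closedBall k (10 * r))ᶜ).restrict
    (closedBall k (2 * (Q * r)))) b ζ) (Cb (σ.restrict (closedBall k (2 * (Q * r)))ᶜ) b ζ),
    norm_le_insert' (Cb (σ.restrict (closedBall k (2 * (Q * r)))ᶜ) b ζ)
      (Cb (σ.restrict (closedBall k (2 * (Q * r)))ᶜ) b ζ')]

end

variable (G : Type*) [NormedAddCommGroup G] [InnerProductSpace ℂ G] [CompleteSpace G]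

theorem step : ∃ C0 C2 : ℝ, 0 < C0 ∧ 0 < C2 ∧ ∀ (K : Set ℂ) (z z' : ℂ) (d t η : ℝ)
    (σ s : Measure ℂ) (b : ℂ → G), IsCompact K → IsPreconnected K → K ⊆ closedBall z d → z ∈ K →
    z' ∈ K → ‖z' - z‖ = d → 0 < t → t ≤ d → 0 < η → σ ≤ s → s univ ≤ ENNReal.ofReal (η * d) →
    Bm b 1 → ∃ k ∈ K, ∃ r0 : ℝ, 0 ≤ r0 ∧ r0 ≤ d / 50 ∧
      (∀ ρ, 0 < ρ → s (closedBall k ρ) ≤ ENNReal.ofReal (C0 * η * ρ)) ∧
      (0 < r0 → s (closedBall k (10 * r0)) ≤ ENNReal.ofReal (η / 2 * r0)) ∧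
      ∀ r, r0 ≤ r → t ≤ r → r ≤ d → ∀ ζ ∈ ball k (5 * r),
        ‖Cb (σ.restrict (closedBall k (10 * r))ᶜ) b ζ‖ ≤ C2 * η := by
  obtain ⟨K0, k0, hs⟩ := strip (M := 1000) (κ := 1 / 18000000) (by norm_num) (by norm_num)
  refine ⟨150, 918000000 * K0 + 918000000 * K0 + 16 * 150 + 60000 * 150, by norm_num, by positivity,
    fun K z z' d t η σ s b hK hK' hb hz hz' hd t0 td η0 hσ hs' bb => ?_⟩
  have d0 : 0 < d := by linarith
  have : IsFiniteMeasure s := ⟨hs'.trans_lt ENNReal.ofReal_lt_top⟩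
  have := isFiniteMeasure_of_le s hσ
  obtain ⟨ω, hω, hω'⟩ : ∃ ω : ℂ, ‖ω‖ = 1 ∧ z' = z + ω * d :=
    ⟨(z' - z) / d, by simp [hd, abs_of_pos d0, d0.ne'], by simp [d0.ne']⟩
  have ω0 : ω ≠ 0 := fun h => by simp [h] at hω
  let ψ : ℂ → ℂ := fun w => (w - z) / ω
  have hψ : ∀ a b, ‖ψ a - ψ b‖ = ‖a - b‖ := fun a b => by simp [ψ, ← sub_div, hω]
  have nψ : ∀ k ∈ K, ‖ψ k‖ ≤ d := fun k hk => by
    simpa [ψ, hω] using mem_closedBall_iff_norm.1 (hb hk)
  obtain ⟨A, e⟩ := exists_env (hK.image (by fun_prop : Continuous ψ)) ⟨_, z, hz, rfl⟩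
    (M := 1000) (by norm_num)
  obtain ⟨μ, τ0, P, _, hP, c1, c2, c3⟩ := hs A t d z ω e.lip t0 td hω
  have wk : ∀ (ν : Measure ℂ) (x y : ℝ), 0 < x → 0 ≤ y → ν univ ≤ ENNReal.ofReal (η * y) →
      μ {ζ | ¬Gd ν b (x * K0 * η) ζ} ≤ ENNReal.ofReal (51 * y / x) := fun ν x y x0 y0 h => by
    have : IsFiniteMeasure ν := ⟨h.trans_lt ENNReal.ofReal_lt_top⟩
    refine (weak hP k0 c1 bb (by positivity)).trans (ENNReal.ofReal_le_ofReal ?_)
    rw [show 51 * y / x = 51 * K0 * (η * y) / (x * K0 * η) by field_simp]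
    gcongr
    exact ENNReal.toReal_le_of_le_ofReal (by positivity) h
  set Z := {ζ | ¬Gd σ b (918000000 * K0 * η) ζ}
  have mZ : MeasurableSet Z := (measurableSet_Gd bb).compl
  let τ := ENNReal.ofReal (150 * η)⁻¹ • s + ENNReal.ofReal 120000 • (τ0 + μ.restrict Z)
  have tτ : τ univ ≤ ENNReal.ofReal (d / 50) := by
    simp only [τ, Measure.add_apply, Measure.smul_apply, smul_eq_mul, Measure.restrict_apply_univ]
    refine (add_le_add (mul_le_mul_right hs' _) (mul_le_mul_right (add_le_add c2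
      (wk σ _ d (by norm_num) d0.le ((hσ _).trans hs'))) _)).trans_eq ?_
    rw [← ENNReal.ofReal_add (by positivity) (by positivity), ← ENNReal.ofReal_mul (by positivity),
      ← ENNReal.ofReal_mul (by positivity), ← ENNReal.ofReal_add (by positivity) (by positivity)]
    congr 1
    field_simp
    ring
  have hh : ∀ k ∈ K, 0 ≤ A (ψ k).re - (ψ k).im ∧ A (ψ k).re - (ψ k).im ≤ 2 * d := fun k hk => by
    obtain ⟨_, ⟨j, hj, rfl⟩, h⟩ := e.ex (ψ k).re
    have a := abs_le.1 ((Complex.abs_im_le_norm _).trans (nψ k hk))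
    have b := abs_le.1 ((Complex.abs_im_le_norm _).trans (nψ j hj))
    exact ⟨sub_nonneg.2 (e.le _ ⟨k, hk, rfl⟩), by linarith [abs_nonneg ((ψ k).re - (ψ j).re)]⟩
  obtain ⟨k, hk, g1, g2⟩ : ∃ k ∈ K, (∀ ρ, 0 < ρ → τ (closedBall k ρ) ≤ ENNReal.ofReal ρ) ∧
      (0 < (A (ψ k).re - (ψ k).im) / 50050 → s (closedBall k (10 * ((A (ψ k).re - (ψ k).im) / 50050))) ≤
        ENNReal.ofReal (η / 2 * ((A (ψ k).re - (ψ k).im) / 50050))) := by
    by_contra! h
    refine not_lt.2 (cover hψ (hK'.image _ (by fun_prop)) ⟨z, hz, by simp [ψ]⟩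
      ⟨z', hz', by simp [ψ, hω', ω0]⟩ (by norm_num) e (R := d) (d := d)
      (ENNReal.ofReal 20 • τ + ENNReal.ofReal (12 / 25 / η) • s) fun k hk => ?_) ?_
    · simp only [Measure.add_apply, Measure.smul_apply, smul_eq_mul]
      by_cases h1 : ∀ ρ, 0 < ρ → τ (closedBall k ρ) ≤ ENNReal.ofReal ρ
      · obtain ⟨h2, h3⟩ := h k hk h1
        have h4 := (hh k hk).2
        generalize hx : A (ψ k).re - (ψ k).im = x at *
        refine ⟨10 * (x / 50050), _, by linarith, by linarith, le_add_left (le_trans (le_of_eq ?_)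
          (mul_le_mul_right h3.le _)), Or.inr ⟨le_rfl, fun w hw => ?_⟩⟩
        · rw [← ENNReal.ofReal_mul (by positivity)]
          congr 1
          field_simp
          ring
        · have a := abs_le.1 ((Complex.abs_re_le_norm _).trans (mem_closedBall_iff_norm.1 hw))
          have b := abs_le.1 ((Complex.abs_im_le_norm _).trans (mem_closedBall_iff_norm.1 hw))
          have c := abs_le.1 ((e.lip w.re (ψ k).re).trans (mul_le_mul_of_nonneg_left (abs_le.2 a)
            (by norm_num)))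
          rw [Complex.sub_im] at b
          linarith [b.2, c.1]
      · push Not at h1
        obtain ⟨ρ, r0, h1⟩ := h1
        have := (ENNReal.ofReal_lt_ofReal_iff (by positivity)).1
          (h1.trans_le ((measure_mono (subset_univ _)).trans tτ))
        refine ⟨ρ, 20 * ρ, r0, by linarith, le_add_right ?_, Or.inl (by linarith)⟩
        rw [ENNReal.ofReal_mul (by norm_num)]
        exact mul_le_mul_right h1.le _
    · rw [Measure.add_apply, Measure.smul_apply, Measure.smul_apply, smul_eq_mul, smul_eq_mul]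
      refine (add_le_add (mul_le_mul_right tτ _) (mul_le_mul_right hs' _)).trans_lt ?_
      rw [← ENNReal.ofReal_mul (by positivity), ← ENNReal.ofReal_mul (by positivity),
        ← ENNReal.ofReal_add (by positivity) (by positivity), ENNReal.ofReal_lt_ofReal_iff d0,
        show 12 / 25 / η * (η * d) = 12 / 25 * d by field_simp]
      linarith
  obtain ⟨h1, h2⟩ := hh k hk
  have ga : ∀ ρ, 0 < ρ → s (closedBall k ρ) ≤ ENNReal.ofReal (150 * η * ρ) := fun ρ r0 => by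
    have := mul_le_mul_right ((le_add_right (a := _ * s _) le_rfl).trans (g1 ρ r0))
      (ENNReal.ofReal (150 * η))
    rwa [← mul_assoc, ← ENNReal.ofReal_mul (by positivity),
      mul_inv_cancel₀ (by positivity), ENNReal.ofReal_one, one_mul,
      ← ENNReal.ofReal_mul (by positivity)] at this
  refine ⟨k, hk, _, by positivity, by linarith, ga, g2, fun r r1 r2 r3 ζ hζ => ?_⟩
  have r0 : 0 < r := by linarith
  have b1 := c3 (ψ k).re r ((Complex.abs_re_le_norm _).trans (nψ k hk)) r2 r3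
  set B := closedBall (z + ω * ((ψ k).re + A (ψ k).re * Complex.I)) ((2 * 1000 + 2) * r)
  have sB : B ⊆ closedBall k (60000 * r) := closedBall_subset_closedBall' (by
    rw [dist_eq_norm, show z + ω * ((ψ k).re + A (ψ k).re * Complex.I) - k =
      ω * (((A (ψ k).re - (ψ k).im : ℝ) : ℂ) * Complex.I) by
        have : k = z + ω * ((ψ k).re + (ψ k).im * Complex.I) := by
          rw [Complex.re_add_im]; simp only [ψ]; field_simp; ring
        push_cast
        linear_combination -this]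
    simp only [norm_mul, hω, Complex.norm_I, Complex.norm_real, Real.norm_of_nonneg h1]
    linarith)
  have b2 : (τ0 + μ.restrict Z) B ≤ ENNReal.ofReal (r / 2) := by
    have := mul_le_mul_right ((le_add_left (a := _ * (τ0 + μ.restrict Z) _) le_rfl).trans
      (g1 (60000 * r) (by positivity))) (ENNReal.ofReal 120000⁻¹)
    rw [← mul_assoc, ← ENNReal.ofReal_mul (by positivity),
      inv_mul_cancel₀ (by positivity), ENNReal.ofReal_one, one_mul,
      ← ENNReal.ofReal_mul (by positivity)] at this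
    exact (measure_mono sB).trans (this.trans_eq (by congr 1; ring))
  have b3 := wk (σ.restrict (closedBall k (2 * (60000 * r)))) 918000000 (18000000 * r) (by norm_num)
    (by positivity) (by
      rw [Measure.restrict_apply_univ]
      exact (hσ _).trans ((ga _ (by positivity)).trans_eq (by congr 1; ring)))
  obtain ⟨ζ', z1, z2, z3⟩ : ∃ ζ' ∈ B, Gd σ b (918000000 * K0 * η) ζ' ∧
      Gd (σ.restrict (closedBall k (2 * (60000 * r)))) b (918000000 * K0 * η) ζ' := by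
    by_contra! h
    have : μ B ≤ μ.restrict Z B + _ := (measure_mono (fun w hw => (em (w ∈ Z)).imp
      (fun h' => ⟨hw, h'⟩) fun h' => h w hw (not_not.1 h'))).trans
      ((measure_union_le (B ∩ Z) _).trans (add_le_add (Measure.restrict_apply' mZ).ge b3))
    rw [Measure.add_apply] at b1 b2
    have b4 := b1.trans (add_le_add this le_rfl)
    rw [add_right_comm, add_comm _ (τ0 B)] at b4
    have b5 := b4.trans (add_le_add b2 le_rfl)
    rw [← ENNReal.ofReal_add (by positivity) (by positivity),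
      ENNReal.ofReal_le_ofReal_iff (by positivity)] at b5
    linarith
  refine (cotlar bb (C := 150 * η) (by positivity) (by norm_num) r0 (fun ρ h => (hσ _).trans (ga ρ h))
    (mem_closedBall_iff_norm.1 (sB z1)) z2 z3 (mem_ball_iff_norm.1 hζ)).trans_eq (by ring)

end Pool.Agent.Lib.MP_45cb44_an.TC
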