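import Pool.Agent.Lib.MP_45cb44_an.TC.Wk

/-! Hilbert-Schmidt maps into the sequence space. -/

namespace Pool.Agent.Lib.MP_45cb44_an.TC

open MeasureTheory Metric Set Filter Topology ContinuousLinearMap
open scoped ENNReal NNReal Real ComplexConjugate InnerProductSpace

/-- Square summable sequences. -/
abbrev SQ (G : Type*) [NormedAddCommGroup G] := lp (fun _ : ℕ => G) 2

variable {G : Type*} [NormedAddCommGroup G] [InnerProductSpace ℂ G]

omit [InnerProductSpace ℂ G] in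
lemma vs_sq (w : SQ G) : HasSum (fun i => ‖w i‖ ^ 2) (‖w‖ ^ 2) := by
  simpa using lp.hasSum_norm (p := 2) (by norm_num) w

lemma vs_term (w : SQ G) (y : G) (i : ℕ) : ‖⟪w i, y⟫_ℂ‖ ^ 2 ≤ ‖w i‖ ^ 2 * ‖y‖ ^ 2 := by
  rw [← mul_pow]
  exact pow_le_pow_left₀ (norm_nonneg _) (norm_inner_le_norm _ _) 2

lemma vs_mem (w : SQ G) (y : G) : Memℓp (fun i => ⟪w i, y⟫_ℂ) 2 := by
  refine memℓp_gen ?_
  simpa using Summable.of_nonneg_of_le (fun i => by positivity) (vs_term w y)
    ((vs_sq w).summable.mul_right _)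

lemma vs_le (w : SQ G) (y : G) :
    ‖(⟨fun i => ⟪w i, y⟫_ℂ, vs_mem w y⟩ : SQ ℂ)‖ ≤ ‖w‖ * ‖y‖ := by
  refine (pow_le_pow_iff_left₀ (norm_nonneg _) (by positivity) two_ne_zero).1 ?_
  rw [mul_pow]
  have h := vs_sq (⟨fun i => ⟪w i, y⟫_ℂ, vs_mem w y⟩ : SQ ℂ)
  exact hasSum_le (vs_term w y) h ((vs_sq w).mul_right _)

/-- The map `y ↦ (⟪w i, y⟫)`. -/
noncomputable def Vs (w : SQ G) : G →L[ℂ] SQ ℂ :=
  LinearMap.mkContinuous
    { toFun := fun y => ⟨fun i => ⟪w i, y⟫_ℂ, vs_mem w y⟩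
      map_add' := fun x y => by ext i; simp
      map_smul' := fun c x => by ext i; simp } ‖w‖ (vs_le w)

@[simp] lemma Vs_apply (w : SQ G) (y : G) (i : ℕ) : Vs w y i = ⟪w i, y⟫_ℂ := rfl

lemma norm_Vs (w : SQ G) : ‖Vs w‖ ≤ ‖w‖ := LinearMap.mkContinuous_norm_le _ (norm_nonneg _) _

lemma norm_Vs_apply (w : SQ G) (y : G) : ‖Vs w y‖ ≤ ‖w‖ * ‖y‖ := vs_le w y

lemma Vs_sub (w w' : SQ G) : Vs (w - w') = Vs w - Vs w' := by
  ext y i
  simp

lemma Vs_smul (c : ℂ) (w : SQ G) : Vs (c • w) = conj c • Vs w := by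
  ext y i
  simp [mul_comm]

lemma continuous_Vs : Continuous (Vs : SQ G → G →L[ℂ] SQ ℂ) := by
  refine (LipschitzWith.of_dist_le_mul (K := 1) fun w w' => ?_).continuous
  rw [dist_eq_norm, dist_eq_norm, ← Vs_sub, NNReal.coe_one, one_mul]
  exact norm_Vs _

lemma vs_add (w w' : SQ G) : Vs (w + w') = Vs w + Vs w' := by
  ext y i
  simp

lemma vs_single (i : ℕ) (a : G) :
    Vs (lp.single 2 i a : SQ G) = (innerSL ℂ a).smulRight (lp.single 2 i (1 : ℂ) : SQ ℂ) := by
  ext y j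
  by_cases h : j = i
  · subst h
    simp
  · simp [lp.single_apply, Pi.single_eq_of_ne h]

lemma compact_Vs (w : SQ G) : IsCompactOperator (Vs w) := by
  have h : ∀ s : Finset ℕ, IsCompactOperator (Vs (∑ i ∈ s, lp.single 2 i (w i) : SQ G)) := by
    intro s
    induction s using Finset.induction_on with
    | empty =>
      have : Vs (0 : SQ G) = 0 := by simpa using Vs_sub w w
      rw [Finset.sum_empty, this]
      exact isCompactOperator_zero
    | insert i s hi ih =>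
      rw [Finset.sum_insert hi, vs_add, vs_single]
      refine IsCompactOperator.add ?_ ih
      exact (isCompactOperator_of_locallyCompactSpace_dom (innerSL ℂ (w i))).clm_comp
        (toSpanSingleton ℂ (lp.single 2 i (1 : ℂ) : SQ ℂ))
  exact isClosed_setOfPred_isCompactOperator.mem_of_tendsto
    ((continuous_Vs.tendsto w).comp (lp.hasSum_single (by norm_num) w)) (.of_forall h)

lemma hasSum_adj [CompleteSpace G] (u : SQ G) (t : SQ ℂ) :
    HasSum (fun i => t i • u i) (adjoint (Vs u) t) := by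
  have h := (lp.hasSum_single (by norm_num) t).mapL (adjoint (Vs u))
  have e : ∀ i, adjoint (Vs u) (lp.single 2 i (t i)) = t i • u i := fun i => by
    refine ext_inner_right ℂ fun y => ?_
    rw [adjoint_inner_left, lp.inner_single_left, inner_smul_left, Vs_apply]
    simp [mul_comm]
  simpa only [e] using h

set_option linter.unusedSectionVars false in
lemma hasSum_sq (w : SQ G) : HasSum (fun i => ‖w i‖ ^ 2) (‖w‖ ^ 2) :=
  vs_sq w

end Pool.Agent.Lib.MP_45cb44_an.TC
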