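import Pool.Agent.Lib.MP_45cb44_an.TC.Psi

/-! Averages of the resolvent. -/

namespace Pool.Agent.Lib.MP_45cb44_an.TC

open MeasureTheory Metric Set Filter Topology ContinuousLinearMap
open scoped ENNReal NNReal Real ComplexConjugate InnerProductSpace

variable {H : Type*} [NormedAddCommGroup H] [InnerProductSpace ℂ H] [CompleteSpace H]
  {N : H →L[ℂ] H} {u v w : SQ H} {θ θ' : ℂ → SQ ℂ} {a : ℂ → SQ (SQ ℂ)} {c : ℂ} {R B : ℝ}

lemma nice_mD : Nice mD 3 :=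
  ⟨fun z => le_zero_iff.1 ((mD_le _).trans_eq (measure_singleton z)),
    fun z => (newton_D le_rfl z).1, fun z => (newton_D le_rfl z).2⟩

lemma xx_small (z w : ℂ) {r : ℝ} (hr : 0 < r) :
    Integrable ((ball z r).indicator fun ζ => ‖ζ - w‖⁻¹) mD ∧
      ∫ ζ, (ball z r).indicator (fun ζ => ‖ζ - w‖⁻¹) ζ ∂mD ≤ 3 * r := by
  rw [integrable_indicator_iff measurableSet_ball, integral_indicator measurableSet_ball]
  exact newton_le (ν := mD.restrict (ball z r)) (Measure.restrict_le_self.trans mD_le) hr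
    (by simpa using (mD_le _).trans_eq (mm_ball z hr.le)) w

lemma xx_ker {z w : ℂ} {r : ℝ} (hr : 0 < r) (hw : ‖w - z‖ < r / 2) (ζ : ℂ) :
    ‖(ζ - w)⁻¹ - (ζ - z)⁻¹‖ ≤ (ball z r).indicator (fun ζ => ‖ζ - w‖⁻¹) ζ +
      (ball z r).indicator (fun ζ => ‖ζ - z‖⁻¹) ζ + (r / 2)⁻¹ * (r / 2)⁻¹ * ‖w - z‖ := by
  by_cases h : ζ ∈ ball z r
  · rw [indicator_of_mem h, indicator_of_mem h, ← norm_inv, ← norm_inv]
    exact (norm_sub_le _ _).trans (le_add_of_nonneg_right (by positivity))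
  · rw [indicator_of_notMem h, indicator_of_notMem h, add_zero, zero_add]
    rw [mem_ball, dist_eq_norm, not_lt] at h
    have h1 : r / 2 ≤ ‖ζ - w‖ := by linarith [norm_sub_le_norm_sub_add_norm_sub ζ w z]
    have h2 : r / 2 ≤ ‖ζ - z‖ := by linarith
    have h3 : ζ - w ≠ 0 := norm_pos_iff.1 ((half_pos hr).trans_le h1)
    have h4 : ζ - z ≠ 0 := norm_pos_iff.1 ((half_pos hr).trans_le h2)
    have e : (ζ - w)⁻¹ - (ζ - z)⁻¹ = (ζ - w)⁻¹ * (ζ - z)⁻¹ * (w - z) := by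
      field_simp
      ring
    rw [e, norm_mul, norm_mul, norm_inv, norm_inv]
    gcongr

lemma xx_sub {G : Type*} [NormedAddCommGroup G] [InnerProductSpace ℂ G] {θ : ℂ → G} (h : Bm θ B)
    {z w : ℂ} {r : ℝ} (hr : 0 < r) (hw : ‖w - z‖ < r / 2) :
    ‖Cf mD θ w - Cf mD θ z‖ ≤ (6 * r + (r / 2)⁻¹ * (r / 2)⁻¹ * ‖w - z‖) * B := by
  obtain ⟨i1, j1⟩ := xx_small z w hr
  obtain ⟨i2, j2⟩ := xx_small z z hr
  rw [Cf, Tr, Tr, ← integral_sub (h.int ker_inv (nice_mD.int w)) (h.int ker_inv (nice_mD.int z))]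
  refine (norm_integral_le_of_norm_le (((i1.add i2).add
    (integrable_const ((r / 2)⁻¹ * (r / 2)⁻¹ * ‖w - z‖))).mul_const B)
    (.of_forall fun ζ => ?_)).trans ?_
  · rw [← sub_smul, norm_smul]
    exact mul_le_mul (xx_ker hr hw ζ) (h.le ζ) (norm_nonneg _)
      ((norm_nonneg _).trans (xx_ker hr hw ζ))
  · rw [integral_mul_const, integral_add' (i1.add i2) (integrable_const _), integral_add' i1 i2,
      integral_const, Measure.real, mD_univ, ENNReal.toReal_one, one_smul]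
    exact mul_le_mul_of_nonneg_right (by linarith) h.nonneg

lemma Bm.continuous_Cf (h : Bm θ B) : Continuous (Cf mD θ) := by
  refine continuous_iff_continuousAt.2 fun z => Metric.continuousAt_iff'.2 fun ε hε => ?_
  obtain ⟨r, r0, r1⟩ := exists_pos_mul_lt hε (7 * B)
  have t : Tendsto (fun w => (r / 2)⁻¹ * (r / 2)⁻¹ * ‖w - z‖) (𝓝 z) (𝓝 0) :=
    Continuous.tendsto' (by fun_prop) _ _ (by simp)
  filter_upwards [ball_mem_nhds z (half_pos r0), t.eventually (gt_mem_nhds r0)] with w hw h3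
  rw [mem_ball, dist_eq_norm] at hw
  rw [dist_eq_norm]
  refine (xx_sub h r0 hw).trans_lt ?_
  nlinarith [h.nonneg]

/-- Bounded measurable densities carried by a disc. -/
structure Th (c : ℂ) (R : ℝ) (θ : ℂ → SQ ℂ) : Prop where
  bm : ∃ B, Bm θ B
  supp : ∀ ζ, θ ζ ≠ 0 → ζ ∈ ball c R

lemma Th.smul (h : Th c R θ) {φ : ℂ → ℂ} (hφ : Measurable φ) {C : ℝ}
    (hC : ∀ ζ ∈ ball c R, ‖φ ζ‖ ≤ C) : Th c R fun ζ => φ ζ • θ ζ := by
  obtain ⟨⟨B, hB⟩, hs⟩ := h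
  refine ⟨⟨|C| * B, hφ.stronglyMeasurable.smul hB.m, fun ζ => ?_⟩,
    fun ζ hζ => hs ζ (right_ne_zero_of_smul hζ)⟩
  by_cases h0 : θ ζ = 0
  · rw [h0, smul_zero, norm_zero]
    exact mul_nonneg (abs_nonneg _) hB.nonneg
  · rw [norm_smul]
    exact mul_le_mul ((hC ζ (hs ζ h0)).trans (le_abs_self _)) (hB.le ζ) (norm_nonneg _)
      (abs_nonneg _)

lemma Th.add (h : Th c R θ) (h' : Th c R θ') : Th c R fun ζ => θ ζ + θ' ζ := by
  obtain ⟨⟨B, hB⟩, hs⟩ := h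
  obtain ⟨⟨B', hB'⟩, hs'⟩ := h'
  refine ⟨⟨B + B', hB.m.add hB'.m, fun ζ => norm_add_le_of_le (hB.le ζ) (hB'.le ζ)⟩,
    fun ζ hζ => ?_⟩
  by_cases h0 : θ ζ = 0
  · exact hs' ζ (by simpa [h0] using hζ)
  · exact hs ζ h0

lemma Th.int (h : Th c R θ) : Integrable θ mD :=
  h.bm.elim fun B hB => .of_bound hB.m.aestronglyMeasurable B (.of_forall hB.le)

/-- Average of the resolvent. -/
noncomputable def XX (N : H →L[ℂ] H) (u : SQ H) (θ : ℂ → SQ ℂ) : H := Psi N u (Cf mD θ)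

lemma norm_XX_le (hN : IsStarNormal N) (h : Bm θ B) : ‖XX N u θ‖ ≤ 3 * B * ‖u‖ :=
  norm_psi_le hN h.continuous_Cf (h.tr ker_inv nice_mD).nonneg (h.tr ker_inv nice_mD).le

lemma xx_cont (h : Th c R θ) : Continuous (Cf mD θ) := h.bm.elim fun _ hB => hB.continuous_Cf

lemma xx_cf_smul {G : Type*} [NormedAddCommGroup G] [InnerProductSpace ℂ G] (θ : ℂ → G)
    (s z : ℂ) : Cf mD (fun ζ => s • θ ζ) z = s • Cf mD θ z := by
  simp only [Tr, smul_comm _ s, integral_smul]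

lemma xx_cf_sub {G : Type*} [NormedAddCommGroup G] [InnerProductSpace ℂ G] {θ : ℂ → G}
    (h : Bm θ B) (l z : ℂ) :
    (z - l) • Cf mD θ z + ∫ ζ, θ ζ ∂mD = Cf mD (fun ζ => (ζ - l) • θ ζ) z := by
  have b : Bm (fun ζ => (z - l) • θ ζ) (‖z - l‖ * B) := ⟨h.m.const_smul (z - l), fun ζ =>
    (norm_smul_le _ _).trans (mul_le_mul_of_nonneg_left (h.le ζ) (norm_nonneg _))⟩
  rw [← xx_cf_smul, Cf, Tr, Cf, Tr, ← integral_add (b.int ker_inv (nice_mD.int z))
    (.of_bound h.m.aestronglyMeasurable B (.of_forall h.le))]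
  refine integral_congr_ae ?_
  filter_upwards [nice_mD.ae_ne z] with ζ hζ
  have : ζ - z ≠ 0 := sub_ne_zero.2 hζ
  have k : (ζ - z)⁻¹ * (ζ - l) = (ζ - z)⁻¹ * (z - l) + 1 := by
    field_simp
    ring
  simp only [smul_smul, k, add_smul, one_smul]

lemma xx_int (h : Th c R θ) (z : ℂ) : Integrable (fun ζ => (ζ - z)⁻¹ • θ ζ) mD :=
  h.bm.elim fun _ hB => hB.int ker_inv (nice_mD.int z)

lemma XX_add (hN : IsStarNormal N) (h : Th c R θ) (h' : Th c R θ') :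
    XX N u (fun ζ => θ ζ + θ' ζ) = XX N u θ + XX N u θ' := by
  rw [XX, XX, XX, ← psi_add hN (xx_cont h) (xx_cont h')]
  congr 1
  funext z
  simp only [Tr, smul_add]
  exact integral_add (xx_int h z) (xx_int h' z)

lemma XX_smul (hN : IsStarNormal N) (h : Th c R θ) (s : ℂ) :
    XX N u (fun ζ => s • θ ζ) = s • XX N u θ := by
  have e := psi_smul (u := u) hN (xx_cont h) (continuous_const (y := s))
  rw [cfc_const s N, Algebra.algebraMap_eq_smul_one, smul_apply,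
    one_apply_eq_self] at e
  rw [XX, XX, ← e]
  congr 1
  funext z
  exact xx_cf_smul θ s z

lemma N_XX (hN : IsStarNormal N) (h : Th c R θ) (l : ℂ) :
    N (XX N u θ) - l • XX N u θ =
      XX N u (fun ζ => (ζ - l) • θ ζ) - adjoint (Vs u) (∫ ζ, θ ζ ∂mD) := by
  have hc : Continuous fun z : ℂ => z - l := by fun_prop
  have e := psi_smul (u := u) hN (xx_cont h) hc
  rw [cfc_sub (fun z : ℂ => z) (fun _ => l) N, cfc_id' ℂ N, cfc_const l N,
    Algebra.algebraMap_eq_smul_one, sub_apply, smul_apply, one_apply_eq_self] at e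
  rw [XX, XX, ← e, eq_sub_iff_add_eq, ← psi_const hN,
    ← psi_add hN (hc.fun_smul (xx_cont h)) continuous_const]
  congr 1
  funext z
  exact h.bm.elim fun _ hB => xx_cf_sub hB l z

end Pool.Agent.Lib.MP_45cb44_an.TC
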